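import Pool.Agent.helper65.GD.SpecE

set_option autoImplicit false

/-! # The identity for Goodman's numbers behind the multiplication by `z/((1-xz)(1-yz))` -/

namespace Pool.Agent.GD

open Finset

/-- `A(p,m,i)` for `1 ≤ i ≤ p`, else `0`. -/
noncomputable def ae (p m i : ℕ) : ℝ := if 1 ≤ i ∧ i ≤ p then AA p m i else 0

/-- `A(p,m,j-1) + 2 A(p,m,j) + A(p,m,j+1)`. -/
noncomputable def c3 (p m j : ℕ) : ℝ := ae p m (j - 1) + 2 * ae p m j + ae p m (j + 1)

/-- `1/((p+1-j)! (p+1+j)!)`. -/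
noncomputable def ej (p j : ℕ) : ℝ := 1 / ((p + 1 - j).factorial * (p + 1 + j).factorial)

/-- `(m+p)!/(m-p-1)!`. -/
noncomputable def xm (p m : ℕ) : ℝ := (m + p).factorial / (m - p - 1).factorial

lemma NUM2_rat (n P j : ℝ) (h1 : n + 1 - j ≠ 0) (h2 : n + 1 + j ≠ 0) (h3 : n - j ≠ 0) (h4 : n + j ≠ 0)
    (h5 : n - 1 - j ≠ 0) (h6 : n - 1 + j ≠ 0) :
    j * ((n + P) * (n + P + 1) / ((n + 1 - j) * (n + 1 + j)) - 2 * (n ^ 2 - P ^ 2) / ((n - j) * (n + j)) +
      (n - P) * (n - P - 1) / ((n - 1 - j) * (n - 1 + j))) =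
    (j - 1) * (P + j) * (P + j - 1) / ((n + 1 - j) * (n - 1 + j)) + 2 * j * (P ^ 2 - j ^ 2) / ((n - j) * (n + j)) +
      (j + 1) * (P - j) * (P - j - 1) / ((n - 1 - j) * (n + 1 + j)) := by
  field_simp
  ring

lemma NUM2_fac (a : ℕ) : ((a.factorial : ℕ) : ℝ) ≠ 0 := by
  exact_mod_cast a.factorial_ne_zero

/-- `A(p,m,j-1)`. -/
lemma NUM2_e1 (p m j : ℕ) (hj : 1 ≤ j) (hjp : j ≤ p + 1) (hm : p < m) :
    ae p m (j - 1) = 2 * (j - 1) * ej p j * ((p + 1 : ℝ) + j) * (p + j) * xm p m / (((m : ℝ) + 1 - j) * (m - 1 + j)) := by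
  obtain ⟨i, rfl⟩ : ∃ i, j = i + 1 := ⟨j - 1, by omega⟩
  rcases Nat.eq_zero_or_pos i with h0 | hi
  · subst h0
    simp [ae]
  · unfold ae AA ej xm
    rw [if_pos ⟨by omega, by omega⟩]
    have e1 : i + 1 - 1 = i := by omega
    have e2 : p + 1 - (i + 1) = p - i := by omega
    have e3 : (p + 1 + (i + 1)).factorial = (p + i + 2) * ((p + i + 1) * (p + i).factorial) := by
      rw [show p + 1 + (i + 1) = (p + i) + 1 + 1 by ring, Nat.factorial_succ, Nat.factorial_succ]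
    rw [e1, e2, e3]
    push_cast
    have f1 := NUM2_fac (p - i)
    have f2 := NUM2_fac (p + i)
    have f3 := NUM2_fac (m - p - 1)
    have hmr : (i : ℝ) < m := by exact_mod_cast (by omega : i < m)
    have g1 : (m : ℝ) ^ 2 - (i : ℝ) ^ 2 = (m + 1 - (i + 1)) * (m - 1 + (i + 1)) := by ring
    have g2 : (m : ℝ) + 1 - (i + 1) ≠ 0 := by
      have : (m : ℝ) + 1 - (i + 1) = m - i := by ring
      rw [this]
      exact sub_ne_zero.2 hmr.ne'
    have g3 : (m : ℝ) - 1 + (i + 1) ≠ 0 := by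
      have h : (0 : ℝ) < m - 1 + (i + 1) := by
        have : (0 : ℝ) ≤ i := Nat.cast_nonneg i
        linarith
      exact h.ne'
    have g4 : (p : ℝ) + i + 2 ≠ 0 := by positivity
    have g5 : (p : ℝ) + i + 1 ≠ 0 := by positivity
    rw [g1]
    field_simp
    ring

/-- `A(p,m,j)`. -/
lemma NUM2_e2 (p m j : ℕ) (hj : 1 ≤ j) (hjp : j ≤ p + 1) (hm : p < m) :
    ae p m j = 2 * j * ej p j * ((p + 1 : ℝ) ^ 2 - j ^ 2) * xm p m / (((m : ℝ) - j) * (m + j)) := by
  rcases Nat.lt_or_ge p j with h0 | hi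
  · have : j = p + 1 := by omega
    subst this
    unfold ae
    rw [if_neg (by omega)]
    push_cast
    ring
  · unfold ae AA ej xm
    rw [if_pos ⟨by omega, by omega⟩]
    obtain ⟨i, rfl⟩ : ∃ i, p = i + j := ⟨p - j, by omega⟩
    have e2 : i + j + 1 - j = i + 1 := by omega
    have e2' : i + j - j = i := by omega
    have e3 : (i + j + 1 + j).factorial = (i + j + j + 1) * (i + j + j).factorial := by
      rw [show i + j + 1 + j = (i + j + j) + 1 by ring, Nat.factorial_succ]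
    rw [e2, e2', e3, Nat.factorial_succ]
    push_cast
    have f1 := NUM2_fac i
    have f2 := NUM2_fac (i + j + j)
    have f3 := NUM2_fac (m - (i + j) - 1)
    have hmr : (j : ℝ) < m := by exact_mod_cast (by omega : j < m)
    have g1 : (m : ℝ) ^ 2 - (j : ℝ) ^ 2 = (m - j) * (m + j) := by ring
    have g2 : (m : ℝ) - j ≠ 0 := sub_ne_zero.2 hmr.ne'
    have g3 : (m : ℝ) + j ≠ 0 := by positivity
    have g4 : (i : ℝ) + 1 ≠ 0 := by positivity
    have g5 : (i : ℝ) + j + j + 1 ≠ 0 := by positivity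
    rw [g1]
    field_simp
    ring

/-- `A(p,m,j+1)`. -/
lemma NUM2_e3 (p m j : ℕ) (hj : 1 ≤ j) (hjp : j ≤ p + 1) (hm : p < m) :
    ae p m (j + 1) = 2 * (j + 1) * ej p j * ((p + 1 : ℝ) - j) * (p - j) * xm p m / (((m : ℝ) - 1 - j) * (m + 1 + j)) := by
  rcases Nat.lt_or_ge p (j + 1) with h0 | hi
  · unfold ae
    rw [if_neg (by omega)]
    have : ((p + 1 : ℝ) - j) * (p - j) = 0 := by
      rcases (by omega : j = p + 1 ∨ j = p) with h | h
      · rw [h]
        push_cast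
        ring
      · rw [h]
        ring
    rw [show 2 * ((j : ℝ) + 1) * ej p j * ((p + 1 : ℝ) - j) * (p - j) * xm p m =
      2 * ((j : ℝ) + 1) * ej p j * (((p + 1 : ℝ) - j) * (p - j)) * xm p m by ring, this]
    ring
  · unfold ae AA ej xm
    rw [if_pos ⟨by omega, by omega⟩]
    obtain ⟨i, rfl⟩ : ∃ i, p = i + j + 1 := ⟨p - j - 1, by omega⟩
    have e2 : i + j + 1 + 1 - j = i + 1 + 1 := by omega
    have e2' : i + j + 1 - (j + 1) = i := by omega
    have e3 : i + j + 1 + (j + 1) = i + j + 1 + 1 + j := by ring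
    rw [e2, e2', e3, Nat.factorial_succ (i + 1), Nat.factorial_succ i]
    push_cast
    have f1 := NUM2_fac i
    have f2 := NUM2_fac (i + j + 1 + 1 + j)
    have f3 := NUM2_fac (m - (i + j + 1) - 1)
    have hmr : (j : ℝ) + 1 < m := by exact_mod_cast (by omega : j + 1 < m)
    have g1 : (m : ℝ) ^ 2 - ((j : ℝ) + 1) ^ 2 = (m - 1 - j) * (m + 1 + j) := by ring
    have g2 : (m : ℝ) - 1 - j ≠ 0 := by
      have : (0 : ℝ) < m - 1 - j := by linarith
      exact this.ne'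
    have g3 : (m : ℝ) + 1 + j ≠ 0 := by positivity
    have g4 : (i : ℝ) + 1 ≠ 0 := by positivity
    have g5 : (i : ℝ) + 1 + 1 ≠ 0 := by positivity
    rw [g1]
    field_simp
    ring

/-- `A(p+1,n,j)` in terms of `xm p m`: `n = m + 1`. -/
lemma NUM2_a1 (p m j : ℕ) (hjp : j ≤ p + 1) (hm : p < m) :
    AA (p + 1) (m + 1) j = 2 * j * ej p j * xm p m * ((m + p + 1) * (m + p + 2)) / (((m : ℝ) + 1 - j) * (m + 1 + j)) := by
  unfold AA ej xm
  have e1 : m + 1 - (p + 1) - 1 = m - p - 1 := by omega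
  have e2 : (m + 1 + (p + 1)).factorial = (m + p + 2) * ((m + p + 1) * (m + p).factorial) := by
    rw [show m + 1 + (p + 1) = (m + p) + 1 + 1 by ring, Nat.factorial_succ, Nat.factorial_succ]
  rw [e1, e2]
  push_cast
  have f1 := NUM2_fac (p + 1 - j)
  have f2 := NUM2_fac (p + 1 + j)
  have f3 := NUM2_fac (m - p - 1)
  have hmr : (j : ℝ) ≤ m := by exact_mod_cast (by omega : j ≤ m)
  have g1 : ((m : ℝ) + 1) ^ 2 - (j : ℝ) ^ 2 = (m + 1 - j) * (m + 1 + j) := by ring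
  have g2 : (m : ℝ) + 1 - j ≠ 0 := by
    have : (0 : ℝ) < m + 1 - j := by linarith
    exact this.ne'
  have g3 : (m : ℝ) + 1 + j ≠ 0 := by positivity
  rw [g1]
  field_simp

/-- `n = m`, `m ≥ p + 2`. -/
lemma NUM2_a2 (p m j : ℕ) (hjp : j ≤ p + 1) (hm : p + 1 < m) :
    AA (p + 1) m j = 2 * j * ej p j * xm p m * ((m : ℝ) ^ 2 - (p + 1) ^ 2) / (((m : ℝ) - j) * (m + j)) := by
  unfold AA ej xm
  obtain ⟨k, rfl⟩ : ∃ k, m = p + 2 + k := ⟨m - p - 2, by omega⟩
  have e1 : p + 2 + k - (p + 1) - 1 = k := by omega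
  have e1' : p + 2 + k - p - 1 = k + 1 := by omega
  have e2 : (p + 2 + k + (p + 1)).factorial = (p + 2 + k + p + 1) * (p + 2 + k + p).factorial := by
    rw [show p + 2 + k + (p + 1) = (p + 2 + k + p) + 1 by ring, Nat.factorial_succ]
  rw [e1, e1', e2, Nat.factorial_succ k]
  push_cast
  have f1 := NUM2_fac (p + 1 - j)
  have f2 := NUM2_fac (p + 1 + j)
  have f3 := NUM2_fac k
  have hmr : (j : ℝ) ≤ p + 1 := by exact_mod_cast hjp
  have hk : (0 : ℝ) ≤ k := Nat.cast_nonneg k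
  have g1 : ((p : ℝ) + 2 + k) ^ 2 - (j : ℝ) ^ 2 = (p + 2 + k - j) * (p + 2 + k + j) := by ring
  have g2 : (p : ℝ) + 2 + k - j ≠ 0 := by
    have : (0 : ℝ) < p + 2 + k - j := by linarith
    exact this.ne'
  have g3 : (p : ℝ) + 2 + k + j ≠ 0 := by positivity
  have g4 : (k : ℝ) + 1 ≠ 0 := by positivity
  rw [g1]
  field_simp
  ring

/-- `n = m - 1`, `m ≥ p + 3`. -/
lemma NUM2_a3 (p m j : ℕ) (hjp : j ≤ p + 1) (hm : p + 1 < m) :
    AA (p + 1) m j = 2 * j * ej p j * xm p (m + 1) * (((m : ℝ) - p) * (m - p - 1)) / (((m : ℝ) - j) * (m + j)) := by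
  unfold AA ej xm
  obtain ⟨k, rfl⟩ : ∃ k, m = p + 2 + k := ⟨m - p - 2, by omega⟩
  have e1 : p + 2 + k - (p + 1) - 1 = k := by omega
  have e1' : p + 2 + k + 1 - p - 1 = k + 1 + 1 := by omega
  have e2 : p + 2 + k + 1 + p = p + 2 + k + (p + 1) := by ring
  rw [e1, e1', e2, Nat.factorial_succ (k + 1), Nat.factorial_succ k]
  push_cast
  have f1 := NUM2_fac (p + 1 - j)
  have f2 := NUM2_fac (p + 1 + j)
  have f3 := NUM2_fac k
  have hmr : (j : ℝ) ≤ p + 1 := by exact_mod_cast hjp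
  have hk : (0 : ℝ) ≤ k := Nat.cast_nonneg k
  have g1 : ((p : ℝ) + 2 + k) ^ 2 - (j : ℝ) ^ 2 = (p + 2 + k - j) * (p + 2 + k + j) := by ring
  have g2 : (p : ℝ) + 2 + k - j ≠ 0 := by
    have : (0 : ℝ) < p + 2 + k - j := by linarith
    exact this.ne'
  have g3 : (p : ℝ) + 2 + k + j ≠ 0 := by positivity
  have g4 : (k : ℝ) + 1 ≠ 0 := by positivity
  have g5 : (k : ℝ) + 1 + 1 ≠ 0 := by positivity
  rw [g1]
  field_simp
  ring

/-- `c3` in closed form. -/
lemma NUM2_c3 (p m j : ℕ) (hj : 1 ≤ j) (hjp : j ≤ p + 1) (hm : p < m) :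
    c3 p m j = 2 * ej p j * xm p m * ((j - 1) * ((p + 1 : ℝ) + j) * (p + j) / (((m : ℝ) + 1 - j) * (m - 1 + j)) +
      2 * j * ((p + 1 : ℝ) ^ 2 - j ^ 2) / (((m : ℝ) - j) * (m + j)) +
      (j + 1) * ((p + 1 : ℝ) - j) * (p - j) / (((m : ℝ) - 1 - j) * (m + 1 + j))) := by
  unfold c3
  rw [NUM2_e1 p m j hj hjp hm, NUM2_e2 p m j hj hjp hm, NUM2_e3 p m j hj hjp hm]
  ring

/-- Second differences, `n ≥ p + 3`. -/
lemma NUM2_sd (p n j : ℕ) (hj : 1 ≤ j) (hjp : j ≤ p + 1) (hn : p + 1 < n) :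
    AA (p + 1) (n + 2) j - 2 * AA (p + 1) (n + 1) j + AA (p + 1) n j = c3 p (n + 1) j := by
  have hjr : (j : ℝ) ≤ p + 1 := by exact_mod_cast hjp
  have hnr : (p : ℝ) + 2 ≤ n := by exact_mod_cast hn
  have hj1 : (1 : ℝ) ≤ j := by exact_mod_cast hj
  rw [NUM2_a1 p (n + 1) j hjp (by omega), NUM2_a2 p (n + 1) j hjp (by omega), NUM2_a3 p n j hjp hn,
    NUM2_c3 p (n + 1) j hj hjp (by omega)]
  push_cast
  have h := NUM2_rat ((n : ℝ) + 1) (p + 1) j (by
    have : (0 : ℝ) < n + 1 + 1 - j := by linarith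
    exact this.ne') (by positivity) (by
    have : (0 : ℝ) < n + 1 - j := by linarith
    exact this.ne') (by positivity) (by
    have : (0 : ℝ) < (n : ℝ) + 1 - 1 - j := by linarith
    exact this.ne') (by
    have : (0 : ℝ) < (n : ℝ) + 1 - 1 + j := by linarith
    exact this.ne')
  have h' : 2 * ej p j * xm p (n + 1) * ((j : ℝ) * (((n : ℝ) + 1 + (p + 1)) * (n + 1 + (p + 1) + 1) / ((n + 1 + 1 - j) * (n + 1 + 1 + j)) -
      2 * (((n : ℝ) + 1) ^ 2 - (p + 1) ^ 2) / ((n + 1 - j) * (n + 1 + j)) +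
      ((n : ℝ) + 1 - (p + 1)) * (n + 1 - (p + 1) - 1) / ((n + 1 - 1 - j) * (n + 1 - 1 + j)))) = _ :=
    congrArg (fun t => 2 * ej p j * xm p (n + 1) * t) h
  have k1 : (n : ℝ) + 1 - 1 - j = n - j := by ring
  have k2 : (n : ℝ) + 1 - 1 + j = n + j := by ring
  rw [k1, k2] at h'
  rw [k1, k2]
  have k3 : (p : ℝ) + 1 + j - 1 = p + j := by ring
  have k4 : (p : ℝ) + 1 - j - 1 = p - j := by ring
  rw [k3, k4] at h'
  rw [← h']
  ring

/-- The low order terms. -/
noncomputable def eb (p n j : ℕ) : ℝ :=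
  (if j = p + 1 then (n : ℝ) - p else 0) + (if j = p then (n : ℝ) - p - 1 else 0)

lemma NUM2_fac0 (p : ℕ) : (p + 1 - p - 1).factorial = 1 := by
  rw [show p + 1 - p - 1 = 0 by omega, Nat.factorial_zero]

lemma NUM2_fac1 (p : ℕ) : (p + 2 - p - 1).factorial = 1 := by
  rw [show p + 2 - p - 1 = 1 by omega, Nat.factorial_one]

/-- First base case. -/
lemma NUM2_b1 (p j : ℕ) (hj : 1 ≤ j) (hjp : j ≤ p + 1) :
    c3 p (p + 1) j = AA (p + 1) (p + 2) j - eb p (p + 2) j := by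
  have hA := NUM2_a1 p (p + 1) j hjp (by omega)
  rw [show p + 1 + 1 = p + 2 by ring] at hA
  rw [hA, NUM2_c3 p (p + 1) j hj hjp (by omega)]
  rcases (by omega : j = p + 1 ∨ j = p ∨ j + 2 ≤ p + 1) with h | h | h
  · subst h
    unfold eb ej xm
    rw [if_pos rfl, if_neg (by omega), NUM2_fac0, show p + 1 - (p + 1) = 0 by omega,
      show p + 1 + (p + 1) = p + 1 + p + 1 by ring, Nat.factorial_succ, Nat.factorial_zero]
    push_cast
    have f1 := NUM2_fac (p + 1 + p)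
    have g1 : (p : ℝ) + 1 + p + 1 ≠ 0 := by positivity
    have g2 : (p : ℝ) + 1 - 1 + (p + 1) ≠ 0 := by
      have : (0 : ℝ) < p + 1 - 1 + (p + 1) := by
        have : (0 : ℝ) ≤ p := Nat.cast_nonneg p
        linarith
      exact this.ne'
    have g3 : (p : ℝ) + 1 + 1 + (p + 1) ≠ 0 := by positivity
    have k1 : (p : ℝ) + 1 - (p + 1) = 0 := by ring
    have k2 : ((p : ℝ) + 1) ^ 2 - (p + 1) ^ 2 = 0 := by ring
    have k3 : (p : ℝ) + 1 + 1 - (p + 1) = 1 := by ring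
    rw [k1, k2, k3]
    simp only [mul_zero, zero_mul, zero_div, add_zero, div_one, one_mul]
    field_simp
    ring
  · subst h
    unfold eb ej xm
    rw [if_neg (by omega), if_pos rfl, NUM2_fac0, show j + 1 - j = 1 by omega, Nat.factorial_one]
    push_cast
    have f1 := NUM2_fac (j + 1 + j)
    have hj0 : (0 : ℝ) < j := by exact_mod_cast hj
    have g1 : (j : ℝ) + 1 - 1 + j ≠ 0 := by
      have : (0 : ℝ) < j + 1 - 1 + j := by linarith
      exact this.ne'
    have g2 : (j : ℝ) + 1 + j ≠ 0 := by positivity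
    have g3 : (j : ℝ) + 1 + 1 + j ≠ 0 := by positivity
    have k1 : (j : ℝ) - j = 0 := by ring
    have k3 : (j : ℝ) + 1 + 1 - j = 2 := by ring
    have k4 : (j : ℝ) + 1 - j = 1 := by ring
    rw [k1, k3, k4]
    simp only [mul_zero, zero_div, add_zero, one_mul, zero_add]
    field_simp
    ring
  · have hjr : (j : ℝ) + 2 ≤ p + 1 := by exact_mod_cast h
    have hj1 : (1 : ℝ) ≤ j := by exact_mod_cast hj
    unfold eb
    rw [if_neg (by omega), if_neg (by omega)]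
    have h := NUM2_rat ((p : ℝ) + 1) (p + 1) j (by
      have : (0 : ℝ) < p + 1 + 1 - j := by linarith
      exact this.ne') (by positivity) (by
      have : (0 : ℝ) < p + 1 - j := by linarith
      exact this.ne') (by positivity) (by
      have : (0 : ℝ) < (p : ℝ) + 1 - 1 - j := by linarith
      exact this.ne') (by
      have : (0 : ℝ) < (p : ℝ) + 1 - 1 + j := by linarith
      exact this.ne')
    have k3 : (p : ℝ) + 1 + j - 1 = p + j := by ring
    have k4 : (p : ℝ) + 1 - j - 1 = p - j := by ring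
    rw [k3, k4] at h
    push_cast
    rw [← h]
    ring

/-- Second base case. -/
lemma NUM2_b2 (p j : ℕ) (hj : 1 ≤ j) (hjp : j ≤ p + 1) :
    c3 p (p + 2) j = AA (p + 1) (p + 3) j - 2 * AA (p + 1) (p + 2) j + (if j = p + 1 then 1 else 0) := by
  have hA := NUM2_a1 p (p + 2) j hjp (by omega)
  rw [show p + 2 + 1 = p + 3 by ring] at hA
  rw [hA, NUM2_c3 p (p + 2) j hj hjp (by omega)]
  rcases (by omega : j = p + 1 ∨ j + 1 ≤ p + 1) with h | h
  · subst h
    have hB := NUM2_a1 p (p + 1) (p + 1) le_rfl (by omega)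
    rw [show p + 1 + 1 = p + 2 by ring] at hB
    rw [hB, if_pos rfl]
    unfold ej xm
    rw [NUM2_fac0, NUM2_fac1, show p + 1 - (p + 1) = 0 by omega,
      show p + 2 + p = p + 1 + p + 1 by ring, show p + 1 + (p + 1) = p + 1 + p + 1 by ring,
      Nat.factorial_succ (p + 1 + p), Nat.factorial_zero]
    push_cast
    have f1 := NUM2_fac (p + 1 + p)
    have hp0 : (0 : ℝ) ≤ p := Nat.cast_nonneg p
    have g1 : (p : ℝ) + 1 + p + 1 ≠ 0 := by positivity
    have g2 : (p : ℝ) + 2 - 1 + (p + 1) ≠ 0 := by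
      have : (0 : ℝ) < p + 2 - 1 + (p + 1) := by linarith
      exact this.ne'
    have g3 : (p : ℝ) + 2 + 1 + (p + 1) ≠ 0 := by positivity
    have g4 : (p : ℝ) + 1 + 1 + (p + 1) ≠ 0 := by positivity
    have k1 : (p : ℝ) + 1 - (p + 1) = 0 := by ring
    have k2 : ((p : ℝ) + 1) ^ 2 - (p + 1) ^ 2 = 0 := by ring
    have k3 : (p : ℝ) + 2 + 1 - (p + 1) = 2 := by ring
    have k4 : (p : ℝ) + 1 + 1 - (p + 1) = 1 := by ring
    rw [k1, k2, k3, k4]
    simp only [mul_zero, zero_mul, zero_div, add_zero, div_one, one_mul]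
    field_simp
    ring
  · have hjr : (j : ℝ) + 1 ≤ p + 1 := by exact_mod_cast h
    have hj1 : (1 : ℝ) ≤ j := by exact_mod_cast hj
    rw [NUM2_a2 p (p + 2) j hjp (by omega), if_neg (by omega)]
    have h := NUM2_rat ((p : ℝ) + 2) (p + 1) j (by
      have : (0 : ℝ) < p + 2 + 1 - j := by linarith
      exact this.ne') (by positivity) (by
      have : (0 : ℝ) < p + 2 - j := by linarith
      exact this.ne') (by positivity) (by
      have : (0 : ℝ) < (p : ℝ) + 2 - 1 - j := by linarith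
      exact this.ne') (by
      have : (0 : ℝ) < (p : ℝ) + 2 - 1 + j := by linarith
      exact this.ne')
    have k3 : (p : ℝ) + 1 + j - 1 = p + j := by ring
    have k4 : (p : ℝ) + 1 - j - 1 = p - j := by ring
    have k5 : (p : ℝ) + 2 - (p + 1) - 1 = 0 := by ring
    rw [k3, k4, k5, mul_zero, zero_div, add_zero] at h
    push_cast
    rw [← h]
    ring

lemma NUM2_ioo (p n : ℕ) (hn : p < n) (f : ℕ → ℝ) :
    ∑ m ∈ Ioo p (n + 1), f m = ∑ m ∈ Ioo p n, f m + f n := by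
  have : Ioo p (n + 1) = insert n (Ioo p n) := by
    ext x
    simp only [mem_Ioo, mem_insert]
    omega
  rw [this, Finset.sum_insert (by simp), add_comm]

/-- The sums of `c3`. -/
lemma NUM2_r (p j : ℕ) (hj : 1 ≤ j) (hjp : j ≤ p + 1) (k : ℕ) :
    ∑ m ∈ Ioo p (p + 3 + k), c3 p m j =
      (AA (p + 1) (p + 3 + k) j - eb p (p + 3 + k) j) - (AA (p + 1) (p + 2 + k) j - eb p (p + 2 + k) j) := by
  induction k with
  | zero =>
    rw [add_zero, add_zero, show p + 3 = p + 2 + 1 by ring, NUM2_ioo p (p + 2) (by omega),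
      show Ioo p (p + 2) = {p + 1} by
        ext x
        simp only [mem_Ioo, mem_singleton]
        omega, Finset.sum_singleton, NUM2_b1 p j hj hjp, NUM2_b2 p j hj hjp, show p + 2 + 1 = p + 3 by ring]
    unfold eb
    push_cast
    split_ifs <;> ring
  | succ k ih =>
    rw [show p + 3 + (k + 1) = p + 3 + k + 1 by ring, NUM2_ioo p (p + 3 + k) (by omega), ih]
    have h := NUM2_sd p (p + 2 + k) j hj hjp (by omega)
    rw [show p + 2 + k + 2 = p + 3 + k + 1 by ring, show p + 2 + k + 1 = p + 3 + k by ring] at h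
    rw [← h, show p + 2 + (k + 1) = p + 3 + k by ring]
    unfold eb
    push_cast
    split_ifs <;> ring

/-- **The identity.** -/
theorem NUM2 (p j : ℕ) (hj : 1 ≤ j) (hjp : j ≤ p + 1) (n : ℕ) (hn : p + 1 < n) :
    eb p n j + ∑ m ∈ Ioo p n, ((n : ℝ) - m) * c3 p m j = AA (p + 1) n j := by
  obtain ⟨k, rfl⟩ : ∃ k, n = p + 2 + k := ⟨n - p - 2, by omega⟩
  clear hn
  induction k with
  | zero =>
    rw [add_zero, show Ioo p (p + 2) = {p + 1} by
      ext x
      simp only [mem_Ioo, mem_singleton]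
      omega, Finset.sum_singleton, NUM2_b1 p j hj hjp]
    push_cast
    ring
  | succ k ih =>
    have h1 := NUM2_r p j hj hjp k
    rw [show p + 3 + k = p + 2 + k + 1 by ring] at h1
    have h2 : ∑ m ∈ Ioo p (p + 2 + k + 1), (((p + 2 + k + 1 : ℕ) : ℝ) - m) * c3 p m j =
        ∑ m ∈ Ioo p (p + 2 + k), (((p + 2 + k : ℕ) : ℝ) - m) * c3 p m j + ∑ m ∈ Ioo p (p + 2 + k + 1), c3 p m j := by
      rw [NUM2_ioo p (p + 2 + k) (by omega), NUM2_ioo p (p + 2 + k) (by omega), ← add_assoc,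
        ← Finset.sum_add_distrib]
      push_cast
      congr 1
      · refine Finset.sum_congr rfl fun m _ => by ring
      · ring
    rw [show p + 2 + (k + 1) = p + 2 + k + 1 by ring, h2, h1]
    linarith

end Pool.Agent.GD
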