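import Pool.Agent.helper65.GD.Spec

set_option autoImplicit false

namespace Pool.Agent.GD

open Finset Metric Filter Topology

theorem BDY : BDY_stmt := by
  intro a ha ε hε
  rw [mem_ball_zero_iff] at ha
  set s := ‖a‖ with hs
  have hs0 : 0 ≤ s := norm_nonneg a
  have hs1 : 0 < 1 - s := by linarith
  refine ⟨max ((1 + s) / 2) (1 - ε * (1 - s) ^ 2 / 4), max_lt (by linarith) (by
    have : 0 < ε * (1 - s) ^ 2 / 4 := by positivity
    linarith), ?_⟩
  intro z hz1 hz2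
  obtain ⟨hr1, hr2⟩ := max_lt_iff.mp hz1
  set r := ‖z‖ with hr
  set A := (starRingEnd ℂ) a with hA
  have hAn : ‖A‖ = s := by rw [hA, Complex.norm_conj]
  have hr0 : 0 < r := by linarith
  have hz0 : z ≠ 0 := norm_pos_iff.mp hr0
  have hza : z - a ≠ 0 := by
    intro h
    rw [sub_eq_zero] at h
    rw [hr, h, ← hs] at hr1
    linarith
  have hzz : z * (starRingEnd ℂ) z = (r : ℂ) ^ 2 := by
    rw [Complex.mul_conj, Complex.normSq_eq_norm_sq]
    push_cast
    rfl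
  have hAz : ‖A * z‖ = s * r := by rw [norm_mul, hAn]
  have hd1 : r * (r - s) ≤ ‖(r : ℂ) ^ 2 - A * z‖ := by
    have h := norm_sub_norm_le ((r : ℂ) ^ 2) (A * z)
    rw [hAz, norm_pow, Complex.norm_real, Real.norm_eq_abs, abs_of_pos hr0] at h
    nlinarith
  have hd2 : 1 - s ≤ ‖1 - A * z‖ := by
    have h := norm_sub_norm_le (1 : ℂ) (A * z)
    rw [hAz, norm_one] at h
    nlinarith
  have hrs : (1 - s) / 2 < r - s := by linarith
  have hd1' : 0 < r * (r - s) := mul_pos hr0 (by linarith)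
  have hn1 : (r : ℂ) ^ 2 - A * z ≠ 0 := norm_pos_iff.mp (hd1'.trans_le hd1)
  have hn2 : 1 - A * z ≠ 0 := norm_pos_iff.mp (hs1.trans_le hd2)
  have e1 : z / (z - a) - A * z / (1 - A * z) = 1 + (a / (z - a) - A * z / (1 - A * z)) := by
    field_simp
    ring
  have e2 : (starRingEnd ℂ) (a / (z - a)) = A * z / ((r : ℂ) ^ 2 - A * z) := by
    rw [map_div₀, map_sub, ← hA]
    have h1 : (starRingEnd ℂ) z - A ≠ 0 := by
      rw [hA, ← map_sub]
      exact (map_ne_zero _).mpr hza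
    rw [div_eq_div_iff h1 hn1, ← hzz]
    ring
  have e3 : (a / (z - a) - A * z / (1 - A * z)).re =
      (A * z / ((r : ℂ) ^ 2 - A * z) - A * z / (1 - A * z)).re := by
    rw [Complex.sub_re, Complex.sub_re, ← e2, Complex.conj_re]
  have e4 : A * z / ((r : ℂ) ^ 2 - A * z) - A * z / (1 - A * z) =
      (A * z * ((1 - r ^ 2 : ℝ) : ℂ)) / (((r : ℂ) ^ 2 - A * z) * (1 - A * z)) := by
    push_cast
    field_simp
    ring
  rw [e1, Complex.add_re, Complex.one_re, e3, e4]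
  have e5 : ∀ t : ℝ, 1 + t - 1 = t := fun t => by ring
  rw [e5]
  refine (Complex.abs_re_le_norm _).trans_lt ?_
  have h1r : 0 ≤ 1 - r ^ 2 := by nlinarith
  rw [norm_div, norm_mul (A * z), hAz, norm_mul (_ - _), Complex.norm_real, Real.norm_eq_abs,
    abs_of_nonneg h1r, div_lt_iff₀ (mul_pos (hd1'.trans_le hd1) (hs1.trans_le hd2))]
  have f1 : (r * (r - s)) * (1 - s) ≤ ‖(r : ℂ) ^ 2 - A * z‖ * ‖1 - A * z‖ :=
    mul_le_mul hd1 hd2 hs1.le (norm_nonneg _)
  have f2 : s * r * (1 - r ^ 2) < ε * ((r * (r - s)) * (1 - s)) := by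
    have g1 : 1 - r ^ 2 ≤ 2 * (1 - r) := by nlinarith
    have g2 : 2 * (1 - r) < ε * (1 - s) ^ 2 / 2 := by linarith
    have g3 : s * (1 - r ^ 2) ≤ 1 - r ^ 2 := by nlinarith
    have g4 : ε * (1 - s) ^ 2 / 2 ≤ ε * ((r - s) * (1 - s)) := by
      have : (1 - s) ^ 2 / 2 ≤ (r - s) * (1 - s) := by nlinarith
      nlinarith
    have g5 : s * (1 - r ^ 2) < ε * ((r - s) * (1 - s)) := by linarith
    nlinarith
  exact f2.trans_le (mul_le_mul_of_nonneg_left f1 hε.le)

end Pool.Agent.GD
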