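import Pool.Agent.helper65.GD.SpecB

set_option autoImplicit false

namespace Pool.Agent.GD

open Metric Set

theorem CNT_aux (Θ : ℝ → ℝ) (φ : ℝ) (M : ℕ) (hc : Continuous Θ)
    (h2 : Θ (2 * Real.pi) = Θ 0 + 2 * Real.pi * M) (m : ℤ)
    (h3 : Θ 0 ≤ φ + Real.pi * m) (h4 : φ + Real.pi * m < Θ 0 + 2 * Real.pi * M) :
    ∃ θ : ℝ, 0 ≤ θ ∧ θ < 2 * Real.pi ∧ Θ θ = φ + Real.pi * m := by
  have h5 : φ + Real.pi * m ∈ Icc (Θ 0) (Θ (2 * Real.pi)) := ⟨h3, by rw [h2]; exact h4.le⟩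
  obtain ⟨θ, hθ, h6⟩ := intermediate_value_Icc (by positivity : (0 : ℝ) ≤ 2 * Real.pi) hc.continuousOn h5
  refine ⟨θ, hθ.1, lt_of_le_of_ne hθ.2 ?_, h6⟩
  rintro rfl
  rw [h2] at h6
  linarith

theorem CNT : CNT_stmt := by
  intro Θ φ M hc h2
  classical
  have hpi := Real.pi_pos
  obtain ⟨m₀, hm₀⟩ : ∃ m₀ : ℤ, m₀ = ⌈(Θ 0 - φ) / Real.pi⌉ := ⟨_, rfl⟩
  have h1 : ∀ t : Fin (2 * M), ∃ θ : ℝ, 0 ≤ θ ∧ θ < 2 * Real.pi ∧ Θ θ = φ + Real.pi * ((m₀ + (t : ℕ) : ℤ) : ℝ) := by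
    intro t
    apply CNT_aux Θ φ M hc h2
    · have h5 : (Θ 0 - φ) / Real.pi ≤ (m₀ : ℝ) := by rw [hm₀]; exact Int.le_ceil _
      rw [div_le_iff₀ hpi] at h5
      have h6 : (0 : ℝ) ≤ ((t : ℕ) : ℝ) := Nat.cast_nonneg _
      push_cast
      nlinarith
    · have h5 : (m₀ : ℝ) < (Θ 0 - φ) / Real.pi + 1 := by rw [hm₀]; exact Int.ceil_lt_add_one _
      have h6 : ((t : ℕ) : ℝ) + 1 ≤ 2 * M := by exact_mod_cast t.2
      have h7 : (m₀ : ℝ) * Real.pi < (Θ 0 - φ) + Real.pi := by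
        have := mul_lt_mul_of_pos_right h5 hpi
        rw [add_mul, div_mul_cancel₀ _ hpi.ne', one_mul] at this
        exact this
      push_cast
      nlinarith
  choose g hg using h1
  have hinj : Function.Injective g := by
    intro t t' h
    have h3 := (hg t).2.2
    have h4 := (hg t').2.2
    rw [h, h4] at h3
    have h5 : Real.pi * ((m₀ + (t' : ℕ) : ℤ) : ℝ) = Real.pi * ((m₀ + (t : ℕ) : ℤ) : ℝ) := by linarith
    have h6 := mul_left_cancel₀ hpi.ne' h5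
    have h7 : (m₀ + (t' : ℕ) : ℤ) = m₀ + (t : ℕ) := by exact_mod_cast h6
    apply Fin.ext
    omega
  refine ⟨Finset.univ.image g, ?_, ?_⟩
  · rw [Finset.card_image_of_injective _ hinj, Finset.card_univ, Fintype.card_fin]
  · intro θ hθ
    rw [Finset.mem_image] at hθ
    obtain ⟨t, -, rfl⟩ := hθ
    refine ⟨(hg t).1, (hg t).2.1, ?_⟩
    rw [(hg t).2.2, Real.sin_eq_zero_iff]
    exact ⟨m₀ + (t : ℕ), by push_cast; ring⟩

end Pool.Agent.GD
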