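import Pool.Agent.helper65.GD.SpecB

set_option autoImplicit false

namespace Pool.Agent.GD

open Metric Set Filter Topology

theorem PFA_nz (h : ℂ → ℂ) (hh : DifferentiableOn ℂ h (ball 0 1)) (w : ℂ) (hw : w ∈ ball (0 : ℂ) 1) (hw0 : h w ≠ 0)
    (u : ℂ) (hu : u ∈ ball (0 : ℂ) 1) : ¬ ∃ᶠ z in 𝓝[≠] u, h z = 0 := by
  intro h1
  have h2 := (hh.analyticOnNhd isOpen_ball).eqOn_zero_of_preconnected_of_frequently_eq_zero
    (convex_ball (0 : ℂ) 1).isPreconnected hu h1
  exact hw0 (h2 hw)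

theorem PFA_div (h : ℂ → ℂ) (hh : DifferentiableOn ℂ h (ball 0 1)) (w : ℂ) (hw : w ∈ ball (0 : ℂ) 1) (hw0 : h w ≠ 0)
    (u : ℂ) (hu : u ∈ ball (0 : ℂ) 1) : ∃ (m : ℕ) (g : ℂ → ℂ), DifferentiableOn ℂ g (ball 0 1) ∧ g u ≠ 0 ∧
      ∀ z ∈ ball (0 : ℂ) 1, h z = (z - u) ^ m * g z := by
  classical
  have h1 : AnalyticAt ℂ h u := hh.analyticAt (isOpen_ball.mem_nhds hu)
  have h2 : ¬ ∀ᶠ z in 𝓝 u, h z = 0 := by
    intro h3
    apply PFA_nz h hh w hw hw0 u hu
    have h4 : ∀ᶠ z in 𝓝[≠] u, h z = 0 := h3.filter_mono nhdsWithin_le_nhds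
    exact h4.frequently
  obtain ⟨m, g, hg, hg0, hg1⟩ := h1.exists_eventuallyEq_pow_smul_nonzero_iff.mpr h2
  obtain ⟨G, hG⟩ : ∃ G : ℂ → ℂ, G = fun z => if z = u then g u else h z / (z - u) ^ m := ⟨_, rfl⟩
  have hGu : G u = g u := by rw [hG]; simp only [if_pos]
  have hGz : ∀ z, z ≠ u → G z = h z / (z - u) ^ m := fun z hz => by rw [hG]; simp only [if_neg hz]
  refine ⟨m, G, ?_, by rw [hGu]; exact hg0, ?_⟩
  · intro z hz
    apply DifferentiableAt.differentiableWithinAt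
    by_cases h3 : z = u
    · subst h3
      have h4 : G =ᶠ[𝓝 z] g := by
        filter_upwards [hg1] with y hy
        by_cases h5 : y = z
        · rw [h5, hGu]
        · rw [hGz y h5, hy, smul_eq_mul, mul_div_cancel_left₀ _ (pow_ne_zero _ (sub_ne_zero.mpr h5))]
      exact hg.differentiableAt.congr_of_eventuallyEq h4
    · have h4 : G =ᶠ[𝓝 z] fun y => h y / (y - u) ^ m := by
        filter_upwards [isOpen_ne.mem_nhds h3] with y hy
        exact hGz y hy
      have h5 : DifferentiableAt ℂ h z := hh.differentiableAt (isOpen_ball.mem_nhds hz)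
      have h6 : DifferentiableAt ℂ (fun y : ℂ => (y - u) ^ m) z := by fun_prop
      exact (h5.div h6 (pow_ne_zero _ (sub_ne_zero.mpr h3))).congr_of_eventuallyEq h4
  · intro z hz
    by_cases h3 : z = u
    · subst h3
      rw [hGu]
      have h4 := hg1.self_of_nhds
      rwa [smul_eq_mul] at h4
    · rw [hGz z h3, mul_div_cancel₀ _ (pow_ne_zero _ (sub_ne_zero.mpr h3))]

theorem PFA_ind (r R : ℝ) (hR : R ≤ 1) (s : Finset ℂ) : ∀ h : ℂ → ℂ, DifferentiableOn ℂ h (ball 0 1) →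
    (∃ w ∈ ball (0 : ℂ) 1, h w ≠ 0) → (∀ z ∈ s, ‖z‖ < r ∧ ‖z‖ < 1) → (∀ z ∈ ball (0 : ℂ) R, h z = 0 → z ∈ s) →
    ∃ (M : ℕ) (a : Fin M → ℂ) (U : ℂ → ℂ), (∀ l, ‖a l‖ < r) ∧ DifferentiableOn ℂ U (ball 0 1) ∧
      (∀ z ∈ ball (0 : ℂ) R, U z ≠ 0) ∧ ∀ z ∈ ball (0 : ℂ) 1, h z = (∏ l, (z - a l)) * U z := by
  classical
  induction s using Finset.induction_on with
  | empty =>
    intro h hh _ _ h0
    refine ⟨0, fun l => l.elim0, h, fun l => l.elim0, hh, fun z hz h1 => ?_, fun z _ => ?_⟩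
    · exact absurd (h0 z hz h1) (Finset.notMem_empty z)
    · rw [Finset.univ_eq_empty, Finset.prod_empty, one_mul]
  | insert u s hus ih =>
    intro h hh hw hs h0
    obtain ⟨w, hw, hw0⟩ := hw
    have hu := hs u (Finset.mem_insert_self u s)
    obtain ⟨m, g, hg, hgu, hg1⟩ := PFA_div h hh w hw hw0 u (by simpa using hu.2)
    obtain ⟨M, a, U, ha, hU, hU0, hfac⟩ := ih g hg ⟨u, by simpa using hu.2, hgu⟩
      (fun z hz => hs z (Finset.mem_insert_of_mem hz)) (fun z hz hz0 => by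
        have h2 := h0 z hz (by rw [hg1 z (ball_subset_ball hR hz), hz0, mul_zero])
        rcases Finset.mem_insert.mp h2 with h3 | h3
        · rw [h3] at hz0
          exact absurd hz0 hgu
        · exact h3)
    refine ⟨m + M, Fin.append (fun _ => u) a, U, ?_, hU, hU0, ?_⟩
    · intro l
      refine Fin.addCases (fun l => ?_) (fun l => ?_) l
      · rw [Fin.append_left]; exact hu.1
      · rw [Fin.append_right]; exact ha l
    · intro z hz
      rw [Fin.prod_univ_add]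
      simp only [Fin.append_left, Fin.append_right, Finset.prod_const, Finset.card_univ, Fintype.card_fin]
      rw [hg1 z hz, hfac z hz, mul_assoc]

theorem PFA_rad (r r' : ℝ) (h : r < r') (s : Finset ℂ) :
    ∃ R : ℝ, r < R ∧ R ≤ r' ∧ ∀ z ∈ s, r < ‖z‖ → R ≤ ‖z‖ := by
  classical
  induction s using Finset.induction_on with
  | empty => exact ⟨r', h, le_rfl, fun z hz => absurd hz (Finset.notMem_empty z)⟩
  | insert u s _ ih =>
    obtain ⟨R, h1, h2, h3⟩ := ih
    by_cases hu : r < ‖u‖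
    · refine ⟨min R ‖u‖, lt_min h1 hu, (min_le_left _ _).trans h2, fun z hz hz1 => ?_⟩
      rcases Finset.mem_insert.mp hz with h4 | h4
      · rw [h4]; exact min_le_right _ _
      · exact (min_le_left _ _).trans (h3 z h4 hz1)
    · refine ⟨R, h1, h2, fun z hz hz1 => ?_⟩
      rcases Finset.mem_insert.mp hz with h4 | h4
      · rw [h4] at hz1; exact absurd hz1 hu
      · exact h3 z h4 hz1

theorem PFA : PFA_stmt := by
  intro h r hr0 hr1 hh hne
  classical
  obtain ⟨r', hr', hr'1⟩ := exists_between hr1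
  have hw : ((r : ℝ) : ℂ) ∈ ball (0 : ℂ) 1 := by
    rw [mem_ball_zero_iff, Complex.norm_real, Real.norm_eq_abs, abs_of_pos hr0]; exact hr1
  have hw0 : h (r : ℂ) ≠ 0 := hne _ (by rw [Complex.norm_real, Real.norm_eq_abs, abs_of_pos hr0])
  have hfin : {z : ℂ | z ∈ closedBall (0 : ℂ) r' ∧ h z = 0}.Finite := by
    by_contra hinf
    have hinf : {z : ℂ | z ∈ closedBall (0 : ℂ) r' ∧ h z = 0}.Infinite := hinf
    obtain ⟨u, hu, hacc⟩ := hinf.exists_accPt_of_subset_isCompact (isCompact_closedBall (0 : ℂ) r')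
      (fun z hz => hz.1)
    have hu1 : u ∈ ball (0 : ℂ) 1 := closedBall_subset_ball hr'1 hu
    apply PFA_nz h hh _ hw hw0 u hu1
    have h4 := accPt_iff_frequently_nhdsNE.mp hacc
    exact h4.mono fun z hz => hz.2
  obtain ⟨R, hR1, hR2, hR3⟩ := PFA_rad r r' hr' hfin.toFinset
  have hR4 : R ≤ 1 := hR2.trans hr'1.le
  obtain ⟨M, a, U, ha, hU, hU0, hfac⟩ := PFA_ind r R hR4 (hfin.toFinset.filter fun z => ‖z‖ < r) h hh
    ⟨_, hw, hw0⟩ (fun z hz => by
      have := (Finset.mem_filter.mp hz).2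
      exact ⟨this, this.trans hr1⟩) (fun z hz hz0 => by
      rw [mem_ball_zero_iff] at hz
      have h5 : z ∈ hfin.toFinset := by
        rw [Set.Finite.mem_toFinset]
        refine ⟨?_, hz0⟩
        rw [mem_closedBall_zero_iff]
        exact (hz.trans_le hR2).le
      rw [Finset.mem_filter]
      refine ⟨h5, ?_⟩
      rcases lt_trichotomy ‖z‖ r with h6 | h6 | h6
      · exact h6
      · exact absurd hz0 (hne z h6)
      · exact absurd (hR3 z h5 h6) (not_le.mpr hz))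
  exact ⟨R, M, a, U, hR4, hr0, hR1, ha, hU.mono (ball_subset_ball hR4), hU0,
    fun z hz => hfac z (ball_subset_ball hR4 hz)⟩

end Pool.Agent.GD
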