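import Pool.Agent.helper65.GD.SpecB

set_option autoImplicit false

namespace Pool.Agent.GD

open Metric

theorem PVS (hATM : ATM_stmt) (hEXA : EXA_stmt) : PVS_stmt := by
  intro f p h
  refine ⟨h.one_le, ?_, hATM f p h, hEXA f p h⟩
  exact (h.analytic.analyticOnNhd isOpen_ball).analyticOn

end Pool.Agent.GD
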