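import Pool.Agent.helper65.GD.SpecD

set_option autoImplicit false

namespace Pool.Agent.GD

open Finset Metric Filter Topology

theorem REQ_one_sub (a z : ℂ) (ha : a ∈ ball (0 : ℂ) 1) (hz : z ∈ ball (0 : ℂ) 1) :
    1 - (starRingEnd ℂ) a * z ≠ 0 := by
  intro h
  have h1 : (starRingEnd ℂ) a * z = 1 := (sub_eq_zero.1 h).symm
  have h2 := congrArg norm h1
  rw [norm_mul, Complex.norm_conj, norm_one] at h2
  rw [mem_ball_zero_iff] at ha hz
  nlinarith [norm_nonneg a, norm_nonneg z]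

theorem REQ_q (a z : ℂ) (h1 : z - a ≠ 0) (h2 : 1 - (starRingEnd ℂ) a * z ≠ 0) :
    logDeriv (fun z : ℂ => (z - a) * (1 - (starRingEnd ℂ) a * z)) z =
      1 / (z - a) - (starRingEnd ℂ) a / (1 - (starRingEnd ℂ) a * z) := by
  have d1 : HasDerivAt (fun z : ℂ => z - a) 1 z := (hasDerivAt_id z).sub_const a
  have d2 : HasDerivAt (fun z : ℂ => 1 - (starRingEnd ℂ) a * z) (-(starRingEnd ℂ) a) z := by
    simpa using ((hasDerivAt_id z).const_mul ((starRingEnd ℂ) a)).const_sub 1
  have d3 : deriv (fun z : ℂ => (z - a) * (1 - (starRingEnd ℂ) a * z)) z =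
      1 * (1 - (starRingEnd ℂ) a * z) + (z - a) * (-(starRingEnd ℂ) a) := (d1.mul d2).deriv
  rw [logDeriv_apply, d3]
  field_simp
  ring

theorem REQ_log (Q G : ℂ → ℂ) (c z : ℂ) (hc : c ≠ 0) (hz : z ≠ 0) (hQ : Q z ≠ 0) (hG : G z ≠ 0)
    (dQ : DifferentiableAt ℂ Q z) (dG : DifferentiableAt ℂ G z) :
    logDeriv (fun z => c * ((z * Q z) * G z)) z = 1 / z + logDeriv Q z + deriv G z / G z := by
  have d3 : deriv (fun z => c * ((z * Q z) * G z)) z =
      c * ((1 * Q z + z * deriv Q z) * G z + z * Q z * deriv G z) :=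
    ((((hasDerivAt_id z).mul dQ.hasDerivAt).mul dG.hasDerivAt).const_mul c).deriv
  rw [logDeriv_apply, logDeriv_apply, d3]
  field_simp

theorem REQ (hBDY : BDY_stmt) (hMIN : MIN_stmt) : REQ_stmt := by
  intro f p a g l₀ hf ha hg hg0 hfg hl₀ G hGG
  obtain ⟨ρ₀, hρ₀, hst⟩ := hf.starlike
  have hp : 1 ≤ p := hf.one_le
  have h0b : (0 : ℂ) ∈ ball (0 : ℂ) 1 := mem_ball_self one_pos
  set E : ℂ → ℂ := fun z => ∏ l ∈ univ.erase l₀, (1 - (starRingEnd ℂ) (a l) * z) with hE
  have hE0 : ∀ z ∈ ball (0 : ℂ) 1, E z ≠ 0 := by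
    intro z hz
    rw [hE]
    exact Finset.prod_ne_zero_iff.2 fun l _ => REQ_one_sub (a l) z (ha l) hz
  have hEd : Differentiable ℂ E := by
    rw [hE]
    apply Differentiable.fun_finsetProd
    intro l _
    fun_prop
  have hE1 : E 0 = 1 := by simp [hE]
  have hc : g 0 ≠ 0 := hg0 0 h0b
  have hG : G = fun z => g z / (g 0 * E z) := hGG
  have hGd : DifferentiableOn ℂ G (ball 0 1) := by
    rw [hG]
    exact hg.div (hEd.differentiableOn.const_mul (g 0)) fun z hz => mul_ne_zero hc (hE0 z hz)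
  have hGn : ∀ z ∈ ball (0 : ℂ) 1, G z ≠ 0 := fun z hz => by
    rw [hG]
    exact div_ne_zero (hg0 z hz) (mul_ne_zero hc (hE0 z hz))
  have hfG : ∀ z ∈ ball (0 : ℂ) 1,
      f z = g 0 * ((z * ∏ l ∈ univ.erase l₀, ((z - a l) * (1 - (starRingEnd ℂ) (a l) * z))) * G z) := by
    intro z hz
    have h1 : G z * (g 0 * E z) = g z := by
      rw [hG]
      exact div_mul_cancel₀ _ (mul_ne_zero hc (hE0 z hz))
    rw [hfg z hz, Finset.prod_mul_distrib, ← h1, ← Finset.mul_prod_erase univ _ (mem_univ l₀), hl₀, sub_zero]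
    ring
  apply hMIN (fun z => 1 + z * deriv G z / (p * G z))
  · have hp0 : (p : ℂ) ≠ 0 := Nat.cast_ne_zero.2 (by omega)
    have h1 : DifferentiableOn ℂ (deriv G) (ball 0 1) := hGd.deriv isOpen_ball
    exact ((differentiableOn_id.mul h1).div (hGd.const_mul _) fun z hz => mul_ne_zero hp0 (hGn z hz)).const_add 1
  · intro ε hε
    have hb : ∀ l : Fin p, ∃ ρ : ℝ, ρ < 1 ∧ ∀ z : ℂ, ρ < ‖z‖ → ‖z‖ < 1 → z - a l ≠ 0 ∧
        |(z / (z - a l) - (starRingEnd ℂ) (a l) * z / (1 - (starRingEnd ℂ) (a l) * z)).re - 1| < ε := by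
      intro l
      obtain ⟨ρ, hρ, h⟩ := hBDY (a l) (ha l) ε hε
      have hal : ‖a l‖ < 1 := by simpa using ha l
      refine ⟨max ρ ‖a l‖, max_lt hρ hal, fun z h1 h2 => ⟨?_, h z ((le_max_left _ _).trans_lt h1) h2⟩⟩
      intro h3
      rw [sub_eq_zero.1 h3] at h1
      exact absurd h1 (not_lt.2 (le_max_right _ _))
    choose ρ hρ hρz using hb
    have hne : (univ : Finset (Fin p)).Nonempty := ⟨l₀, mem_univ _⟩
    refine ⟨max (max ρ₀ 0) (univ.sup' hne ρ), max_lt (max_lt hρ₀ one_pos)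
      ((Finset.sup'_lt_iff hne).2 fun l _ => hρ l), ?_⟩
    intro z hz1 hz2
    have hzb : z ∈ ball (0 : ℂ) 1 := by simpa using hz2
    have hzρ₀ : ρ₀ < ‖z‖ := (le_max_left _ _).trans_lt ((le_max_left _ _).trans_lt hz1)
    have hz00 : 0 < ‖z‖ := (le_max_right _ _).trans_lt ((le_max_left _ _).trans_lt hz1)
    have hz0 : z ≠ 0 := norm_pos_iff.1 hz00
    have hzl : ∀ l, ρ l < ‖z‖ := fun l =>
      (Finset.le_sup' ρ (mem_univ l)).trans_lt ((le_max_right _ _).trans_lt hz1)
    have hst' := hst z hzρ₀ hz2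
    have hGz := hGn z hzb
    -- the logarithmic derivative
    have hFd : deriv f z = deriv (fun z => g 0 *
        ((z * ∏ l ∈ univ.erase l₀, ((z - a l) * (1 - (starRingEnd ℂ) (a l) * z))) * G z)) z := by
      apply Filter.EventuallyEq.deriv_eq
      filter_upwards [isOpen_ball.mem_nhds hzb] with w hw
      exact hfG w hw
    have hlog : deriv f z / f z = 1 / z + ∑ l ∈ univ.erase l₀,
        (1 / (z - a l) - (starRingEnd ℂ) (a l) / (1 - (starRingEnd ℂ) (a l) * z)) + deriv G z / G z := by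
      have hq : ∀ l, (z - a l) * (1 - (starRingEnd ℂ) (a l) * z) ≠ 0 := fun l =>
        mul_ne_zero (hρz l z (hzl l) hz2).1 (REQ_one_sub (a l) z (ha l) hzb)
      have hqd : ∀ l ∈ univ.erase l₀, DifferentiableAt ℂ
          (fun z : ℂ => (z - a l) * (1 - (starRingEnd ℂ) (a l) * z)) z := fun l _ => by fun_prop
      have hpn : ∏ l ∈ univ.erase l₀, ((z - a l) * (1 - (starRingEnd ℂ) (a l) * z)) ≠ 0 :=
        Finset.prod_ne_zero_iff.2 fun l _ => hq l
      have hpd : DifferentiableAt ℂ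
          (fun z => ∏ l ∈ univ.erase l₀, ((z - a l) * (1 - (starRingEnd ℂ) (a l) * z))) z := by
        apply DifferentiableAt.fun_finsetProd
        exact hqd
      have hGdz : DifferentiableAt ℂ G z := hGd.differentiableAt (isOpen_ball.mem_nhds hzb)
      have e1 : deriv f z / f z = logDeriv (fun z => g 0 *
        ((z * ∏ l ∈ univ.erase l₀, ((z - a l) * (1 - (starRingEnd ℂ) (a l) * z))) * G z)) z := by
        rw [logDeriv_apply, hFd, hfG z hzb]
      have e3 : logDeriv (fun z => ∏ l ∈ univ.erase l₀, ((z - a l) * (1 - (starRingEnd ℂ) (a l) * z))) z =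
          ∑ l ∈ univ.erase l₀, (1 / (z - a l) - (starRingEnd ℂ) (a l) / (1 - (starRingEnd ℂ) (a l) * z)) := by
        rw [logDeriv_prod (f := fun (l : Fin p) (z : ℂ) => (z - a l) * (1 - (starRingEnd ℂ) (a l) * z))
          (fun l _ => hq l) hqd]
        apply Finset.sum_congr rfl
        intro l _
        exact REQ_q (a l) z (hρz l z (hzl l) hz2).1 (REQ_one_sub (a l) z (ha l) hzb)
      rw [e1, REQ_log (fun z => ∏ l ∈ univ.erase l₀, ((z - a l) * (1 - (starRingEnd ℂ) (a l) * z))) G (g 0) z hc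
        hz0 hpn hGz hpd hGdz, e3]
    have hre : (z * deriv f z / f z).re = 1 + ∑ l ∈ univ.erase l₀,
        (z / (z - a l) - (starRingEnd ℂ) (a l) * z / (1 - (starRingEnd ℂ) (a l) * z)).re +
          (z * deriv G z / G z).re := by
      have h1 : z * deriv f z / f z = 1 + ∑ l ∈ univ.erase l₀,
        (z / (z - a l) - (starRingEnd ℂ) (a l) * z / (1 - (starRingEnd ℂ) (a l) * z)) + z * deriv G z / G z := by
        rw [mul_div_assoc, hlog, mul_add, mul_add, Finset.mul_sum, mul_div_assoc z (deriv G z),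
          mul_one_div_cancel hz0]
        congr 2
        apply Finset.sum_congr rfl
        intro l _
        ring
      rw [h1]
      simp only [Complex.add_re, Complex.one_re, Complex.re_sum]
    have hsum : ∑ l ∈ univ.erase l₀,
        (z / (z - a l) - (starRingEnd ℂ) (a l) * z / (1 - (starRingEnd ℂ) (a l) * z)).re ≤
        ((p : ℝ) - 1) * (1 + ε) := by
      have h1 : ((univ.erase l₀ : Finset (Fin p)).card : ℝ) = (p : ℝ) - 1 := by
        rw [Finset.card_erase_of_mem (mem_univ _), Finset.card_univ, Fintype.card_fin, Nat.cast_sub hp]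
        simp
      rw [← h1, ← nsmul_eq_mul]
      apply Finset.sum_le_card_nsmul
      intro l _
      have := (abs_lt.1 (hρz l z (hzl l) hz2).2).2
      linarith
    have hp0 : (0 : ℝ) < p := by exact_mod_cast hp
    have hP : (1 + z * deriv G z / (p * G z)).re = 1 + (z * deriv G z / G z).re / p := by
      have h1 : z * deriv G z / (p * G z) = ((p : ℝ)⁻¹ : ℝ) * (z * deriv G z / G z) := by
        have hpc : (p : ℂ) ≠ 0 := Nat.cast_ne_zero.2 (by omega)
        push_cast
        field_simp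
      rw [h1, Complex.add_re, Complex.one_re, Complex.re_ofReal_mul]
      ring
    rw [hP]
    have h2 : -(p : ℝ) * (1 + ε) ≤ (z * deriv G z / G z).re := by
      rw [hre] at hst'
      nlinarith
    have h3 : -(1 + ε) ≤ (z * deriv G z / G z).re / p := by
      rw [le_div_iff₀ hp0]
      linarith
    linarith

end Pool.Agent.GD
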