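import Pool.Agent.helper65.GD.SpecC

set_option autoImplicit false

namespace Pool.Agent.GD

open Finset Metric Filter Topology

theorem SCA_core (X Y Q A B c C : ℝ) (hX : 0 < X) (hY : 0 ≤ Y) (hQ : 0 ≤ Q) (h : Q * (X + Y) ≤ X ^ 2 * Y)
    (hA : 0 ≤ A) (hAc : A ≤ c) (hB : 0 ≤ B) (hBC : B ≤ C) :
    Q * (c ^ 2 - A ^ 2) * (C ^ 2 - B ^ 2) ≤ (X * (c * (C - B)) + Y * (B * (c - A))) ^ 2 := by
  have hc : 0 ≤ c := hA.trans hAc
  have hC : 0 ≤ C := hB.trans hBC
  have hcA : 0 ≤ c - A := by linarith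
  have hCB : 0 ≤ C - B := by linarith
  rcases le_or_gt (Q * (C + B)) (2 * X * Y * B) with h1 | h1
  · have h2 : Q * (c ^ 2 - A ^ 2) * (C ^ 2 - B ^ 2) = ((c - A) * (C - B)) * ((c + A) * (Q * (C + B))) := by ring
    have h3 : (c + A) * (Q * (C + B)) ≤ (2 * c) * (2 * X * Y * B) := by
      apply mul_le_mul (by linarith) h1 (by positivity) (by positivity)
    have h4 : ((c - A) * (C - B)) * ((c + A) * (Q * (C + B))) ≤
        ((c - A) * (C - B)) * ((2 * c) * (2 * X * Y * B)) :=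
      mul_le_mul_of_nonneg_left h3 (mul_nonneg hcA hCB)
    rw [h2]
    refine h4.trans ?_
    nlinarith [sq_nonneg (X * (c * (C - B)) - Y * (B * (c - A)))]
  · have hQXY : Q ≤ X * Y := by
      have h5 : Q * X ≤ X * Y * X := by nlinarith [mul_nonneg hQ hY]
      exact le_of_mul_le_mul_right h5 hX
    have h6 : Q * (C + B) ≤ X ^ 2 * (C - B) := by
      rcases eq_or_lt_of_le hQ with h7 | h7
      · rw [← h7, zero_mul]
        positivity
      · have hD : 0 < 2 * X * Y - Q := by linarith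
        have h8 : B * (2 * X * Y - Q) ≤ Q * C := by nlinarith
        have h9 : Q * (X ^ 2 + Q) ≤ (2 * X * Y - Q) * (X ^ 2 - Q) := by
          nlinarith [mul_le_mul_of_nonneg_left h hX.le]
        have h10 : (B * (X ^ 2 + Q)) * (2 * X * Y - Q) ≤ (C * (X ^ 2 - Q)) * (2 * X * Y - Q) := by
          have h11 : (B * (2 * X * Y - Q)) * (X ^ 2 + Q) ≤ (Q * C) * (X ^ 2 + Q) :=
            mul_le_mul_of_nonneg_right h8 (by positivity)
          have h12 : C * (Q * (X ^ 2 + Q)) ≤ C * ((2 * X * Y - Q) * (X ^ 2 - Q)) :=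
            mul_le_mul_of_nonneg_left h9 hC
          nlinarith
        have h13 := le_of_mul_le_mul_right h10 hD
        nlinarith
    have h14 : Q * (c ^ 2 - A ^ 2) * (C ^ 2 - B ^ 2) ≤ (X * (c * (C - B))) ^ 2 := by
      have h15 : Q * (c ^ 2 - A ^ 2) * (C ^ 2 - B ^ 2) = ((c ^ 2 - A ^ 2) * (C - B)) * (Q * (C + B)) := by ring
      have h16 : 0 ≤ c ^ 2 - A ^ 2 := by nlinarith
      have h17 : ((c ^ 2 - A ^ 2) * (C - B)) * (Q * (C + B)) ≤ (c ^ 2 * (C - B)) * (X ^ 2 * (C - B)) := by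
        apply mul_le_mul _ h6 (by positivity) (by positivity)
        exact mul_le_mul_of_nonneg_right (by nlinarith [sq_nonneg A]) hCB
      rw [h15]
      refine h17.trans (le_of_eq (by ring))
    have h18 : (X * (c * (C - B))) ^ 2 ≤ (X * (c * (C - B)) + Y * (B * (c - A))) ^ 2 := by
      have : 0 ≤ Y * (B * (c - A)) := by positivity
      have h19 : 0 ≤ X * (c * (C - B)) := by positivity
      exact pow_le_pow_left₀ h19 (by linarith) 2
    exact h14.trans h18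

theorem SCA_gen (p i : ℕ) (X Y A B c C S R : ℝ) (hp : 1 ≤ p) (hX : 0 < X) (hY : 0 ≤ Y) 
    (h : (i : ℝ) ^ 2 * (X + Y) ≤ (2 * p + 1) * X * Y)
    (hA : 0 ≤ A) (hAc : A ≤ c) (hB : 0 ≤ B) (hBC : B ≤ C) (hS : 0 ≤ S) (hR : 0 ≤ R)
    (hS2 : S ^ 2 ≤ X / (p ^ 2 * (2 * p + 1)) * (c ^ 2 - A ^ 2))
    (hR2 : R ^ 2 ≤ ((i : ℝ) / p) ^ 2 * (C ^ 2 - B ^ 2)) :
    (p : ℝ) ^ 2 * (S * R) ≤ X * (c * (C - B)) + Y * (B * (c - A)) := by
  have hp0 : (0 : ℝ) < p := by exact_mod_cast hp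
  have hc : 0 ≤ c := hA.trans hAc
  have hC : 0 ≤ C := hB.trans hBC
  have hcA : 0 ≤ c - A := by linarith
  have hCB : 0 ≤ C - B := by linarith
  have hQ : ((i : ℝ) ^ 2 * X / (2 * p + 1)) * (X + Y) ≤ X ^ 2 * Y := by
    rw [div_mul_eq_mul_div, div_le_iff₀ (by positivity)]
    nlinarith [mul_le_mul_of_nonneg_left h hX.le]
  have h1 := SCA_core X Y ((i : ℝ) ^ 2 * X / (2 * p + 1)) A B c C hX hY (by positivity) hQ hA hAc hB hBC
  have h2 : ((p : ℝ) ^ 2 * (S * R)) ^ 2 ≤ (X * (c * (C - B)) + Y * (B * (c - A))) ^ 2 := by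
    refine le_trans ?_ h1
    have h3 : ((p : ℝ) ^ 2 * (S * R)) ^ 2 = (p : ℝ) ^ 4 * (S ^ 2 * R ^ 2) := by ring
    have h4 : S ^ 2 * R ^ 2 ≤ (X / (p ^ 2 * (2 * p + 1)) * (c ^ 2 - A ^ 2)) *
        (((i : ℝ) / p) ^ 2 * (C ^ 2 - B ^ 2)) :=
      mul_le_mul hS2 hR2 (by positivity) ((sq_nonneg S).trans hS2)
    rw [h3]
    refine (mul_le_mul_of_nonneg_left h4 (by positivity)).trans (le_of_eq ?_)
    field_simp
  have h5 : 0 ≤ X * (c * (C - B)) + Y * (B * (c - A)) := by positivity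
  exact (pow_le_pow_iff_left₀ (by positivity) h5 (by norm_num)).mp h2

theorem SCA : SCA_stmt := by
  intro p k i A B c C S R hp hk hi hA hAc hB hBC hS hR hS2 hR2
  have hp0 : (0 : ℝ) < p := by exact_mod_cast hp
  have hp1 : (1 : ℝ) ≤ p := by exact_mod_cast hp
  have hk1 : (1 : ℝ) ≤ k := by exact_mod_cast hk
  have hi1 : (i : ℝ) + 1 ≤ p := by exact_mod_cast hi
  have hi0 : (0 : ℝ) ≤ i := Nat.cast_nonneg i
  have hX : (0 : ℝ) < k * (2 * p + k) := by positivity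
  have hY1 : (0 : ℝ) ≤ k * (2 * p - i) := mul_nonneg (by linarith) (by linarith)
  have hY2 : (0 : ℝ) ≤ k * i := by positivity
  have e1 : (i : ℝ) ^ 2 * (k * (2 * p + k) + k * (2 * p - i)) ≤
      (2 * p + 1) * (k * (2 * p + k)) * (k * (2 * p - i)) := by
    have a1 : (i : ℝ) ^ 2 * 2 ≤ (2 * p + 1) * (2 * p - i) := by nlinarith
    have a2 : (i : ℝ) ^ 2 * (4 * p + k - i) ≤ (i : ℝ) ^ 2 * (2 * (2 * p + k)) := by
      apply mul_le_mul_of_nonneg_left _ (sq_nonneg _)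
      linarith
    have a3 : ((i : ℝ) ^ 2 * 2) * (2 * p + k) ≤ ((2 * p + 1) * (2 * p - i)) * (2 * p + k) :=
      mul_le_mul_of_nonneg_right a1 (by positivity)
    have a4 : (0 : ℝ) ≤ (2 * p + 1) * (2 * p - i) * (2 * p + k) := by
      have : (0 : ℝ) ≤ 2 * p - i := by linarith
      positivity
    have a5 : (2 * p + 1) * (2 * p - i) * (2 * p + k) ≤ (k : ℝ) * ((2 * p + 1) * (2 * p - i) * (2 * p + k)) := by
      nlinarith
    have a6 : (i : ℝ) ^ 2 * (4 * p + k - i) ≤ (k : ℝ) * ((2 * p + 1) * (2 * p - i) * (2 * p + k)) := by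
      nlinarith
    have a7 := mul_le_mul_of_nonneg_left a6 (by linarith : (0 : ℝ) ≤ k)
    nlinarith
  have e2 : (i : ℝ) ^ 2 * (k * (2 * p + k) + k * i) ≤ (2 * p + 1) * (k * (2 * p + k)) * (k * i) := by
    have b1 : (i : ℝ) ^ 2 * (2 * p + k + i) ≤ (i : ℝ) ^ 2 * (2 * (2 * p + k)) := by
      apply mul_le_mul_of_nonneg_left _ (sq_nonneg _)
      linarith
    have b2 : (i : ℝ) * (2 * i) ≤ i * (2 * p + 1) := mul_le_mul_of_nonneg_left (by linarith) hi0
    have b3 : ((i : ℝ) * (2 * i)) * (2 * p + k) ≤ (i * (2 * p + 1)) * (2 * p + k) :=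
      mul_le_mul_of_nonneg_right b2 (by positivity)
    have b4 : (0 : ℝ) ≤ (i * (2 * p + 1)) * (2 * p + k) := by positivity
    have b5 : (i * (2 * p + 1)) * (2 * p + k) ≤ (k : ℝ) * ((i * (2 * p + 1)) * (2 * p + k)) := by nlinarith
    have b6 : (i : ℝ) ^ 2 * (2 * p + k + i) ≤ (k : ℝ) * ((i * (2 * p + 1)) * (2 * p + k)) := by nlinarith
    have b7 := mul_le_mul_of_nonneg_left b6 (by linarith : (0 : ℝ) ≤ k)
    nlinarith
  have m1 := SCA_gen p i (k * (2 * p + k)) (k * (2 * p - i)) A B c C S R hp hX hY1 e1 hA hAc hB hBC hS hR hS2 hR2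
  have m2 := SCA_gen p i (k * (2 * p + k)) (k * i) A B c C S R hp hX hY2 e2 hA hAc hB hBC hS hR hS2 hR2
  constructor
  · have : B * ((k : ℝ) * (2 * p - i) / p * A + (k + i) * k / p * c) + p * (S * R) =
        (B * ((k : ℝ) * (2 * p - i) * A + (k + i) * k * c) + p ^ 2 * (S * R)) / p := by
      field_simp
    rw [this, div_mul_eq_mul_div]
    apply div_le_div_of_nonneg_right _ hp0.le
    nlinarith
  · have : B * ((k : ℝ) * i / p * A + (2 * p + k - i) * k / p * c) + p * (S * R) =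
        (B * ((k : ℝ) * i * A + (2 * p + k - i) * k * c) + p ^ 2 * (S * R)) / p := by
      field_simp
    rw [this, div_mul_eq_mul_div]
    apply div_le_div_of_nonneg_right _ hp0.le
    nlinarith

end Pool.Agent.GD
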