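import Pool.Agent.helper65.GD.SpecD

set_option autoImplicit false

namespace Pool.Agent.GD

open Finset Metric Filter Topology

theorem STK_pol (G : ℕ → ℂ) (k : ℕ) (y : ℂ) :
    2 * ∑ t ∈ Icc 1 k, y ^ t * G (k - t) = pol G k y - G k := by
  have h : ∑ t ∈ Icc 1 k, y ^ t * G (k - t) = ∑ m ∈ range k, y ^ (k - m) * G m := by
    refine Finset.sum_nbij' (fun t => k - t) (fun m => k - m) ?_ ?_ ?_ ?_ ?_
    · intro t ht
      rw [mem_Icc] at ht
      rw [mem_range]
      omega
    · intro m hm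
      rw [mem_range] at hm
      rw [mem_Icc]
      omega
    · intro t ht
      rw [mem_Icc] at ht
      show k - (k - t) = t
      omega
    · intro m hm
      rw [mem_range] at hm
      show k - (k - m) = m
      omega
    · intro t ht
      rw [mem_Icc] at ht
      show y ^ t * G (k - t) = y ^ (k - (k - t)) * G (k - t)
      rw [show k - (k - t) = t by omega]
  rw [h]
  unfold pol
  ring

theorem STK_split (p k : ℕ) (F : ℕ → ℂ) :
    ∑ q ∈ range (p + k + 1), F q = ∑ q ∈ range (p + 1), F q + ∑ t ∈ Icc 1 k, F (p + t) := by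
  have h1 : ∑ q ∈ Ico (p + 1) (p + k + 1), F q = ∑ t ∈ Icc 1 k, F (p + t) := by
    refine Finset.sum_nbij' (fun q => q - p) (fun t => p + t) ?_ ?_ ?_ ?_ ?_
    · intro q hq
      rw [mem_Ico] at hq
      rw [mem_Icc]
      omega
    · intro t ht
      rw [mem_Icc] at ht
      rw [mem_Ico]
      omega
    · intro q hq
      rw [mem_Ico] at hq
      show p + (q - p) = q
      omega
    · intro t ht
      show p + t - p = t
      omega
    · intro q hq
      rw [mem_Ico] at hq
      show F q = F (p + (q - p))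
      rw [show p + (q - p) = q by omega]
  rw [← h1, range_eq_Ico, range_eq_Ico, Finset.sum_Ico_consecutive _ (by omega) (by omega)]

/-- exchange for the first double sum -/
theorem STK_ex1 (p k : ℕ) (a G H : ℕ → ℂ) (D : ℕ → ℂ)
    (hD : ∀ q, D q = ∑ j ∈ range (q + 1), H (q - j) * a j) (ha : a 0 = 0) :
    ∑ q ∈ range (p + 1), D q * G (p + k - q) =
      ∑ j ∈ Icc 1 p, a j * ∑ m ∈ range (p - j + 1), G (k + m) * H (p - j - m) := by
  have h1 : ∑ q ∈ range (p + 1), D q * G (p + k - q) =
      ∑ q ∈ range (p + 1), ∑ j ∈ range (q + 1), a j * (G (p + k - q) * H (q - j)) := by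
    refine sum_congr rfl fun q _ => ?_
    rw [hD q, sum_mul]
    exact sum_congr rfl fun j _ => by ring
  have h2 : ∑ q ∈ range (p + 1), ∑ j ∈ range (q + 1), a j * (G (p + k - q) * H (q - j)) =
      ∑ j ∈ range (p + 1), ∑ q ∈ Icc j p, a j * (G (p + k - q) * H (q - j)) := by
    refine Finset.sum_comm' ?_
    intro q j
    simp only [mem_range, mem_Icc]
    omega
  have h3 : ∀ j ∈ range (p + 1), ∑ q ∈ Icc j p, a j * (G (p + k - q) * H (q - j)) =
      a j * ∑ m ∈ range (p - j + 1), G (k + m) * H (p - j - m) := by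
    intro j hj
    rw [mem_range] at hj
    rw [← mul_sum]
    congr 1
    refine Finset.sum_nbij' (fun q => p - q) (fun m => p - m) ?_ ?_ ?_ ?_ ?_
    · intro q hq
      rw [mem_Icc] at hq
      rw [mem_range]
      omega
    · intro m hm
      rw [mem_range] at hm
      rw [mem_Icc]
      omega
    · intro q hq
      rw [mem_Icc] at hq
      show p - (p - q) = q
      omega
    · intro m hm
      rw [mem_range] at hm
      show p - (p - m) = m
      omega
    · intro q hq
      rw [mem_Icc] at hq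
      show G (p + k - q) * H (q - j) = G (k + (p - q)) * H (p - j - (p - q))
      rw [show k + (p - q) = p + k - q by omega, show p - j - (p - q) = q - j by omega]
  rw [h1, h2, sum_congr rfl h3]
  have h4 : range (p + 1) = insert 0 (Icc 1 p) := by
    ext j
    simp only [mem_range, mem_insert, mem_Icc]
    omega
  rw [h4, sum_insert (by simp), ha, zero_mul, zero_add]

/-- exchange for the second double sum -/
theorem STK_ex2 (p k : ℕ) (a G H : ℕ → ℂ) (D : ℕ → ℂ)
    (hD : ∀ q, D q = ∑ j ∈ range (q + 1), H (q - j) * a j) (ha : a 0 = 0) :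
    ∑ t ∈ Icc 1 k, (if t ≤ p then D (p - t) else 0) * G (k - t) =
      ∑ j ∈ Icc 1 p, a j * ∑ t ∈ Icc 1 (min (p - j) k), G (k - t) * H (p - j - t) := by
  have h0 : ∑ t ∈ Icc 1 k, (if t ≤ p then D (p - t) else 0) * G (k - t) =
      ∑ t ∈ Icc 1 (min p k), D (p - t) * G (k - t) := by
    symm
    have h01 : ∑ t ∈ Icc 1 (min p k), D (p - t) * G (k - t) =
        ∑ t ∈ Icc 1 (min p k), (if t ≤ p then D (p - t) else 0) * G (k - t) := by
      refine sum_congr rfl fun t ht => ?_
      rw [mem_Icc] at ht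
      rw [if_pos (by omega)]
    rw [h01]
    refine Finset.sum_subset (Icc_subset_Icc le_rfl (min_le_right _ _)) ?_
    intro t ht ht'
    rw [mem_Icc] at ht ht'
    rw [if_neg (by omega), zero_mul]
  have h1 : ∑ t ∈ Icc 1 (min p k), D (p - t) * G (k - t) =
      ∑ t ∈ Icc 1 (min p k), ∑ j ∈ range (p - t + 1), a j * (G (k - t) * H (p - j - t)) := by
    refine sum_congr rfl fun t ht => ?_
    rw [hD (p - t), sum_mul]
    refine sum_congr rfl fun j _ => ?_
    rw [show p - j - t = p - t - j by omega]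
    ring
  have h2 : ∑ t ∈ Icc 1 (min p k), ∑ j ∈ range (p - t + 1), a j * (G (k - t) * H (p - j - t)) =
      ∑ j ∈ range (p + 1), ∑ t ∈ Icc 1 (min (p - j) k), a j * (G (k - t) * H (p - j - t)) := by
    refine Finset.sum_comm' ?_
    intro t j
    simp only [mem_range, mem_Icc]
    omega
  rw [h0, h1, h2]
  have h4 : range (p + 1) = insert 0 (Icc 1 p) := by
    ext j
    simp only [mem_range, mem_insert, mem_Icc]
    omega
  rw [h4, sum_insert (by simp)]
  have h5 : ∑ t ∈ Icc 1 (min (p - 0) k), a 0 * (G (k - t) * H (p - 0 - t)) = 0 := by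
    refine sum_eq_zero fun t _ => ?_
    rw [ha, zero_mul]
  rw [h5, zero_add]
  exact sum_congr rfl fun j _ => by rw [mul_sum]

theorem STK_inv (D B G H : ℕ → ℂ)
    (hGH : ∀ n, ∑ m ∈ range (n + 1), G m * H (n - m) = if n = 0 then 1 else 0)
    (hB : ∀ n, B n = ∑ q ∈ range (n + 1), D q * G (n - q)) :
    ∀ q, D q = ∑ j ∈ range (q + 1), H (q - j) * B j := by
  have e1 : PowerSeries.mk G * PowerSeries.mk H = 1 := by
    ext n
    rw [PowerSeries.coeff_mul, PowerSeries.coeff_one,
      Finset.Nat.sum_antidiagonal_eq_sum_range_succ (fun i j => PowerSeries.coeff i (PowerSeries.mk G) *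
        PowerSeries.coeff j (PowerSeries.mk H))]
    simp only [PowerSeries.coeff_mk]
    exact hGH n
  have e2 : PowerSeries.mk B = PowerSeries.mk D * PowerSeries.mk G := by
    ext n
    rw [PowerSeries.coeff_mul,
      Finset.Nat.sum_antidiagonal_eq_sum_range_succ (fun i j => PowerSeries.coeff i (PowerSeries.mk D) *
        PowerSeries.coeff j (PowerSeries.mk G))]
    simp only [PowerSeries.coeff_mk]
    exact hB n
  have e3 : PowerSeries.mk D = PowerSeries.mk B * PowerSeries.mk H := by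
    rw [e2, mul_assoc, e1, mul_one]
  intro q
  have h := congrArg (PowerSeries.coeff q) e3
  rw [PowerSeries.coeff_mul,
      Finset.Nat.sum_antidiagonal_eq_sum_range_succ (fun i j => PowerSeries.coeff i (PowerSeries.mk B) *
        PowerSeries.coeff j (PowerSeries.mk H))] at h
  simp only [PowerSeries.coeff_mk] at h
  rw [h]
  exact sum_congr rfl fun j _ => mul_comm _ _

theorem STK : STK_stmt := by
  intro p k N w t x D B G H hp hk hA ht0 hB0 hGH hN1 hRR
  have hp0 : (0 : ℝ) < p := by exact_mod_cast hp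
  have hpk : ((p : ℂ) + k) ≠ 0 := by
    have : ((p + k : ℕ) : ℂ) ≠ 0 := by
      exact_mod_cast (by omega : p + k ≠ 0)
    simpa using this
  have hN2 : ∀ q, D q = ∑ j ∈ range (q + 1), H (q - j) * B j := STK_inv D B G H hGH hN1
  have hR : ∀ m, D (p + m) = 2 * ∑ l, (w l : ℂ) * t l * x l ^ m -
      (if m ≤ p then (starRingEnd ℂ) (D (p - m)) else 0) := by
    intro m
    rw [eq_sub_iff_add_eq, hRR m]
  set W : ℝ := ∑ l, w l * t l with hW
  have hwt : ∀ l, 0 ≤ w l * t l := fun l => mul_nonneg (hA.1 l) (ht0 l)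
  have hW0 : 0 ≤ W := sum_nonneg fun l _ => hwt l
  have hWD : 2 * (W : ℂ) = D p + (starRingEnd ℂ) (D p) := by
    have h := hR 0
    rw [add_zero, if_pos (Nat.zero_le _), Nat.sub_zero] at h
    rw [hW]
    push_cast
    simp only [pow_zero, mul_one] at h
    exact (eq_sub_iff_add_eq.mp h).symm
  -- the measure
  obtain ⟨v, hv0, hv1, hvW⟩ : ∃ v : Fin N → ℝ, (∀ l, 0 ≤ v l) ∧ ∑ l, v l = 1 ∧ ∀ l, w l * t l = W * v l := by
    rcases eq_or_lt_of_le hW0 with h0 | h0
    · refine ⟨w, hA.1, hA.2.1, fun l => ?_⟩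
      have h1 := (sum_eq_zero_iff_of_nonneg (fun l _ => hwt l)).mp h0.symm
      rw [h1 l (mem_univ l), ← h0, zero_mul]
    · refine ⟨fun l => w l * t l / W, fun l => div_nonneg (hwt l) hW0, ?_, fun l => ?_⟩
      · rw [← sum_div]
        exact div_self h0.ne'
      · field_simp
  refine ⟨v, ⟨hv0, hv1, hA.2.2⟩, ?_⟩
  set E : ℂ := ∑ l, (v l : ℂ) * pol G k (x l) with hE
  have hsum1 : ∑ s ∈ Icc 1 k, (2 * ∑ l, (w l : ℂ) * t l * x l ^ s) * G (k - s) =
      W * (E - G k) := by
    have h1 : ∑ s ∈ Icc 1 k, (2 * ∑ l, (w l : ℂ) * t l * x l ^ s) * G (k - s) =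
        ∑ l, ((w l : ℂ) * t l) * (2 * ∑ s ∈ Icc 1 k, x l ^ s * G (k - s)) := by
      simp only [mul_sum, sum_mul]
      rw [sum_comm]
      exact sum_congr rfl fun l _ => sum_congr rfl fun s _ => by ring
    rw [h1]
    have h2 : ∀ l, ((w l : ℂ) * t l) = W * v l := by
      intro l
      have := hvW l
      exact_mod_cast this
    have h3 : ∑ l, (v l : ℂ) = 1 := by exact_mod_cast hv1
    have h4 : ∑ l, ((w l : ℂ) * t l) * (2 * ∑ s ∈ Icc 1 k, x l ^ s * G (k - s)) =
        ∑ l, (W * ((v l : ℂ) * pol G k (x l)) - W * G k * (v l : ℂ)) := by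
      refine sum_congr rfl fun l _ => ?_
      rw [STK_pol, h2 l]
      ring
    rw [h4, sum_sub_distrib, ← mul_sum, ← mul_sum, h3, ← hE]
    ring
  have hD3 : ∀ q, (fun q => (starRingEnd ℂ) (D q)) q = ∑ j ∈ range (q + 1), (fun i => (starRingEnd ℂ) (H i)) (q - j) *
      ((fun j : ℕ => (starRingEnd ℂ) (B j)) j) := by
    intro q
    show (starRingEnd ℂ) (D q) = _
    rw [hN2 q, map_sum]
    refine sum_congr rfl fun j _ => ?_
    simp only [map_mul]
  have e1 := STK_ex1 p k B G H D hN2 hB0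
  have e2 := STK_ex2 p k (fun j : ℕ => (starRingEnd ℂ) (B j)) G (fun i => (starRingEnd ℂ) (H i))
    (fun q => (starRingEnd ℂ) (D q)) hD3 (by simp [hB0])
  have hDp : D p = ∑ j ∈ Icc 1 p, B j * H (p - j) := by
    rw [hN2 p]
    have h4 : range (p + 1) = insert 0 (Icc 1 p) := by
      ext j
      simp only [mem_range, mem_insert, mem_Icc]
      omega
    rw [h4, sum_insert (by simp)]
    simp only [hB0, mul_zero, zero_add]
    exact sum_congr rfl fun j _ => by ring
  have hDpc : (starRingEnd ℂ) (D p) = ∑ j ∈ Icc 1 p, (starRingEnd ℂ) (B j) * (starRingEnd ℂ) (H (p - j)) := by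
    rw [hDp, map_sum]
    refine sum_congr rfl fun j _ => ?_
    simp only [map_mul]
  have hmain : B (p + k) =
      ∑ q ∈ range (p + 1), D q * G (p + k - q) -
        ∑ s ∈ Icc 1 k, (if s ≤ p then (fun q => (starRingEnd ℂ) (D q)) (p - s) else 0) * G (k - s) +
        (D p + (starRingEnd ℂ) (D p)) / 2 * (E - G k) := by
    rw [hN1 (p + k), STK_split p k (fun q => D q * G (p + k - q))]
    have h2 : ∑ s ∈ Icc 1 k, D (p + s) * G (p + k - (p + s)) =
        ∑ s ∈ Icc 1 k, (2 * ∑ l, (w l : ℂ) * t l * x l ^ s) * G (k - s) -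
        ∑ s ∈ Icc 1 k, (if s ≤ p then (fun q => (starRingEnd ℂ) (D q)) (p - s) else 0) * G (k - s) := by
      rw [← sum_sub_distrib]
      refine sum_congr rfl fun s _ => ?_
      rw [hR s, show p + k - (p + s) = k - s by omega]
      ring
    simp only []
    rw [h2, hsum1]
    linear_combination ((E - G k) / 2) * hWD
  rw [hmain, e1, e2, hDpc]
  rw [hDp]
  have hfin : ∀ j ∈ Icc 1 p,
      ((al p k (p - j) G H + om p k G E * H (p - j)) * B j -
        (be p k (p - j) G H - om p k G E * (starRingEnd ℂ) (H (p - j))) * (starRingEnd ℂ) (B j)) =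
      B j * ∑ m ∈ range (p - j + 1), G (k + m) * H (p - j - m) -
      (starRingEnd ℂ) (B j) * ∑ t ∈ Icc 1 (min (p - j) k), G (k - t) * (starRingEnd ℂ) (H (p - j - t)) +
      (B j * H (p - j) + (starRingEnd ℂ) (B j) * (starRingEnd ℂ) (H (p - j))) / 2 * (E - G k) := by
    intro j _
    unfold al be om
    field_simp
    ring
  rw [sum_congr rfl hfin, sum_add_distrib, sum_sub_distrib, ← sum_mul, ← sum_div, sum_add_distrib]

end Pool.Agent.GD
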