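import Pool.Agent.helper65.GD.SpecB

set_option autoImplicit false

namespace Pool.Agent.GD

open Metric

theorem STP (hSTZ : STZ_stmt) (hPVS : PVS_stmt) : STP_stmt := by
  intro f p h hn hs
  obtain ⟨q, hq⟩ := hSTZ f h.analyticOn.differentiableOn hn.map_zero hs
  have h2 := hPVS f q hq
  obtain ⟨w, hw⟩ := h.exactly
  obtain ⟨w', hw'⟩ := h2.exactly
  have h3 := h2.atMost w
  have h4 := h.atMost w'
  rw [hw] at h3
  rw [hw'] at h4
  have h5 : p = q := le_antisymm (by exact_mod_cast h3) (by exact_mod_cast h4)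
  rw [h5]
  exact hq

end Pool.Agent.GD
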