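import Pool.Agent.helper65.GD.SpecB

set_option autoImplicit false

namespace Pool.Agent.GD

open Metric Set Filter Topology

theorem STZ (hPFA : PFA_stmt) : STZ_stmt := by
  intro f hf h0 hs
  obtain ⟨ρ, hρ, hp⟩ := hs
  have hne : ∀ z : ℂ, ρ < ‖z‖ → ‖z‖ < 1 → f z ≠ 0 := by
    intro z h1 h2 h3
    have h4 := hp z h1 h2
    rw [h3, div_zero] at h4
    simp at h4
  obtain ⟨r, hr1, hr2⟩ := exists_between (show max ρ 0 < 1 from max_lt hρ one_pos)
  have hrρ : ρ < r := lt_of_le_of_lt (le_max_left _ _) hr1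
  have hr0 : 0 < r := lt_of_le_of_lt (le_max_right _ _) hr1
  obtain ⟨R, M, a, U, hR1, -, hrR, ha, hU, hU0, hfac⟩ := hPFA f r hr0 hr2 hf
    (fun z hz => hne z (by rw [hz]; exact hrρ) (by rw [hz]; exact hr2))
  have ha1 : ∀ l, ‖a l‖ < 1 := fun l => (ha l).trans hr2
  classical
  obtain ⟨g, hg⟩ : ∃ g : ℂ → ℂ, g = fun z => if ‖z‖ < R then U z else f z / ∏ l, (z - a l) := ⟨_, rfl⟩
  have hprod : ∀ z : ℂ, r ≤ ‖z‖ → ∏ l, (z - a l) ≠ 0 := by
    intro z hz
    rw [Finset.prod_ne_zero_iff]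
    intro l _ h
    rw [sub_eq_zero] at h
    rw [h] at hz
    exact absurd (ha l) (not_lt.mpr hz)
  have hg1 : ∀ z : ℂ, ‖z‖ < R → g z = U z := fun z hz => by rw [hg]; simp only [if_pos hz]
  have hg2 : ∀ z : ℂ, r ≤ ‖z‖ → ‖z‖ < 1 → g z = f z / ∏ l, (z - a l) := by
    intro z h1 h2
    rw [hg]
    by_cases h3 : ‖z‖ < R
    · simp only [if_pos h3]
      rw [eq_div_iff (hprod z h1), mul_comm]
      exact (hfac z (by simpa using h3)).symm
    · simp only [if_neg h3]
  have hM : 1 ≤ M := by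
    rcases Nat.eq_zero_or_pos M with h | h
    · exfalso
      subst h
      have h1 := hfac 0 (by simp; linarith)
      rw [h0, Finset.univ_eq_empty, Finset.prod_empty, one_mul] at h1
      exact hU0 0 (by simp; linarith) h1.symm
    · exact h
  refine ⟨M, hM, hf, h0, ⟨a, g, fun l => by simpa using ha1 l, ?_, ?_, ?_⟩, ρ, hρ, hp⟩
  · intro z hz
    rw [mem_ball_zero_iff] at hz
    apply DifferentiableAt.differentiableWithinAt
    by_cases h3 : ‖z‖ < R
    · have h4 : g =ᶠ[𝓝 z] U := by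
        filter_upwards [isOpen_ball.mem_nhds (show z ∈ ball (0 : ℂ) R by simpa using h3)] with y hy
        exact hg1 y (by simpa using hy)
      exact (hU.differentiableAt (isOpen_ball.mem_nhds (by simpa using h3))).congr_of_eventuallyEq h4
    · have h5 : r < ‖z‖ := lt_of_lt_of_le hrR (not_lt.mp h3)
      have h6 : {y : ℂ | r < ‖y‖ ∧ ‖y‖ < 1} ∈ 𝓝 z :=
        ((isOpen_lt continuous_const continuous_norm).inter (isOpen_lt continuous_norm continuous_const)).mem_nhds
          ⟨h5, hz⟩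
      have h4 : g =ᶠ[𝓝 z] fun y => f y / ∏ l, (y - a l) := by
        filter_upwards [h6] with y hy
        exact hg2 y hy.1.le hy.2
      have h7 : DifferentiableAt ℂ f z := hf.differentiableAt (isOpen_ball.mem_nhds (by simpa using hz))
      have h8 : DifferentiableAt ℂ (fun y : ℂ => ∏ l, (y - a l)) z := by fun_prop
      exact (h7.div h8 (hprod z h5.le)).congr_of_eventuallyEq h4
  · intro z hz
    rw [mem_ball_zero_iff] at hz
    by_cases h3 : ‖z‖ < R
    · rw [hg1 z h3]
      exact hU0 z (by simpa using h3)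
    · have h5 : r < ‖z‖ := lt_of_lt_of_le hrR (not_lt.mp h3)
      rw [hg2 z h5.le hz]
      exact div_ne_zero (hne z (hrρ.trans h5) hz) (hprod z h5.le)
  · intro z hz
    rw [mem_ball_zero_iff] at hz
    by_cases h3 : ‖z‖ < R
    · rw [hg1 z h3]
      exact hfac z (by simpa using h3)
    · have h5 : r < ‖z‖ := lt_of_lt_of_le hrR (not_lt.mp h3)
      rw [hg2 z h5.le hz, mul_div_cancel₀ _ (hprod z h5.le)]

end Pool.Agent.GD
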