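import Pool.Agent.helper65.GD.SpecC

set_option autoImplicit false

namespace Pool.Agent.GD

open Finset Metric Filter Topology

theorem STS_ser_congr {a : ℕ → ℂ} {f g : ℂ → ℂ} (h : Ser a f) (hfg : ∀ z ∈ ball (0 : ℂ) 1, f z = g z) :
    Ser a g := by
  intro z hz
  rw [← hfg z hz]
  exact h z hz

/-- positivity of `z^{-p} N(z)` on the circle -/
theorem STS_pos (p : ℕ) (a : Fin p → ℂ) (l₀ : Fin p) (b : ℕ → ℂ)
    (hbz : ∀ z : ℂ, z * ∏ l ∈ univ.erase l₀, ((z - a l) * (1 - (starRingEnd ℂ) (a l) * z)) =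
      ∑ q ∈ range (2 * p), b q * z ^ q) : Pos p b := by
  intro y hy
  have hyy : y * (starRingEnd ℂ) y = 1 := by
    rw [Complex.mul_conj, Complex.normSq_eq_norm_sq, hy]
    simp
  have hp : p = (univ.erase l₀).card + 1 := by
    rw [card_erase_of_mem (mem_univ _), card_univ, Fintype.card_fin]
    have := l₀.pos
    omega
  refine ⟨∏ l ∈ univ.erase l₀, ‖1 - (starRingEnd ℂ) (a l) * (starRingEnd ℂ) y‖ ^ 2,
    prod_nonneg fun l _ => sq_nonneg _, ?_⟩
  unfold tt
  rw [← hbz]
  have h1 : y ^ p = y * ∏ l ∈ univ.erase l₀, y := by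
    rw [prod_const, ← pow_succ', ← hp]
  rw [h1]
  have h2 : (y * ∏ l ∈ univ.erase l₀, y) * ((starRingEnd ℂ) y *
      ∏ l ∈ univ.erase l₀, (((starRingEnd ℂ) y - a l) * (1 - (starRingEnd ℂ) (a l) * (starRingEnd ℂ) y))) =
      (y * (starRingEnd ℂ) y) * ∏ l ∈ univ.erase l₀,
        (y * (((starRingEnd ℂ) y - a l) * (1 - (starRingEnd ℂ) (a l) * (starRingEnd ℂ) y))) := by
    rw [prod_mul_distrib (f := fun _ => y)]
    ring
  rw [h2, hyy, one_mul]
  push_cast
  refine prod_congr rfl fun l _ => ?_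
  have h3 : y * ((starRingEnd ℂ) y - a l) = (starRingEnd ℂ) (1 - (starRingEnd ℂ) (a l) * (starRingEnd ℂ) y) := by
    simp only [map_sub, map_mul, map_one, Complex.conj_conj]
    linear_combination hyy
  rw [← mul_assoc, h3, ← Complex.conj_mul']

theorem STS (hCO1 : CO1_stmt) (hCO2 : CO2_stmt) (hCO3 : CO3_stmt) (hCO4 : CO4_stmt) (hNPO : NPO_stmt)
    (hREP : REP_stmt) : STS_stmt := by
  intro f p hf
  obtain ⟨a, l₀, c, G, hGd, hG0, hGne, hfG, hPre⟩ := hREP f p hf
  obtain ⟨b, hb, hbz⟩ := hNPO p a l₀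
  have hp : 1 ≤ p := hf.one_le
  have hpc : (p : ℂ) ≠ 0 := by
    have : p ≠ 0 := by omega
    exact_mod_cast this
  set P : ℂ → ℂ := fun z => 1 + z * deriv G z / (p * G z) with hP
  have hPd : DifferentiableOn ℂ P (ball 0 1) := by
    have h1 : DifferentiableOn ℂ (deriv G) (ball 0 1) := hGd.deriv isOpen_ball
    have h2 : DifferentiableOn ℂ (fun z : ℂ => z * deriv G z) (ball 0 1) := differentiableOn_id.mul h1
    have h3 : DifferentiableOn ℂ (fun z : ℂ => (p : ℂ) * G z) (ball 0 1) := hGd.const_mul _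
    have h4 : DifferentiableOn ℂ (fun z : ℂ => z * deriv G z / ((p : ℂ) * G z)) (ball 0 1) :=
      h2.div h3 (fun z hz => mul_ne_zero hpc (hGne z hz))
    exact h4.const_add 1
  set Gs : ℕ → ℂ := N2b689f5b.coeff G with hGs
  set Ps : ℕ → ℂ := N2b689f5b.coeff P with hPs
  have hGser : Ser Gs G := hCO1 G hGd
  have hPser : Ser Ps P := hCO1 P hPd
  have hPs0 : Ps 0 = 1 := by
    simp [hPs, N2b689f5b.coeff, hP]
  have hGs0 : Gs 0 = 1 := by
    simp [hGs, N2b689f5b.coeff, hG0]
  have hG' := (hCO4 G Gs hGser).2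
  have hprod : Ser (fun n => ∑ m ∈ range (n + 1), Gs m * Ps (n - m)) (fun z => G z * P z) :=
    hCO3 G P Gs Ps hGser hPser
  have hsum : Ser (fun n => Gs n + (n : ℂ) * Gs n / p) (fun z => G z * P z) := by
    intro z hz
    have h1 := hGser z hz
    have h2 := (hG' z hz).div_const (p : ℂ)
    have h3 := h1.add h2
    have h4 : G z * P z = G z + z * deriv G z / p := by
      simp only [hP]
      have := hGne z hz
      field_simp
    show HasSum (fun n : ℕ => (Gs n + (n : ℂ) * Gs n / p) * z ^ n) (G z * P z)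
    rw [h4]
    have h5 : (fun n : ℕ => (Gs n + (n : ℂ) * Gs n / p) * z ^ n) =
        fun n : ℕ => Gs n * z ^ n + (n : ℂ) * Gs n * z ^ n / p := by
      funext n
      ring
    rw [h5]
    exact h3
  have heq := hCO2 _ _ _ hprod hsum
  have hrec : ∀ k : ℕ, (k : ℂ) * Gs k = p * ∑ m ∈ range k, Ps (k - m) * Gs m := by
    intro k
    have h1 : ∑ m ∈ range (k + 1), Gs m * Ps (k - m) = Gs k + (k : ℂ) * Gs k / p := congrFun heq k
    rw [sum_range_succ, Nat.sub_self, hPs0] at h1
    have h2 : ∑ m ∈ range k, Gs m * Ps (k - m) = (k : ℂ) * Gs k / p := by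
      linear_combination h1
    have h3 : ∑ m ∈ range k, Ps (k - m) * Gs m = ∑ m ∈ range k, Gs m * Ps (k - m) :=
      sum_congr rfl (fun m _ => mul_comm _ _)
    rw [h3, h2]
    field_simp
  refine ⟨c, b, fun m => if m = 0 then 1 else Ps m / 2, Gs, P, hb, STS_pos p a l₀ b hbz, ⟨hGs0, ?_⟩, by simp, ?_, hPre, ?_⟩
  · intro k
    rw [hrec k]
    have h1 : ∑ m ∈ range k, (if k - m = 0 then (1 : ℂ) else Ps (k - m) / 2) * Gs m =
        ∑ m ∈ range k, (1 / 2 : ℂ) * (Ps (k - m) * Gs m) := by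
      refine sum_congr rfl (fun m hm => ?_)
      have : k - m ≠ 0 := by
        have := mem_range.mp hm
        omega
      rw [if_neg this]
      ring
    rw [h1, ← mul_sum]
    ring
  · have h1 : dbl (fun m => if m = 0 then 1 else Ps m / 2) = Ps := by
      funext n
      unfold dbl
      by_cases hn : n = 0
      · subst hn
        simp [hPs0]
      · simp only [hn, if_false]
        ring
    rw [h1]
    exact hPser
  · have hbser : Ser b (fun z => z * ∏ l ∈ univ.erase l₀, ((z - a l) * (1 - (starRingEnd ℂ) (a l) * z))) := by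
      intro z _
      show HasSum (fun n : ℕ => b n * z ^ n)
        (z * ∏ l ∈ univ.erase l₀, ((z - a l) * (1 - (starRingEnd ℂ) (a l) * z)))
      rw [hbz z]
      refine hasSum_sum_of_ne_finset_zero (fun q hq => ?_)
      have : 2 * p ≤ q := by
        by_contra h
        exact hq (mem_range.mpr (by omega))
      rw [hb.2.1 q this, zero_mul]
    have h1 := hCO3 _ _ _ _ hbser hGser
    have h2 : Ser (fun n => c * ∑ m ∈ range (n + 1), b m * Gs (n - m)) f := by
      intro z hz
      have h3 := (h1 z hz).mul_left c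
      rw [hfG z hz]
      have h4 : (fun n : ℕ => (c * ∑ m ∈ range (n + 1), b m * Gs (n - m)) * z ^ n) =
          fun n : ℕ => c * ((∑ m ∈ range (n + 1), b m * Gs (n - m)) * z ^ n) := by
        funext n
        ring
      show HasSum (fun n : ℕ => (c * ∑ m ∈ range (n + 1), b m * Gs (n - m)) * z ^ n) _
      rw [h4]
      exact h3
    have hfd : DifferentiableOn ℂ f (ball 0 1) := hf.analytic
    have h5 := hCO2 _ _ _ (hCO1 f hfd) h2
    intro n
    exact congrFun h5 n

end Pool.Agent.GD
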