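import Pool.Agent.helper90.GD.CO1
import Pool.Agent.helper23.GD.CO2
import Pool.Agent.helper23.GD.CO3
import Pool.Agent.helper22.GD.CO4
import Pool.Agent.helper83.GD.NPO
import Pool.Agent.helper65.GD.BDY
import Pool.Agent.helper79.GD.MIN
import Pool.Agent.helper44.GD.APX
import Pool.Agent.helper23.GD.EXR
import Pool.Agent.helper23.GD.CTN
import Pool.Agent.helper23.GD.GHI
import Pool.Agent.helper8.GD.IDA
import Pool.Agent.helper6.GD.IDB
import Pool.Agent.helper23.GD.EGM
import Pool.Agent.helper30.GD.QFM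
import Pool.Agent.helper76.GD.VHB
import Pool.Agent.helper56.GD.PAA
import Pool.Agent.helper23.GD.PBB
import Pool.Agent.helper23.GD.PCC
import Pool.Agent.helper66.GD.PDD
import Pool.Agent.helper80.GD.VGB
import Pool.Agent.helper80.GD.COV
import Pool.Agent.helper23.GD.NUM
import Pool.Agent.helper65.GD.PFA
import Pool.Agent.helper44.GD.ARG
import Pool.Agent.helper65.GD.CNT
import Pool.Agent.helper85.GD.CNU
import Pool.Agent.helper84.GD.RAD
import Pool.Agent.helper44.GD.ATM
import Pool.Agent.helper44.GD.EXA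
import Pool.Agent.helper65.GD.PVS
import Pool.Agent.helper65.GD.STZ
import Pool.Agent.helper65.GD.STP
import Pool.Agent.helper23.GD.REF
import Pool.Agent.helper23.GD.OMG
import Pool.Agent.helper65.GD.SCA
import Pool.Agent.helper53.GD.KEZ
import Pool.Agent.helper92.GD.REK
import Pool.Agent.helper65.GD.STK
import Pool.Agent.helper6.GD.GAK
import Pool.Agent.helper54.GD.GLK
import Pool.Agent.helper41.GD.ZCN
import Pool.Agent.helper39.GD.DIL
import Pool.Agent.helper65.GD.REQ
import Pool.Agent.helper79.GD.RPA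
import Pool.Agent.helper98.GD.RPK
import Pool.Agent.helper84.GD.FNK

set_option autoImplicit false

/-! # Goodman's inequality for multivalent close-to-convex functions: assembly -/

namespace Pool.Agent.GD

theorem kez_holds : KEZ_stmt :=
  KEZ (COV EGM IDA IDB) (VGB EGM PAA (PBB PAA) (PCC (PBB PAA)) PDD) (VHB EGM QFM) OMG SCA

theorem glk_holds : GLK_stmt := GLK (GAK EXR GHI (REK REF) STK kez_holds NUM) EXR CTN

theorem fnk_holds : FNK_stmt :=
  FNK CO1 CO2 (DIL PFA (ZCN ARG)) (RPK CO1 CO2 CO3 CO4 NPO APX (RPA (REQ BDY MIN))) glk_holds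

theorem pvs_holds : PVS_stmt := PVS (ATM RAD PFA ARG CNT CNU) (EXA RAD PFA ARG (ATM RAD PFA ARG CNT CNU))

theorem stp_holds : STP_stmt := STP (STZ PFA) pvs_holds

end Pool.Agent.GD
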