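import Pool.Agent.helper65.GD.SpecE

set_option autoImplicit false

/-! # Goodman's inequality for functions obtained from polynomials of a spirallike function by iteration -/

namespace Pool.Agent.GD

open Finset Metric Filter Topology

/-- `V_Φ` satisfies Goodman's inequality. -/
structure Goo (p : ℕ) (Φ : ℕ → ℕ → ℂ) : Prop where
  low : ∀ m n : ℕ, n < m → Φ m n = 0
  diag : ∀ m : ℕ, Φ m m = 1
  ineq : ∀ (c : ℕ → ℂ) (n : ℕ), p < n → ‖cmb p Φ c n‖ ≤ ∑ j ∈ Icc 1 p, AA p n j * ‖cmb p Φ c j‖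

/-- `f` is, up to a constant, an element of such a space. -/
def Inv (p : ℕ) (f : ℂ → ℂ) : Prop := DifferentiableOn ℂ f (ball 0 1) ∧
  ∃ (Φ : ℕ → ℕ → ℂ) (c : ℕ → ℂ), Goo p Φ ∧ ∀ n, 1 ≤ n → N2b689f5b.coeff f n = cmb p Φ c n

theorem ITG (p : ℕ) (f : ℂ → ℂ) (h : Inv p f) (n : ℕ) (hn : p < n) :
    ‖N2b689f5b.coeff f n‖ ≤ N2b689f5b.goodmanBound f p n := by
  obtain ⟨-, Φ, c, hG, hc⟩ := h
  have e : N2b689f5b.goodmanBound f p n = ∑ j ∈ Icc 1 p, AA p n j * ‖N2b689f5b.coeff f j‖ := rfl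
  rw [e, hc n (by omega), Finset.sum_congr rfl (fun j hj => by rw [hc j (mem_Icc.1 hj).1])]
  exact hG.ineq c n hn

lemma ITE_ser_sum (s : Finset ℕ) (a : ℕ → ℕ → ℂ) (f : ℕ → ℂ → ℂ) (h : ∀ m ∈ s, Ser (a m) (f m)) :
    Ser (fun n => ∑ m ∈ s, a m n) (fun z => ∑ m ∈ s, f m z) := by
  intro z hz
  have : (fun n => (∑ m ∈ s, a m n) * z ^ n) = fun n => ∑ m ∈ s, a m n * z ^ n := by
    funext n
    rw [Finset.sum_mul]
  rw [this]
  exact hasSum_sum fun m hm => h m hm z hz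

lemma ITE_ser_mul (c : ℂ) (a : ℕ → ℂ) (f : ℂ → ℂ) (h : Ser a f) : Ser (fun n => c * a n) (fun z => c * f z) := by
  intro z hz
  have : (fun n => c * a n * z ^ n) = fun n => c * (a n * z ^ n) := by
    funext n
    ring
  rw [this]
  exact (h z hz).mul_left c

lemma ITE_one (hCO1 : CO1_stmt) (hCO2 : CO2_stmt) (φ : ℂ → ℂ) (n : ℕ) (hn : 1 ≤ n) :
    N2b689f5b.coeff (fun z => φ z ^ 0) n = 0 := by
  have e : (fun z => φ z ^ 0) = fun _ : ℂ => (1 : ℂ) := by
    funext z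
    rw [pow_zero]
  rw [e]
  have h1 : Ser (N2b689f5b.coeff (fun _ : ℂ => (1 : ℂ))) (fun _ => 1) := hCO1 _ (differentiableOn_const 1)
  have h2 : Ser (fun n => if n = 0 then (1 : ℂ) else 0) (fun _ : ℂ => (1 : ℂ)) := by
    intro z _
    have h := hasSum_ite_eq 0 (1 : ℂ)
    have e2 : (fun n : ℕ => (if n = 0 then (1 : ℂ) else 0) * z ^ n) = fun n => if n = 0 then (1 : ℂ) else 0 := by
      funext n
      by_cases h : n = 0
      · subst h
        simp
      · simp [h]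
    rw [e2]
    exact h
  have h3 := congrFun (hCO2 _ _ _ h1 h2) n
  rw [h3, if_neg (by omega)]

/-- Polynomials of a spirallike function. -/
theorem ITB (hCO1 : CO1_stmt) (hCO2 : CO2_stmt) (hRGB : RGB_stmt) (hSTB : STB_stmt) (hCAR : CAR_stmt)
    (hSPQ : SPQ_stmt) (hPWC : PWC_stmt) (φ : ℂ → ℂ) (γ : ℝ) (P : Polynomial ℂ) (p : ℕ) (hφ : Spiral φ γ)
    (hP : P.natDegree ≤ p) : Inv p (fun z => P.eval (φ z)) := by
  obtain ⟨q, hq, hq0, hqre, hqe⟩ := hSPQ φ γ hφ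
  have hpow : ∀ m : ℕ, DifferentiableOn ℂ (fun z => φ z ^ m) (ball 0 1) := fun m => hφ.analytic.pow m
  have hfe : (fun z => P.eval (φ z)) = fun z => ∑ m ∈ range (p + 1), P.coeff m * φ z ^ m := by
    funext z
    rw [Polynomial.eval_eq_sum_range' (Nat.lt_succ_of_le hP)]
  have hfd : DifferentiableOn ℂ (fun z => P.eval (φ z)) (ball 0 1) := by
    rw [hfe]
    exact DifferentiableOn.fun_sum fun m _ => (hpow m).const_mul _
  refine ⟨hfd, ?_⟩
  -- `Rgs (coeff q)`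
  have hR : Rgs (N2b689f5b.coeff q) := by
    have hd : DifferentiableOn ℂ (fun z => Complex.exp (γ * Complex.I) * q z) (ball 0 1) := hq.const_mul _
    obtain ⟨q', hq', h0, hc⟩ := hCAR _ hd hqre
    have hser : Ser (fun n => Complex.exp (γ * Complex.I) * N2b689f5b.coeff q n)
        (fun z => Complex.exp (γ * Complex.I) * q z) := ITE_ser_mul _ _ _ (hCO1 q hq)
    have e1 := hCO2 _ _ _ (hCO1 _ hd) hser
    have hne : Complex.exp (γ * Complex.I) ≠ 0 := Complex.exp_ne_zero _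
    have e2 : N2b689f5b.coeff q = q' := by
      funext n
      have h1 := hc n
      rw [congrFun e1 n, hq0, mul_one] at h1
      exact mul_left_cancel₀ hne h1
    rw [e2]
    exact hRGB q' hq'
  have hQ0 : N2b689f5b.coeff q 0 = 1 := by
    unfold N2b689f5b.coeff
    rw [iteratedDeriv_zero, hq0]
    simp
  have hPw := hPWC φ q hφ.analytic hφ.map_zero hφ.deriv_ne hq hq0 hqe
  refine ⟨fun m n => N2b689f5b.coeff (fun z => φ z ^ m) n / deriv φ 0 ^ m, fun m => P.coeff m * deriv φ 0 ^ m,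
    ⟨hPw.low, hPw.diag, hSTB p _ _ hQ0 hR hPw⟩, ?_⟩
  intro n hn
  have h1 : Ser (N2b689f5b.coeff (fun z => P.eval (φ z))) (fun z => P.eval (φ z)) := hCO1 _ hfd
  have h2 : Ser (fun n => ∑ m ∈ range (p + 1), P.coeff m * N2b689f5b.coeff (fun z => φ z ^ m) n)
      (fun z => P.eval (φ z)) := by
    rw [hfe]
    exact ITE_ser_sum (range (p + 1)) (fun m n => P.coeff m * N2b689f5b.coeff (fun z => φ z ^ m) n)
      (fun m z => P.coeff m * φ z ^ m) (fun m _ => ITE_ser_mul _ _ _ (hCO1 _ (hpow m)))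
  rw [congrFun (hCO2 _ _ _ h1 h2) n]
  unfold cmb
  rw [Finset.sum_range_succ', ITE_one hCO1 hCO2 φ n hn, mul_zero, add_zero]
  rw [Finset.sum_bij (fun (m : ℕ) _ => m + 1)]
  · intro m hm
    rw [mem_Icc]
    have := mem_range.1 hm
    omega
  · intro m _ m' _ h
    omega
  · intro m hm
    rw [mem_Icc] at hm
    exact ⟨m - 1, by rw [mem_range]; omega, by omega⟩
  · intro m _
    have : deriv φ 0 ^ (m + 1) ≠ 0 := pow_ne_zero _ hφ.deriv_ne
    field_simp

lemma ITE_cv_cmb (p : ℕ) (Q : ℕ → ℂ) (Φ : ℕ → ℕ → ℂ) (c : ℕ → ℂ) (n : ℕ) :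
    cv Q (cmb p Φ c) n = ∑ m ∈ Icc 1 p, c m * cv Q (Φ m) n := by
  unfold cv cmb
  simp only [Finset.mul_sum]
  rw [Finset.sum_comm]
  refine Finset.sum_congr rfl fun m _ => Finset.sum_congr rfl fun r _ => by ring

/-- The space of the solutions of `z f' = Q F`. -/
theorem ITC (hCCV : CCV_stmt) (p : ℕ) (Q : ℕ → ℂ) (Φ : ℕ → ℕ → ℂ) (hQ : Q 0 = 1) (hR : Rgs Q) (hG : Goo p Φ) :
    ∃ Ψ : ℕ → ℕ → ℂ, Goo p Ψ ∧ ∀ c b : ℕ → ℂ, (∀ n : ℕ, (n : ℂ) * b n = cv Q (cmb p Φ c) n) →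
      ∃ c' : ℕ → ℂ, ∀ n, 1 ≤ n → b n = cmb p Ψ c' n := by
  have hlow : ∀ m n, n < m → cv Q (Φ m) n = 0 := by
    intro m n h
    unfold cv
    refine Finset.sum_eq_zero fun r hr => ?_
    rw [hG.low m r (by have := mem_range.1 hr; omega), mul_zero]
  have hdiag : ∀ m, cv Q (Φ m) m = 1 := by
    intro m
    unfold cv
    rw [Finset.sum_range_succ, Nat.sub_self, hQ, hG.diag m, Finset.sum_eq_zero (fun r hr => by
      rw [hG.low m r (mem_range.1 hr), mul_zero])]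
    ring
  let Ψ : ℕ → ℕ → ℂ := fun m n => if m = n then 1 else if n < m then 0 else m * cv Q (Φ m) n / n
  have hΨ : ∀ m n : ℕ, (n : ℂ) * Ψ m n = m * cv Q (Φ m) n := by
    intro m n
    change (n : ℂ) * (if m = n then 1 else if n < m then 0 else m * cv Q (Φ m) n / n) = _
    by_cases h1 : m = n
    · rw [if_pos h1, ← h1, hdiag m]
    · rw [if_neg h1]
      by_cases h2 : n < m
      · rw [if_pos h2, hlow m n h2]
        ring
      · rw [if_neg h2]
        have : (n : ℂ) ≠ 0 := by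
          exact_mod_cast (by omega : n ≠ 0)
        field_simp
  have hlowΨ : ∀ m n, n < m → Ψ m n = 0 := by
    intro m n h
    change (if m = n then (1 : ℂ) else if n < m then 0 else m * cv Q (Φ m) n / n) = 0
    rw [if_neg (by omega), if_pos h]
  have hdiagΨ : ∀ m, Ψ m m = 1 := by
    intro m
    change (if m = m then (1 : ℂ) else if m < m then 0 else m * cv Q (Φ m) m / m) = 1
    rw [if_pos rfl]
  have hcΨ : ∀ (c : ℕ → ℂ) (n : ℕ), (n : ℂ) * cmb p Ψ c n = cv Q (cmb p Φ (fun m => c m * m)) n := by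
    intro c n
    rw [ITE_cv_cmb]
    unfold cmb
    rw [Finset.mul_sum]
    refine Finset.sum_congr rfl fun m _ => ?_
    calc (n : ℂ) * (c m * Ψ m n) = c m * (n * Ψ m n) := by ring
      _ = c m * (m * cv Q (Φ m) n) := by rw [hΨ]
      _ = c m * m * cv Q (Φ m) n := by ring
  refine ⟨Ψ, ⟨hlowΨ, hdiagΨ, ?_⟩, ?_⟩
  · intro c n hn
    exact hCCV p Q Φ hQ hR hG.low hG.diag hG.ineq (fun m => c m * m) (cmb p Ψ c) (hcΨ c) n hn
  · intro c b hb
    refine ⟨fun m => c m / m, fun n hn => ?_⟩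
    have h1 := hcΨ (fun m => c m / m) n
    have h2 : cmb p Φ (fun m => c m / m * m) = cmb p Φ c := by
      funext r
      unfold cmb
      refine Finset.sum_congr rfl fun m hm => ?_
      have : (m : ℂ) ≠ 0 := by
        exact_mod_cast (by have := (mem_Icc.1 hm).1; omega : m ≠ 0)
      field_simp
    rw [h2, ← hb n] at h1
    have hn' : (n : ℂ) ≠ 0 := by
      exact_mod_cast (by omega : n ≠ 0)
    exact (mul_left_cancel₀ hn' h1).symm

/-- The step `z f' = Q F`. -/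
theorem ITS (hCO1 : CO1_stmt) (hCO2 : CO2_stmt) (hCO3 : CO3_stmt) (hCO4 : CO4_stmt) (hRGB : RGB_stmt)
    (hCCV : CCV_stmt) (hCAR : CAR_stmt) (p : ℕ) (f F Q : ℂ → ℂ) (hF : Inv p F)
    (hf : DifferentiableOn ℂ f (ball 0 1)) (hQ : DifferentiableOn ℂ Q (ball 0 1))
    (hpos : ∀ z ∈ ball (0 : ℂ) 1, 0 < (Q z).re) (he : ∀ z ∈ ball (0 : ℂ) 1, z * deriv f z = Q z * F z) :
    Inv p f := by
  obtain ⟨hFd, Φ, c, hG, hc⟩ := hF
  obtain ⟨q, hq, hQ0, hqc⟩ := hCAR Q hQ hpos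
  obtain ⟨Ψ, hΨ, hstep⟩ := ITC hCCV p q Φ hq.1 (hRGB q hq) hG
  refine ⟨hf, Ψ, ?_⟩
  have h0 : (0 : ℂ) ∈ ball (0 : ℂ) 1 := mem_ball_self one_pos
  have hF0 : F 0 = 0 := by
    have h1 := he 0 h0
    rw [zero_mul] at h1
    exact (mul_eq_zero.1 h1.symm).resolve_left hQ0
  have hFc : N2b689f5b.coeff F = cmb p Φ c := by
    funext n
    rcases Nat.eq_zero_or_pos n with h | h
    · subst h
      unfold N2b689f5b.coeff cmb
      rw [iteratedDeriv_zero, hF0, zero_div]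
      symm
      refine Finset.sum_eq_zero fun m hm => ?_
      rw [hG.low m 0 (by have := (mem_Icc.1 hm).1; omega), mul_zero]
    · exact hc n h
  have s1 : Ser (fun n : ℕ => (n : ℂ) * N2b689f5b.coeff f n) (fun z => z * deriv f z) := (hCO4 f _ (hCO1 f hf)).2
  have s2 : Ser (fun n => ∑ m ∈ range (n + 1), N2b689f5b.coeff F m * N2b689f5b.coeff Q (n - m))
      (fun z => F z * Q z) := hCO3 F Q _ _ (hCO1 F hFd) (hCO1 Q hQ)
  have s3 : Ser (fun n : ℕ => (n : ℂ) * N2b689f5b.coeff f n) (fun z => F z * Q z) := by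
    intro z hz
    have h1 : HasSum (fun n : ℕ => (n : ℂ) * N2b689f5b.coeff f n * z ^ n) (z * deriv f z) := s1 z hz
    rw [he z hz, mul_comm] at h1
    exact h1
  have hcoef := hCO2 _ _ _ s3 s2
  obtain ⟨c', hc'⟩ := hstep (fun m => Q 0 * c m) (N2b689f5b.coeff f) (by
    intro n
    have h1 := congrFun hcoef n
    change (n : ℂ) * N2b689f5b.coeff f n = _ at h1
    rw [h1]
    unfold cv
    refine Finset.sum_congr rfl fun m _ => ?_
    rw [hqc, hFc]
    have : cmb p Φ (fun m => Q 0 * c m) m = Q 0 * cmb p Φ c m := by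
      unfold cmb
      rw [Finset.mul_sum]
      refine Finset.sum_congr rfl fun r _ => by ring
    rw [this]
    ring)
  exact ⟨c', hΨ, hc'⟩

end Pool.Agent.GD
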