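import Pool.Agent.helper90.GD.CO1
import Pool.Agent.helper23.GD.CO2
import Pool.Agent.helper23.GD.CO3
import Pool.Agent.helper22.GD.CO4
import Pool.Agent.helper44.GD.APX
import Pool.Agent.helper10.GD.NUB
import Pool.Agent.helper32.GD.NUC
import Pool.Agent.helper77.GD.NUE
import Pool.Agent.helper25.GD.RGA
import Pool.Agent.helper39.GD.RGB
import Pool.Agent.helper50.GD.LIN
import Pool.Agent.helper34.GD.FJB
import Pool.Agent.helper89.GD.STE
import Pool.Agent.helper31.GD.STB
import Pool.Agent.helper65.GD.CCV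
import Pool.Agent.helper11.GD.CAR
import Pool.Agent.helper75.GD.SPQ
import Pool.Agent.helper40.GD.PWC
import Pool.Agent.helper65.GD.ITE

set_option autoImplicit false

/-! # Goodman's inequality for polynomials of spirallike functions: assembly -/

namespace Pool.Agent.GD

theorem nue_holds : NUE_stmt := NUE NUB NUC

theorem rgb_holds : RGB_stmt := RGB RGA

theorem ste_holds : STE_stmt := STE FJB nue_holds

theorem stb_holds : STB_stmt := STB LIN FJB ste_holds nue_holds

theorem ccv_holds : CCV_stmt := CCV LIN FJB ste_holds nue_holds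

theorem car_holds : CAR_stmt := CAR CO1 APX

theorem pwc_holds : PWC_stmt := PWC CO1 CO2 CO3 CO4

theorem inv_poly (φ : ℂ → ℂ) (γ : ℝ) (P : Polynomial ℂ) (p : ℕ) (hφ : Spiral φ γ) (hP : P.natDegree ≤ p) :
    Inv p (fun z => P.eval (φ z)) :=
  ITB CO1 CO2 rgb_holds stb_holds car_holds SPQ pwc_holds φ γ P p hφ hP

theorem inv_step (p : ℕ) (f F Q : ℂ → ℂ) (hF : Inv p F) (hf : DifferentiableOn ℂ f (Metric.ball 0 1))
    (hQ : DifferentiableOn ℂ Q (Metric.ball 0 1)) (hpos : ∀ z ∈ Metric.ball (0 : ℂ) 1, 0 < (Q z).re)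
    (he : ∀ z ∈ Metric.ball (0 : ℂ) 1, z * deriv f z = Q z * F z) : Inv p f :=
  ITS CO1 CO2 CO3 CO4 rgb_holds ccv_holds car_holds p f F Q hF hf hQ hpos he

end Pool.Agent.GD
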