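import Pool.Agent.helper65.GD.MUL
import Pool.Agent.helper65.GD.AllE

set_option autoImplicit false

/-! # Multiplication by `z/((1-xz)(1-yz))`: functions -/

namespace Pool.Agent.GD

open Finset Metric Filter Topology

/-- `Φ` with `Φ 0` replaced by the constant function `1`. -/
noncomputable def one0 (Φ : ℕ → ℕ → ℂ) (m r : ℕ) : ℂ := if m = 0 then (if r = 0 then 1 else 0) else Φ m r

/-- The new basis. -/
noncomputable def psi (x y : ℂ) (Φ : ℕ → ℕ → ℂ) (m n : ℕ) : ℂ :=
  if m = 0 then (if n = 0 then 1 else 0) else gm x y (one0 Φ (m - 1)) n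

lemma MUF_cmb (x y : ℂ) (p : ℕ) (Φ : ℕ → ℕ → ℂ) (c : ℕ → ℂ) (n : ℕ) :
    cmb (p + 1) (psi x y Φ) c n = gm x y (fun r => ∑ m ∈ range (p + 1), c (m + 1) * one0 Φ m r) n := by
  have hI : ∑ m ∈ Icc 1 (p + 1), c m * psi x y Φ m n = ∑ m ∈ range (p + 1), c (m + 1) * psi x y Φ (m + 1) n := by
    rw [Finset.range_eq_Ico, Finset.sum_Ico_add' (fun m => c m * psi x y Φ m n) 0 (p + 1) 1]
    refine Finset.sum_congr ?_ fun _ _ => rfl
    ext a
    simp only [mem_Icc, mem_Ico]
    omega
  unfold cmb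
  rw [hI]
  unfold gm
  simp only [Finset.mul_sum]
  rw [Finset.sum_comm]
  refine Finset.sum_congr rfl fun m _ => ?_
  have : psi x y Φ (m + 1) n = ∑ r ∈ range n, geo x y (n - 1 - r) * one0 Φ m r := by
    unfold psi gm
    rw [if_neg (by omega), show m + 1 - 1 = m by omega]
  rw [this, Finset.mul_sum]
  refine Finset.sum_congr rfl fun r _ => by ring

lemma MUF_low (p : ℕ) (Φ : ℕ → ℕ → ℂ) (c : ℕ → ℂ) (r : ℕ) (hr : 1 ≤ r) :
    ∑ m ∈ range (p + 1), c (m + 1) * one0 Φ m r = cmb p Φ (fun m => c (m + 1)) r := by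
  unfold cmb
  have hI : ∑ m ∈ Icc 1 p, c (m + 1) * Φ m r = ∑ m ∈ range p, c (m + 1 + 1) * Φ (m + 1) r := by
    rw [Finset.range_eq_Ico, Finset.sum_Ico_add' (fun m => c (m + 1) * Φ m r) 0 p 1]
    refine Finset.sum_congr ?_ fun _ _ => rfl
    ext a
    simp only [mem_Icc, mem_Ico]
    omega
  rw [hI, Finset.sum_range_succ']
  have e0 : one0 Φ 0 r = 0 := by
    unfold one0
    rw [if_pos rfl, if_neg (by omega)]
  rw [e0, mul_zero, add_zero]
  refine Finset.sum_congr rfl fun m _ => ?_
  unfold one0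
  rw [if_neg (by omega)]

theorem MUF_goo (x y : ℂ) (hx : ‖x‖ ≤ 1) (hy : ‖y‖ ≤ 1) (p : ℕ) (Φ : ℕ → ℕ → ℂ) (hG : Goo p Φ) :
    Goo (p + 1) (psi x y Φ) := by
  refine ⟨?_, ?_, ?_⟩
  · intro m n h
    unfold psi
    rw [if_neg (by omega)]
    unfold gm
    refine Finset.sum_eq_zero fun r hr => ?_
    have hr' := mem_range.1 hr
    have : one0 Φ (m - 1) r = 0 := by
      unfold one0
      rw [if_neg (by omega)]
      exact hG.low (m - 1) r (by omega)
    rw [this, mul_zero]
  · intro m
    rcases Nat.eq_zero_or_pos m with h | h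
    · subst h
      simp [psi]
    · obtain ⟨q, rfl⟩ : ∃ q, m = q + 1 := ⟨m - 1, by omega⟩
      unfold psi
      rw [if_neg (by omega), show q + 1 - 1 = q by omega]
      unfold gm
      rw [Finset.sum_range_succ, Finset.sum_eq_zero, zero_add, show q + 1 - 1 - q = 0 by omega, MUL_geo0, one_mul]
      · unfold one0
        by_cases hq : q = 0
        · subst hq
          simp
        · rw [if_neg hq]
          exact hG.diag q
      · intro r hr
        have hr' := mem_range.1 hr
        have : one0 Φ q r = 0 := by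
          unfold one0
          rw [if_neg (by omega)]
          exact hG.low q r hr'
        rw [this, mul_zero]
  · intro c n hn
    rw [MUF_cmb, Finset.sum_congr rfl (fun j _ => by rw [MUF_cmb])]
    refine MUL_main (fun p m i h1 h2 h3 => (nue_holds p m i h1 h2 h3).2.1) x y hx hy p _ ?_ n hn
    intro m hm
    rw [MUF_low p Φ c m (by omega), Finset.sum_congr rfl (fun i hi => by rw [MUF_low p Φ c i (mem_Icc.1 hi).1])]
    exact hG.ineq _ m hm

lemma MUF_ne (x z : ℂ) (hx : ‖x‖ ≤ 1) (hz : z ∈ ball (0 : ℂ) 1) : 1 - x * z ≠ 0 := by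
  intro h
  have h1 : x * z = 1 := (sub_eq_zero.1 h).symm
  have h2 : ‖x * z‖ < 1 := by
    rw [norm_mul]
    have hz' : ‖z‖ < 1 := mem_ball_zero_iff.1 hz
    calc ‖x‖ * ‖z‖ ≤ 1 * ‖z‖ := by gcongr
      _ < 1 := by rw [one_mul]; exact hz'
  rw [h1, norm_one] at h2
  exact lt_irrefl _ h2

lemma MUF_geom (x : ℂ) (hx : ‖x‖ ≤ 1) : Ser (fun n => x ^ n) (fun z => (1 - x * z)⁻¹) := by
  intro z hz
  have h2 : ‖x * z‖ < 1 := by
    rw [norm_mul]
    have hz' : ‖z‖ < 1 := mem_ball_zero_iff.1 hz
    calc ‖x‖ * ‖z‖ ≤ 1 * ‖z‖ := by gcongr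
      _ < 1 := by rw [one_mul]; exact hz'
  have h := hasSum_geometric_of_norm_lt_one h2
  have e : (fun n : ℕ => x ^ n * z ^ n) = fun n => (x * z) ^ n := by
    funext n
    rw [mul_pow]
  rw [e]
  exact h

lemma MUF_ser (x y : ℂ) (hx : ‖x‖ ≤ 1) (hy : ‖y‖ ≤ 1) (a : ℕ → ℂ) (h : ℂ → ℂ) (ha : Ser a h) :
    Ser (gm x y a) (fun z => z * h z / ((1 - x * z) * (1 - y * z))) := by
  have s1 : Ser (geo x y) (fun z => (1 - x * z)⁻¹ * (1 - y * z)⁻¹) :=
    CO3 _ _ _ _ (MUF_geom x hx) (MUF_geom y hy)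
  have s2 := CO3 _ _ _ _ ha s1
  -- multiplication by `z`
  intro z hz
  have h2 := s2 z hz
  have h3 := h2.mul_left z
  have e : z * (h z * ((1 - x * z)⁻¹ * (1 - y * z)⁻¹)) = z * h z / ((1 - x * z) * (1 - y * z)) := by
    rw [div_eq_mul_inv, mul_inv]
    ring
  simp only at h3
  rw [e] at h3
  have h4 : HasSum (fun n => gm x y a (n + 1) * z ^ (n + 1)) (z * h z / ((1 - x * z) * (1 - y * z))) := by
    have e2 : (fun n => gm x y a (n + 1) * z ^ (n + 1)) =
        fun n => z * ((∑ m ∈ range (n + 1), a m * geo x y (n - m)) * z ^ n) := by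
      funext n
      have : gm x y a (n + 1) = ∑ m ∈ range (n + 1), a m * geo x y (n - m) := by
        unfold gm
        refine Finset.sum_congr rfl fun m _ => ?_
        rw [show n + 1 - 1 - m = n - m by omega]
        ring
      rw [this, pow_succ]
      ring
    rw [e2]
    exact h3
  have h5 := (hasSum_nat_add_iff (f := fun n => gm x y a n * z ^ n) 1).1 h4
  rw [Finset.sum_range_one, MUL_gm0, zero_mul, add_zero] at h5
  exact h5

/-- Multiplication by `z/((1-xz)(1-yz))` raises `p` by one. -/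
theorem MUF (x y : ℂ) (hx : ‖x‖ ≤ 1) (hy : ‖y‖ ≤ 1) (p : ℕ) (h : ℂ → ℂ) (hh : Inv p h) :
    Inv (p + 1) (fun z => z * h z / ((1 - x * z) * (1 - y * z))) := by
  obtain ⟨hd, Φ, c, hG, hc⟩ := hh
  have hFd : DifferentiableOn ℂ (fun z => z * h z / ((1 - x * z) * (1 - y * z))) (ball 0 1) := by
    intro z hz
    have h1 := MUF_ne x z hx hz
    have h2 := MUF_ne y z hy hz
    refine DifferentiableWithinAt.div ?_ ?_ (mul_ne_zero h1 h2)
    · exact differentiableWithinAt_id.mul (hd z hz)
    · exact ((differentiableWithinAt_const 1).sub ((differentiableWithinAt_const x).mul differentiableWithinAt_id)).mul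
        ((differentiableWithinAt_const 1).sub ((differentiableWithinAt_const y).mul differentiableWithinAt_id))
  refine ⟨hFd, psi x y Φ, fun m => if m = 1 then N2b689f5b.coeff h 0 else c (m - 1), MUF_goo x y hx hy p Φ hG, ?_⟩
  intro n _
  have e := CO2 _ _ _ (CO1 _ hFd) (MUF_ser x y hx hy _ h (CO1 h hd))
  rw [congrFun e n, MUF_cmb]
  unfold gm
  refine Finset.sum_congr rfl fun r _ => ?_
  congr 1
  change N2b689f5b.coeff h r =
    ∑ m ∈ range (p + 1), (fun m => if m = 1 then N2b689f5b.coeff h 0 else c (m - 1)) (m + 1) * one0 Φ m r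
  rcases Nat.eq_zero_or_pos r with h0 | h0
  · subst h0
    rw [Finset.sum_range_succ']
    rw [Finset.sum_eq_zero (fun m _ => by
      have : one0 Φ (m + 1) 0 = 0 := by
        unfold one0
        rw [if_neg (by omega)]
        exact hG.low (m + 1) 0 (by omega)
      rw [this, mul_zero])]
    simp [one0]
  · rw [MUF_low p Φ (fun m => if m = 1 then N2b689f5b.coeff h 0 else c (m - 1)) r h0, hc r h0]
    unfold cmb
    refine Finset.sum_congr rfl fun m hm => ?_
    have h5 := (mem_Icc.1 hm).1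
    change c m * Φ m r = (if m + 1 = 1 then N2b689f5b.coeff h 0 else c (m + 1 - 1)) * Φ m r
    rw [if_neg (by omega), show m + 1 - 1 = m by omega]

/-- Constants. -/
theorem inv_const (a : ℂ) : Inv 0 (fun _ => a) := by
  refine ⟨differentiableOn_const a, fun m n => if n = m then 1 else 0, fun _ => 0, ⟨?_, ?_, ?_⟩, ?_⟩
  · intro m n h
    rw [if_neg (by omega)]
  · intro m
    rw [if_pos rfl]
  · intro c n _
    simp [cmb]
  · intro n hn
    have e0 : cmb 0 (fun m n => if n = m then (1 : ℂ) else 0) (fun _ => 0) n = 0 := by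
      simp [cmb]
    rw [e0]
    have h1 : Ser (N2b689f5b.coeff (fun _ : ℂ => a)) (fun _ => a) := CO1 _ (differentiableOn_const a)
    have h2 : Ser (fun n => a * (if n = 0 then (1 : ℂ) else 0)) (fun _ : ℂ => a * 1) := by
      refine ITE_ser_mul a (fun n => if n = 0 then (1 : ℂ) else 0) (fun _ => 1) ?_
      intro z _
      have h := hasSum_ite_eq 0 (1 : ℂ)
      have e2 : (fun n : ℕ => (if n = 0 then (1 : ℂ) else 0) * z ^ n) = fun n => if n = 0 then (1 : ℂ) else 0 := by
        funext n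
        by_cases h : n = 0
        · subst h
          simp
        · simp [h]
      rw [e2]
      exact h
    rw [mul_one] at h2
    rw [congrFun (CO2 _ _ _ h1 h2) n, if_neg (by omega), mul_zero]

/-- Polynomials of a function `φ` with `Re (c (1-xz)(1-yz) φ'(z)) > 0`. -/
theorem inv_cvd (φ : ℂ → ℂ) (x y c : ℂ) (hφ : DifferentiableOn ℂ φ (ball 0 1)) (hx : ‖x‖ ≤ 1) (hy : ‖y‖ ≤ 1)
    (hpos : ∀ z ∈ ball (0 : ℂ) 1, 0 < (c * ((1 - x * z) * (1 - y * z)) * deriv φ z).re) (p : ℕ) :
    ∀ P : Polynomial ℂ, P.natDegree ≤ p → Inv p (fun z => P.eval (φ z)) := by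
  have hopen : IsOpen (ball (0 : ℂ) 1) := isOpen_ball
  have hφ' : DifferentiableOn ℂ (deriv φ) (ball 0 1) := hφ.deriv hopen
  induction p with
  | zero =>
    intro P hP
    rw [Polynomial.eq_C_of_natDegree_le_zero hP]
    simp only [Polynomial.eval_C]
    exact inv_const _
  | succ p ih =>
    intro P hP
    have hc : c ≠ 0 := by
      intro h
      have h1 := hpos 0 (mem_ball_self one_pos)
      rw [h] at h1
      simp at h1
    have hd : (Polynomial.C c⁻¹ * Polynomial.derivative P).natDegree ≤ p := by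
      refine (Polynomial.natDegree_C_mul_le _ _).trans ?_
      exact (Polynomial.natDegree_derivative_le P).trans (by omega)
    have h1 := MUF x y hx hy p _ (ih _ hd)
    refine inv_step (p + 1) _ _ (fun z => c * ((1 - x * z) * (1 - y * z)) * deriv φ z) h1 ?_ ?_ hpos ?_
    · intro z hz
      exact (P.differentiable.differentiableAt.comp_differentiableWithinAt z (hφ z hz))
    · intro z hz
      refine DifferentiableWithinAt.mul ?_ (hφ' z hz)
      exact (differentiableWithinAt_const c).mul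
        (((differentiableWithinAt_const 1).sub ((differentiableWithinAt_const x).mul differentiableWithinAt_id)).mul
        ((differentiableWithinAt_const 1).sub ((differentiableWithinAt_const y).mul differentiableWithinAt_id)))
    · intro z hz
      have hz1 : HasDerivAt φ (deriv φ z) z := ((hφ z hz).differentiableAt (hopen.mem_nhds hz)).hasDerivAt
      have hz2 : HasDerivAt (fun z => P.eval (φ z)) ((Polynomial.derivative P).eval (φ z) * deriv φ z) z :=
        (P.hasDerivAt (φ z)).comp z hz1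
      rw [hz2.deriv, Polynomial.eval_mul, Polynomial.eval_C]
      have hA : (1 - x * z) * (1 - y * z) ≠ 0 := mul_ne_zero (MUF_ne x z hx hz) (MUF_ne y z hy hz)
      calc z * ((Polynomial.derivative P).eval (φ z) * deriv φ z)
          = (c * c⁻¹) * (((1 - x * z) * (1 - y * z)) / ((1 - x * z) * (1 - y * z))) *
            (z * ((Polynomial.derivative P).eval (φ z) * deriv φ z)) := by
            rw [mul_inv_cancel₀ hc, div_self hA, one_mul, one_mul]
        _ = _ := by
            rw [div_eq_mul_inv, div_eq_mul_inv]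
            ring

end Pool.Agent.GD
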