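import Pool.Agent.helper65.GD.NUM2
import Pool.Agent.helper65.GD.ITE

set_option autoImplicit false

/-! # Multiplication by `z/((1-xz)(1-yz))` -/

namespace Pool.Agent.GD

open Finset Metric Filter Topology

/-- The coefficients of `1/((1-xz)(1-yz))`. -/
noncomputable def geo (x y : ℂ) (n : ℕ) : ℂ := ∑ a ∈ range (n + 1), x ^ a * y ^ (n - a)

lemma MUL_geo0 (x y : ℂ) : geo x y 0 = 1 := by
  simp [geo]

lemma MUL_geos (x y : ℂ) (n : ℕ) : geo x y (n + 1) = y * geo x y n + x ^ (n + 1) := by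
  unfold geo
  rw [Finset.sum_range_succ, Finset.mul_sum]
  congr 1
  · refine Finset.sum_congr rfl fun a ha => ?_
    have := mem_range.1 ha
    rw [show n + 1 - a = (n - a) + 1 by omega, pow_succ]
    ring
  · simp

lemma MUL_geo1 (x y : ℂ) : geo x y 1 = x + y := by
  rw [show (1 : ℕ) = 0 + 1 by rfl, MUL_geos, MUL_geo0]
  ring

lemma MUL_geo2 (x y : ℂ) (n : ℕ) : geo x y (n + 2) = (x + y) * geo x y (n + 1) - x * y * geo x y n := by
  rw [show n + 2 = (n + 1) + 1 by ring, MUL_geos x y (n + 1), MUL_geos x y n]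
  ring

lemma MUL_geon (x y : ℂ) (hx : ‖x‖ ≤ 1) (hy : ‖y‖ ≤ 1) (n : ℕ) : ‖geo x y n‖ ≤ (n : ℝ) + 1 := by
  unfold geo
  refine (norm_sum_le _ _).trans ?_
  have : ∑ a ∈ range (n + 1), ‖x ^ a * y ^ (n - a)‖ ≤ ∑ _a ∈ range (n + 1), (1 : ℝ) := by
    refine Finset.sum_le_sum fun a _ => ?_
    rw [norm_mul, norm_pow, norm_pow]
    exact mul_le_one₀ (pow_le_one₀ (norm_nonneg _) hx) (pow_nonneg (norm_nonneg _) _) (pow_le_one₀ (norm_nonneg _) hy)
  refine this.trans (le_of_eq ?_)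
  simp

/-- The Cauchy product with `geo`, shifted. -/
noncomputable def gm (x y : ℂ) (h : ℕ → ℂ) (n : ℕ) : ℂ := ∑ r ∈ range n, geo x y (n - 1 - r) * h r

lemma MUL_gm0 (x y : ℂ) (h : ℕ → ℂ) : gm x y h 0 = 0 := by
  simp [gm]

lemma MUL_gm1 (x y : ℂ) (h : ℕ → ℂ) : gm x y h 1 = h 0 := by
  unfold gm
  rw [Finset.sum_range_one]
  simp [MUL_geo0]

lemma MUL_gm2 (x y : ℂ) (h : ℕ → ℂ) (n : ℕ) :
    gm x y h (n + 2) = (x + y) * gm x y h (n + 1) - x * y * gm x y h n + h (n + 1) := by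
  unfold gm
  rw [Finset.sum_range_succ, Finset.sum_range_succ, Finset.sum_range_succ _ n]
  have e : ∑ r ∈ range n, geo x y (n + 2 - 1 - r) * h r =
      (x + y) * ∑ r ∈ range n, geo x y (n + 1 - 1 - r) * h r - x * y * ∑ r ∈ range n, geo x y (n - 1 - r) * h r := by
    rw [Finset.mul_sum, Finset.mul_sum, ← Finset.sum_sub_distrib]
    refine Finset.sum_congr rfl fun r hr => ?_
    have := mem_range.1 hr
    rw [show n + 2 - 1 - r = (n - 1 - r) + 2 by omega, show n + 1 - 1 - r = (n - 1 - r) + 1 by omega, MUL_geo2]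
    ring
  rw [e, show n + 2 - 1 - n = 1 by omega, show n + 2 - 1 - (n + 1) = 0 by omega, show n + 1 - 1 - n = 0 by omega,
    MUL_geo0, MUL_geo1]
  ring

/-- The first part of the sum. -/
lemma MUL_first (x y : ℂ) (h : ℕ → ℂ) (p n : ℕ) (hn : p + 2 ≤ n) :
    ∑ r ∈ range (p + 1), geo x y (n - 1 - r) * h r =
      geo x y (n - 1 - p) * gm x y h (p + 1) - x * y * geo x y (n - 2 - p) * gm x y h p := by
  induction p with
  | zero =>
    rw [Finset.sum_range_one, MUL_gm1, MUL_gm0]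
    simp
  | succ p ih =>
    rw [Finset.sum_range_succ, ih (by omega), MUL_gm2]
    have e1 : geo x y (n - 1 - p) = (x + y) * geo x y (n - 1 - (p + 1)) - x * y * geo x y (n - 2 - (p + 1)) := by
      rw [show n - 1 - p = (n - 2 - (p + 1)) + 2 by omega, MUL_geo2,
        show n - 2 - (p + 1) + 1 = n - 1 - (p + 1) by omega]
    have e2 : n - 2 - p = n - 1 - (p + 1) := by omega
    rw [e1, e2]
    ring

lemma MUL_shift (p : ℕ) (a : ℕ → ℝ) (u : ℕ → ℝ) (h0 : a 0 = 0) (h1 : ∀ i, p < i → a i = 0) (hu : u 0 = 0) :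
    ∑ i ∈ Icc 1 p, a i * (u (i + 1) + 2 * u i + u (i - 1)) =
      ∑ j ∈ Icc 1 (p + 1), (a (j - 1) + 2 * a j + a (j + 1)) * u j := by
  have hI : ∀ (q : ℕ) (f : ℕ → ℝ), ∑ i ∈ Icc 1 q, f i = ∑ i ∈ range q, f (i + 1) := by
    intro q f
    rw [Finset.range_eq_Ico, Finset.sum_Ico_add' f 0 q 1]
    refine Finset.sum_congr ?_ fun _ _ => rfl
    ext x
    simp only [mem_Icc, mem_Ico]
    omega
  rw [hI, hI]
  have t1 : ∑ i ∈ range p, a (i + 1) * u (i + 1 + 1) = ∑ j ∈ range (p + 1), a (j + 1 - 1) * u (j + 1) := by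
    rw [Finset.sum_range_succ']
    simp [h0]
  have t2 : ∑ i ∈ range p, a (i + 1) * u (i + 1) = ∑ j ∈ range (p + 1), a (j + 1) * u (j + 1) := by
    rw [Finset.sum_range_succ, h1 (p + 1) (by omega)]
    simp
  have t3 : ∑ i ∈ range p, a (i + 1) * u (i + 1 - 1) = ∑ j ∈ range (p + 1), a (j + 1 + 1) * u (j + 1) := by
    rw [Finset.sum_range_succ, h1 (p + 1 + 1) (by omega), zero_mul, add_zero]
    rcases Nat.eq_zero_or_pos p with hp | hp
    · subst hp
      simp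
    · obtain ⟨q, rfl⟩ : ∃ q, p = q + 1 := ⟨p - 1, by omega⟩
      rw [Finset.sum_range_succ', Finset.sum_range_succ, h1 (q + 1 + 1) (by omega)]
      simp [hu]
  have s1 : ∑ i ∈ range p, a (i + 1) * (u (i + 1 + 1) + 2 * u (i + 1) + u (i + 1 - 1)) =
      ∑ i ∈ range p, a (i + 1) * u (i + 1 + 1) + 2 * ∑ i ∈ range p, a (i + 1) * u (i + 1) +
        ∑ i ∈ range p, a (i + 1) * u (i + 1 - 1) := by
    rw [Finset.mul_sum, ← Finset.sum_add_distrib, ← Finset.sum_add_distrib]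
    refine Finset.sum_congr rfl fun i _ => by ring
  have s2 : ∑ j ∈ range (p + 1), (a (j + 1 - 1) + 2 * a (j + 1) + a (j + 1 + 1)) * u (j + 1) =
      ∑ j ∈ range (p + 1), a (j + 1 - 1) * u (j + 1) + 2 * ∑ j ∈ range (p + 1), a (j + 1) * u (j + 1) +
        ∑ j ∈ range (p + 1), a (j + 1 + 1) * u (j + 1) := by
    rw [Finset.mul_sum, ← Finset.sum_add_distrib, ← Finset.sum_add_distrib]
    refine Finset.sum_congr rfl fun i _ => by ring
  rw [s1, s2, t1, t2, t3]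

/-- The main inequality. -/
lemma MUL_main (hA : ∀ p m i : ℕ, 1 ≤ i → i ≤ p → p < m → 0 ≤ AA p m i) (x y : ℂ) (hx : ‖x‖ ≤ 1) (hy : ‖y‖ ≤ 1)
    (p : ℕ) (h : ℕ → ℂ) (hh : ∀ m, p < m → ‖h m‖ ≤ ∑ i ∈ Icc 1 p, AA p m i * ‖h i‖) (n : ℕ) (hn : p + 1 < n) :
    ‖gm x y h n‖ ≤ ∑ j ∈ Icc 1 (p + 1), AA (p + 1) n j * ‖gm x y h j‖ := by
  set F := gm x y h with hF
  have hs : ‖x + y‖ ≤ 2 := (norm_add_le _ _).trans (by linarith)
  have hπ : ‖x * y‖ ≤ 1 := by
    rw [norm_mul]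
    exact mul_le_one₀ hx (norm_nonneg _) hy
  -- `h` in terms of `F`
  have hhF : ∀ i, 1 ≤ i → ‖h i‖ ≤ ‖F (i + 1)‖ + 2 * ‖F i‖ + ‖F (i - 1)‖ := by
    intro i hi
    obtain ⟨q, rfl⟩ : ∃ q, i = q + 1 := ⟨i - 1, by omega⟩
    have e : h (q + 1) = F (q + 2) - (x + y) * F (q + 1) + x * y * F q := by
      rw [hF, MUL_gm2]
      ring
    rw [e, show q + 1 - 1 = q by omega]
    calc ‖F (q + 2) - (x + y) * F (q + 1) + x * y * F q‖
        ≤ ‖F (q + 2) - (x + y) * F (q + 1)‖ + ‖x * y * F q‖ := norm_add_le _ _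
      _ ≤ (‖F (q + 2)‖ + ‖(x + y) * F (q + 1)‖) + ‖x * y * F q‖ := by
          gcongr
          exact norm_sub_le _ _
      _ ≤ (‖F (q + 2)‖ + 2 * ‖F (q + 1)‖) + 1 * ‖F q‖ := by
          rw [norm_mul, norm_mul (x * y)]
          gcongr
      _ = ‖F (q + 1 + 1)‖ + 2 * ‖F (q + 1)‖ + ‖F q‖ := by rw [one_mul]
  -- the bound for `h m`
  have hm : ∀ m, p < m → ‖h m‖ ≤ ∑ j ∈ Icc 1 (p + 1), c3 p m j * ‖F j‖ := by
    intro m hm
    have h1 : ∑ i ∈ Icc 1 p, AA p m i * ‖h i‖ ≤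
        ∑ i ∈ Icc 1 p, ae p m i * (‖F (i + 1)‖ + 2 * ‖F i‖ + ‖F (i - 1)‖) := by
      refine Finset.sum_le_sum fun i hi => ?_
      have hi' := mem_Icc.1 hi
      unfold ae
      rw [if_pos hi']
      exact mul_le_mul_of_nonneg_left (hhF i hi'.1) (hA p m i hi'.1 hi'.2 hm)
    have h2 := MUL_shift p (ae p m) (fun i => ‖F i‖) (by simp [ae]) (fun i hi => by
      unfold ae
      rw [if_neg (by omega)]) (by
      change ‖F 0‖ = 0
      rw [hF, MUL_gm0, norm_zero])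
    exact ((hh m hm).trans h1).trans (le_of_eq h2)
  -- splitting
  have hsplit : F n = (geo x y (n - 1 - p) * F (p + 1) - x * y * geo x y (n - 2 - p) * F p) +
      ∑ m ∈ Ioo p n, geo x y (n - 1 - m) * h m := by
    have e : F n = ∑ r ∈ range n, geo x y (n - 1 - r) * h r := rfl
    rw [e, ← MUL_first x y h p n (by omega)]
    have hr : range n = range (p + 1) ∪ Ioo p n := by
      ext a
      simp only [mem_range, mem_union, mem_Ioo]
      omega
    have hd : Disjoint (range (p + 1)) (Ioo p n) := by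
      rw [Finset.disjoint_left]
      intro a ha ha'
      simp only [mem_range, mem_Ioo] at ha ha'
      omega
    rw [hr, Finset.sum_union hd]
  have hcast : ∀ m : ℕ, m < n → ‖geo x y (n - 1 - m)‖ ≤ (n : ℝ) - m := by
    intro m hm
    refine (MUL_geon x y hx hy _).trans (le_of_eq ?_)
    rw [Nat.cast_sub (by omega), Nat.cast_sub (by omega)]
    push_cast
    ring
  have hB1 : ‖geo x y (n - 1 - p) * F (p + 1) - x * y * geo x y (n - 2 - p) * F p‖ ≤
      ((n : ℝ) - p) * ‖F (p + 1)‖ + ((n : ℝ) - p - 1) * ‖F p‖ := by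
    refine (norm_sub_le _ _).trans ?_
    rw [norm_mul, norm_mul, norm_mul (x * y)]
    have h1 := hcast p (by omega)
    have h2 : ‖geo x y (n - 2 - p)‖ ≤ (n : ℝ) - p - 1 := by
      have h3 := hcast (p + 1) (by omega)
      rw [show n - 1 - (p + 1) = n - 2 - p by omega] at h3
      push_cast at h3
      linarith
    have h4 : ‖x * y‖ * ‖geo x y (n - 2 - p)‖ ≤ (n : ℝ) - p - 1 := by
      calc ‖x * y‖ * ‖geo x y (n - 2 - p)‖ ≤ 1 * ‖geo x y (n - 2 - p)‖ := by gcongr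
        _ ≤ (n : ℝ) - p - 1 := by rw [one_mul]; exact h2
    gcongr
  have hB2 : ‖∑ m ∈ Ioo p n, geo x y (n - 1 - m) * h m‖ ≤
      ∑ j ∈ Icc 1 (p + 1), (∑ m ∈ Ioo p n, ((n : ℝ) - m) * c3 p m j) * ‖F j‖ := by
    refine (norm_sum_le _ _).trans ?_
    have h1 : ∑ m ∈ Ioo p n, ‖geo x y (n - 1 - m) * h m‖ ≤
        ∑ m ∈ Ioo p n, ((n : ℝ) - m) * ∑ j ∈ Icc 1 (p + 1), c3 p m j * ‖F j‖ := by
      refine Finset.sum_le_sum fun m hm' => ?_
      have hm'' := mem_Ioo.1 hm'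
      rw [norm_mul]
      have h3 := hcast m hm''.2
      have h4 : (0 : ℝ) ≤ (n : ℝ) - m := (norm_nonneg _).trans h3
      exact mul_le_mul h3 (hm m hm''.1) (norm_nonneg _) h4
    refine h1.trans (le_of_eq ?_)
    simp only [Finset.mul_sum, Finset.sum_mul]
    rw [Finset.sum_comm]
    refine Finset.sum_congr rfl fun j _ => Finset.sum_congr rfl fun m _ => by ring
  -- the low order terms
  have hlow : ((n : ℝ) - p) * ‖F (p + 1)‖ + ((n : ℝ) - p - 1) * ‖F p‖ = ∑ j ∈ Icc 1 (p + 1), eb p n j * ‖F j‖ := by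
    unfold eb
    simp only [add_mul, ite_mul, zero_mul, Finset.sum_add_distrib]
    rw [Finset.sum_ite_eq', Finset.sum_ite_eq', if_pos (by rw [mem_Icc]; omega)]
    congr 1
    by_cases hp : 1 ≤ p
    · rw [if_pos (by rw [mem_Icc]; omega)]
    · have : p = 0 := by omega
      rw [if_neg (by rw [mem_Icc]; omega), this, hF, MUL_gm0, norm_zero, mul_zero]
  calc ‖F n‖ ≤ (((n : ℝ) - p) * ‖F (p + 1)‖ + ((n : ℝ) - p - 1) * ‖F p‖) +
        ∑ j ∈ Icc 1 (p + 1), (∑ m ∈ Ioo p n, ((n : ℝ) - m) * c3 p m j) * ‖F j‖ := by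
        rw [hsplit]
        exact (norm_add_le _ _).trans (add_le_add hB1 hB2)
    _ = ∑ j ∈ Icc 1 (p + 1), AA (p + 1) n j * ‖F j‖ := by
        rw [hlow, ← Finset.sum_add_distrib]
        refine Finset.sum_congr rfl fun j hj => ?_
        have hj' := mem_Icc.1 hj
        rw [← add_mul, NUM2 p j hj'.1 hj'.2 n hn]

end Pool.Agent.GD
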