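import Mathlib
import Pool.Prelude.Def_F_2ad3b08c

/-!
# Goodman's inequality for multivalent starlike functions (MP_ea335c_an)

Conventions. `p ≥ 1`, `k ≥ 1`, `n = p + k`, `i = p - j` with `1 ≤ j ≤ p`; `G` and `H = 1/G` are sequences of
coefficients. Row `XX`: `theorem XX (h1 : YY_stmt) ... : XX_stmt` in namespace `Pool.Agent.GD`, file
`Pool/Agent/<seat>/GD/XX.lean`, importing this file. Sums are over `Finset.range` etc. A complete proof of every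
row is in its docstring. All statements were checked numerically.
-/

set_option autoImplicit false

namespace Pool.Agent.GD

open Finset Metric Filter Topology

/-- `G` are the coefficients of `exp (s ∑ μ_m z^m / m)`: `G_0 = 1`, `k G_k = s ∑_{m<k} μ_{k-m} G_m`. -/
def Rec (s : ℂ) (μ G : ℕ → ℂ) : Prop :=
  G 0 = 1 ∧ ∀ k : ℕ, (k : ℂ) * G k = s * ∑ m ∈ range k, μ (k - m) * G m

/-- Finitely many weights `w l ≥ 0` of sum `1` at points `x l` of the unit circle. -/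
def Atomic (N : ℕ) (w : Fin N → ℝ) (x : Fin N → ℂ) : Prop :=
  (∀ l, 0 ≤ w l) ∧ ∑ l, w l = 1 ∧ ∀ l, ‖x l‖ = 1

/-- The moments. -/
noncomputable def mom {N : ℕ} (w : Fin N → ℝ) (x : Fin N → ℂ) (m : ℕ) : ℂ := ∑ l, (w l : ℂ) * x l ^ m

/-- `μ` is a pointwise limit of moment sequences. -/
def Approx (μ : ℕ → ℂ) : Prop :=
  ∀ (M : ℕ) (ε : ℝ), 0 < ε → ∃ (N : ℕ) (w : Fin N → ℝ) (x : Fin N → ℂ), Atomic N w x ∧
    ∀ m ≤ M, ‖mom w x m - μ m‖ < ε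

/-- `G_k + 2 ∑_{m<k} y^{k-m} G_m`, the coefficient of `z^k` in `G(z) (1+yz)/(1-yz)`. -/
noncomputable def pol (G : ℕ → ℂ) (k : ℕ) (y : ℂ) : ℂ := G k + 2 * ∑ m ∈ range k, y ^ (k - m) * G m

/-- `s(s+1)...(s+a-1)/a!`. -/
noncomputable def cc (s : ℝ) (a : ℕ) : ℝ := ∏ q ∈ range a, (s + q) / (q + 1)

/-- The weight `∏ cc(s_l, a_l)` of a multi-index. -/
noncomputable def wt {N : ℕ} (s : Fin N → ℝ) (a : Fin N →₀ ℕ) : ℝ := ∏ l, cc (s l) (a l)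

/-- The monomial `∏ x_l^{a_l}`. -/
noncomputable def mon {N : ℕ} (x : Fin N → ℂ) (a : Fin N →₀ ℕ) : ℂ := ∏ l, x l ^ a l

/-- The multi-indices of degree `k`. -/
noncomputable def ix (N k : ℕ) : Finset (Fin N →₀ ℕ) := finsuppAntidiag univ k

/-- The coefficient `α_j` (with `i = p - j`, `k = n - p`). -/
noncomputable def al (p k i : ℕ) (G H : ℕ → ℂ) : ℂ :=
  ∑ m ∈ range (i + 1), G (k + m) * H (i - m) - (k : ℂ) / (2 * (p + k)) * (G k * H i)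

/-- The coefficient `β_j` (with `i = p - j`, `k = n - p`). -/
noncomputable def be (p k i : ℕ) (G H : ℕ → ℂ) : ℂ :=
  ∑ t ∈ Icc 1 (min i k), G (k - t) * (starRingEnd ℂ) (H (i - t)) +
    (k : ℂ) / (2 * (p + k)) * (G k * (starRingEnd ℂ) (H i))

/-- Goodman's number `A(p,n,j)`. -/
noncomputable def AA (p n j : ℕ) : ℝ :=
  (2 * j * (n + p).factorial : ℝ) /
    ((p - j).factorial * (p + j).factorial * (n - p - 1).factorial * ((n : ℝ) ^ 2 - (j : ℝ) ^ 2))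

/-- `∑ a_n z^n = f(z)` in the unit disc. -/
def Ser (a : ℕ → ℂ) (f : ℂ → ℂ) : Prop := ∀ z ∈ ball (0 : ℂ) 1, HasSum (fun n => a n * z ^ n) (f z)

/-- The coefficients `1, 2 μ_1, 2 μ_2, ...` of a function with positive real part. -/
def dbl (μ : ℕ → ℂ) (n : ℕ) : ℂ := if n = 0 then 1 else 2 * μ n

/-- Conjugate symmetric coefficients `N_1, ..., N_{2p-1}`. -/
def CSym (p : ℕ) (b : ℕ → ℂ) : Prop :=
  b 0 = 0 ∧ (∀ q, 2 * p ≤ q → b q = 0) ∧ ∀ q, q ≤ 2 * p → b (2 * p - q) = (starRingEnd ℂ) (b q)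

/-- The condition on `(p, k, i)`: `i² n² ≤ j² (2p+1)(n² - p²)`, `n = p + k`, `j = p - i`, or `p = 3`. -/
def Cnd (p k i : ℕ) : Prop :=
  i ^ 2 * (p + k) ^ 2 ≤ (p - i) ^ 2 * (2 * p + 1) * (k * (2 * p + k)) ∨ p = 3

/-- A `p`-valently starlike function: `f` is analytic in the unit disc, `f(0) = 0`, `f` has exactly `p` zeros
(counted with multiplicity) in the disc, and `Re (z f'(z)/f(z)) > 0` in an annulus `ρ < |z| < 1`. -/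
structure Starlike (f : ℂ → ℂ) (p : ℕ) : Prop where
  one_le : 1 ≤ p
  analytic : DifferentiableOn ℂ f (ball 0 1)
  map_zero : f 0 = 0
  zeros : ∃ (a : Fin p → ℂ) (g : ℂ → ℂ), (∀ l, a l ∈ ball (0 : ℂ) 1) ∧ DifferentiableOn ℂ g (ball 0 1) ∧
    (∀ z ∈ ball (0 : ℂ) 1, g z ≠ 0) ∧ ∀ z ∈ ball (0 : ℂ) 1, f z = (∏ l, (z - a l)) * g z
  starlike : ∃ ρ : ℝ, ρ < 1 ∧ ∀ z : ℂ, ρ < ‖z‖ → ‖z‖ < 1 → 0 < (z * deriv f z / f z).re

/-! ## Block 1: power series -/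

/-- (short) Taylor series. `Complex.hasSum_taylorSeries_on_ball` at `c = 0`, `r = 1`; `N2b689f5b.coeff f n` is
`iteratedDeriv n f 0 / n!`. -/
def CO1_stmt : Prop := ∀ f : ℂ → ℂ, DifferentiableOn ℂ f (ball 0 1) → Ser (N2b689f5b.coeff f) f

/-- (short) Uniqueness of the coefficients: if `Ser a f` and `Ser b f` then `a = b`. (E.g. both give
`HasFPowerSeriesOnBall`/`HasFPowerSeriesAt` of `f` at `0` by `hasFPowerSeriesAt_iff` and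
`HasFPowerSeriesAt.eq_formalMultilinearSeries`.) -/
def CO2_stmt : Prop := ∀ (f : ℂ → ℂ) (a b : ℕ → ℂ), Ser a f → Ser b f → a = b

/-- (short) Cauchy product (`tsum_mul_tsum_eq_tsum_sum_range_of_summable_norm` or `HasSum` version; power series
converge absolutely inside the disc: compare with a slightly larger radius, or use that a convergent series of
complex numbers `∑ a_n r^n` makes `a_n r^n` bounded). -/
def CO3_stmt : Prop := ∀ (f g : ℂ → ℂ) (a b : ℕ → ℂ), Ser a f → Ser b g →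
  Ser (fun n => ∑ m ∈ range (n + 1), a m * b (n - m)) (fun z => f z * g z)

/-- (short) Derivative: `z f'(z) = ∑ n a_n z^n`, and `f` is differentiable in the disc. -/
def CO4_stmt : Prop := ∀ (f : ℂ → ℂ) (a : ℕ → ℂ), Ser a f →
  DifferentiableOn ℂ f (ball 0 1) ∧ Ser (fun n => (n : ℂ) * a n) (fun z => z * deriv f z)

/-! ## Block 2: the representation of starlike functions -/

/-- (short-medium) `z ∏_{l ≠ l₀} (z - a_l)(1 - conj(a_l) z)` has conjugate symmetric coefficients. The polynomials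
`F` with `natDegree F ≤ D` and `F.coeff (D - q) = conj (F.coeff q)` (`q ≤ D`), i.e. `F.reflect D = F.map conj`,
are closed under products (`D` adds up, `Polynomial.reflect_mul`); `X` (with `D = 2`) and
`(X - a)(1 - conj a X) = -a + (1+|a|²) X - conj a X²` (with `D = 2`) have this property. The total `D` is
`2 + 2 (p-1) = 2p`; `b 0 = 0` because of the factor `X`, hence `b (2p) = 0`, and `b q = 0` for `q > 2p`. -/
def NPO_stmt : Prop := ∀ (p : ℕ) (a : Fin p → ℂ) (l₀ : Fin p), ∃ b : ℕ → ℂ, CSym p b ∧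
  ∀ z : ℂ, z * ∏ l ∈ univ.erase l₀, ((z - a l) * (1 - (starRingEnd ℂ) (a l) * z)) = ∑ q ∈ range (2 * p), b q * z ^ q

/-- (short-medium) Boundary behaviour of `z d/dz log ((z-a)(1-conj a z))`. With `A = conj a`,
`z/(z-a) - 1 = a/(z-a)` and `conj (a/(z-a)) = A/(conj z - A) = A z/(|z|² - A z)`, so
`Re (z/(z-a) - A z/(1-A z)) - 1 = Re (A z/(|z|² - A z) - A z/(1 - A z)) = Re (A z (1-|z|²)/((|z|²-A z)(1-A z)))`,
of modulus at most `|a| (1-|z|²)/((|z|-|a|)(1-|a|))` for `|a| < |z| < 1`, which is `< ε` for `|z|` near `1`. -/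
def BDY_stmt : Prop := ∀ a ∈ ball (0 : ℂ) 1, ∀ ε : ℝ, 0 < ε → ∃ ρ : ℝ, ρ < 1 ∧ ∀ z : ℂ, ρ < ‖z‖ → ‖z‖ < 1 →
  |(z / (z - a) - (starRingEnd ℂ) a * z / (1 - (starRingEnd ℂ) a * z)).re - 1| < ε

/-- (short) Minimum principle for the real part. Apply the maximum modulus principle
(`Complex.norm_le_of_forall_mem_frontier_norm_le` on `ball 0 r`, `r < 1` large) to `exp (-P)`:
`|exp(-P)| = exp(-Re P) ≤ exp ε`. -/
def MIN_stmt : Prop := ∀ P : ℂ → ℂ, DifferentiableOn ℂ P (ball 0 1) →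
  (∀ ε : ℝ, 0 < ε → ∃ ρ : ℝ, ρ < 1 ∧ ∀ z : ℂ, ρ < ‖z‖ → ‖z‖ < 1 → -ε ≤ (P z).re) →
  ∀ z ∈ ball (0 : ℂ) 1, 0 ≤ (P z).re

/-- (medium) Representation, analytic form. From `BDY`, `MIN`. Let `a, g` be as in `Starlike.zeros`; `f 0 = 0`
gives `l₀` with `a l₀ = 0`. Put `E(z) = ∏_{l ≠ l₀} (1 - conj(a_l) z)` (no zeros in the disc), `c = g(0)`,
`G = g/(c E)`: differentiable, zero-free, `G 0 = 1`, and
`f = c · (z ∏_{l ≠ l₀} (z-a_l)(1-conj(a_l)z)) · G` on the disc. `P(z) := 1 + z G'(z)/(p G(z))`. For `|z| < 1` close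
to `1` all the factors are nonzero and by the logarithmic derivative of the product
`Re (z f'/f) = 1 + ∑_{l ≠ l₀} Re (z/(z-a_l) - conj(a_l) z/(1-conj(a_l) z)) + Re (z G'/G)`, the sum is within `ε` of
`p - 1` for `|z|` near `1` (`BDY` for each `l`), so `p Re P = p + Re (z G'/G) ≥ Re (z f'/f) - ε > -ε`. `MIN` gives
`Re P ≥ 0`. -/
def REP_stmt : Prop := ∀ (f : ℂ → ℂ) (p : ℕ), Starlike f p → ∃ (a : Fin p → ℂ) (l₀ : Fin p) (c : ℂ) (G : ℂ → ℂ),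
  DifferentiableOn ℂ G (ball 0 1) ∧ G 0 = 1 ∧ (∀ z ∈ ball (0 : ℂ) 1, G z ≠ 0) ∧
  (∀ z ∈ ball (0 : ℂ) 1,
    f z = c * ((z * ∏ l ∈ univ.erase l₀, ((z - a l) * (1 - (starRingEnd ℂ) (a l) * z))) * G z)) ∧
  ∀ z ∈ ball (0 : ℂ) 1, 0 ≤ (1 + z * deriv G z / (p * G z)).re

/-- (medium) Representation, coefficients. From `CO1`-`CO4`, `NPO`, `REP`. `G(z) = ∑ G_k z^k` (`CO1`), `G_0 = 1`;
`P(z) = 1 + z G'(z)/(p G(z))` is analytic with `P 0 = 1`, let `dbl μ` be its coefficients (`μ 0 = 1`,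
`μ m = P_m/2` for `m ≥ 1`). `p (P - 1) G = z G'` gives by `CO2`-`CO4`: `k G_k = p ∑_{m<k} 2 μ_{k-m} G_m`, i.e.
`Rec (2p) μ G`. The formula for the coefficients of `f` is the Cauchy product (`CO3`) of the polynomial of `NPO` and
`G`, and `CO2`. -/
def STR_stmt : Prop := ∀ (f : ℂ → ℂ) (p : ℕ), Starlike f p → ∃ (c : ℂ) (b μ G : ℕ → ℂ) (P : ℂ → ℂ),
  CSym p b ∧ Rec (2 * p) μ G ∧ μ 0 = 1 ∧ Ser (dbl μ) P ∧ (∀ z ∈ ball (0 : ℂ) 1, 0 ≤ (P z).re) ∧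
  ∀ n, N2b689f5b.coeff f n = c * ∑ m ∈ range (n + 1), b m * G (n - m)

/-- (medium) Approximation by finite measures. Let `0 < r < 1`, `N ≥ 1`, `x_l = exp(2πi l/N)` (`l < N`),
`v_l = Re P(r conj(x_l)) / N ≥ 0`. Since `Re P(z) = 1 + ∑_{m≥1} (μ_m z^m + conj(μ_m) conj(z)^m)` with absolute
convergence, and `∑_l x_l^m = N` if `N ∣ m` and `0` otherwise, for `0 ≤ k ≤ M < N`
`∑_l v_l x_l^k = r^k μ_k + R`, `|R| ≤ 2 ∑_{m ≥ N - M} |μ_m| r^m` (for `k = 0` too, `μ_0 = 1`), which tends to `0` as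
`N → ∞`. So for given `M`, `ε` first take `r` near `1` (`|r^k μ_k - μ_k|` small for `k ≤ M`), then `N` large, and
finally divide the weights by `W = ∑ v_l` (near `1`) to get sum `1`; `|∑_l v_l x_l^k| ≤ W`. (Instead of the
roots of unity one may use Riemann sums of the integrals of `Re P(r e^{-iθ}) e^{ikθ}`.) -/
def APX_stmt : Prop := ∀ (P : ℂ → ℂ) (μ : ℕ → ℂ), μ 0 = 1 → Ser (dbl μ) P →
  (∀ z ∈ ball (0 : ℂ) 1, 0 ≤ (P z).re) → Approx μ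

/-! ## Block 3: sequences -/

/-- (short) Existence (strong recursion). -/
def EXR_stmt : Prop := ∀ (s : ℂ) (μ : ℕ → ℂ), ∃ G : ℕ → ℂ, Rec s μ G

/-- (short) Continuity in `μ` (strong induction on `k`; divide by `k`). -/
def CTN_stmt : Prop := ∀ (s : ℂ) (μ G : ℕ → ℂ) (ν K : ℕ → ℕ → ℂ),
  (∀ m, Tendsto (fun t => ν t m) atTop (𝓝 (μ m))) → Rec s μ G → (∀ t, Rec s (ν t) (K t)) →
  ∀ k, Tendsto (fun t => K t k) atTop (𝓝 (G k))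

/-- (short) `G · H = 1`. For `n ≥ 1`: `n ∑ G_m H_{n-m} = ∑ m G_m H_{n-m} + ∑ (n-m) G_m H_{n-m}`, insert the two
recursions: both are `± s ∑_{a+b+c=n, c≥1} μ_c G_a H_b`. -/
def GHI_stmt : Prop := ∀ (s : ℂ) (μ G H : ℕ → ℂ), Rec s μ G → Rec (-s) μ H →
  ∀ n, ∑ m ∈ range (n + 1), G m * H (n - m) = if n = 0 then 1 else 0

/-- (medium) Interpolation formula. `f_n = ∑_{m ≤ n} b_m G_{n-m}` and `G H = 1` give
`b_q = ∑_{j ≤ q} f_j H_{q-j}` (and `f_0 = 0`). With `n = p + k`, splitting `q = p - m` (`0 ≤ m < p`) and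
`q = p + m` (`1 ≤ m < p`, `m ≤ k`, `b_{p+m} = conj b_{p-m}`):
`f_n = ∑_{m<p} b_{p-m} G_{k+m} + ∑_{1≤m<p, m≤k} conj(b_{p-m}) G_{k-m}`; insert the formula for `b_{p-m}`; the
coefficient of `f_j` is `∑_{m ≤ i} G_{k+m} H_{i-m}` and that of `conj f_j` is
`∑_{1≤m≤min(i,k)} G_{k-m} conj(H_{i-m})`, `i = p - j`. Finally `b_p` is real (`CSym` with `q = p`), so subtract
`k/(2(p+k)) G_k (b_p - conj b_p) = 0`, `b_p = ∑_{j≤p} f_j H_{p-j}`. -/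
def INT_stmt : Prop := ∀ (p k : ℕ) (b f G H : ℕ → ℂ), 1 ≤ p → 1 ≤ k → CSym p b →
  (∀ n, ∑ m ∈ range (n + 1), G m * H (n - m) = if n = 0 then 1 else 0) →
  (∀ n, f n = ∑ m ∈ range (n + 1), b m * G (n - m)) →
  f (p + k) = ∑ j ∈ Icc 1 p, (al p k (p - j) G H * f j + be p k (p - j) G H * (starRingEnd ℂ) (f j))

/-- (short-medium) Identity 1. For `r = i - l ≥ 1` the recursion of `G` gives
`s ∑_{m<k} μ_{k+r-m} G_m = (k+r) G_{k+r} - s ∑_{0≤t<r} μ_{r-t} G_{k+t}`. Multiply by `H_l` and sum over `l < i`; in the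
double sum exchange: for fixed `t < i`, `∑_{l < i-t} s μ_{i-t-l} H_l = -(i-t) H_{i-t}`. So the left side is
`∑_{t=1}^{i} (k+t) G_{k+t} H_{i-t} + ∑_{t=0}^{i} (i-t) G_{k+t} H_{i-t}`. -/
def IDA_stmt : Prop := ∀ (s : ℂ) (μ G H : ℕ → ℂ) (k i : ℕ), Rec s μ G → Rec (-s) μ H →
  s * ∑ m ∈ range k, ∑ l ∈ range i, μ ((k - m) + (i - l)) * G m * H l =
    (k + i) * ∑ t ∈ range (i + 1), G (k + t) * H (i - t) - k * (G k * H i)

/-- (short-medium) Identity 2 (`μ_{-r} = conj μ_r`, `μ_0 = 1`, `s` real). Put `a = k - m`, `b = i - l`. Terms `a = b`: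
`∑_t G_{k-t} conj H_{i-t}`. Terms `a = b + r`, `r ≥ 1`: for fixed `b ≤ k`,
`s ∑_{r≥1} μ_r G_{k-b-r} = (k-b) G_{k-b}`. Terms `b = a + r`: for fixed `a ≤ i`,
`s ∑_{r≥1} conj(μ_r H_{i-a-r}) = -(i-a) conj H_{i-a}`. -/
def IDB_stmt : Prop := ∀ (s : ℝ) (μ G H : ℕ → ℂ) (k i : ℕ), μ 0 = 1 → Rec s μ G → Rec (-s) μ H →
  (s : ℂ) * ∑ m ∈ range k, ∑ l ∈ range i,
      (if i - l ≤ k - m then μ ((k - m) - (i - l)) else (starRingEnd ℂ) (μ ((i - l) - (k - m)))) *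
        G m * (starRingEnd ℂ) (H l) =
    (s + k - i) * ∑ t ∈ Icc 1 (min i k), G (k - t) * (starRingEnd ℂ) (H (i - t))

/-- (short) Mean value: `2 ∑_{m<k} μ_{k-m} G_m` times `s` is `2 k G_k`. -/
def EGM_stmt : Prop := ∀ (s : ℂ) (N : ℕ) (w : Fin N → ℝ) (x : Fin N → ℂ) (G : ℕ → ℂ) (k : ℕ),
  Atomic N w x → Rec s (mom w x) G → s * ∑ l, (w l : ℂ) * pol G k (x l) = (s + 2 * k) * G k

/-- (medium) Quadratic mean, `s` real. Expand `|G_k + 2 ∑_{m<k} y^{k-m} G_m|²` with `|y| = 1`: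
`|G_k|² + 4 Re (conj G_k ∑_{m<k} μ_{k-m} G_m) + 4 ∑_{m<k} |G_m|² + 8 Re ∑_{l<k} conj G_l ∑_{m<l} μ_{l-m} G_m`, and
`s ∑_{m<l} μ_{l-m} G_m = l G_l`. -/
def QFM_stmt : Prop := ∀ (s : ℝ) (N : ℕ) (w : Fin N → ℝ) (x : Fin N → ℂ) (G : ℕ → ℂ) (k : ℕ),
  Atomic N w x → Rec s (mom w x) G →
  s * ∑ l, w l * ‖pol G k (x l)‖ ^ 2 = (s + 4 * k) * ‖G k‖ ^ 2 + 4 * ∑ m ∈ range k, (s + 2 * m) * ‖G m‖ ^ 2

/-- (short-medium) Variance of `h`. From `EGM`, `QFM` with `s = -2p`. The mean of `h = pol H i` is `((p-i)/p) H_i`, so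
`V := ∑ w ‖h - mean‖² = ∑ w ‖h‖² - |mean|² = -(i²/p²)|H_i|² + (4/p) ∑_{m<i} (p-m)|H_m|² ≥ 0`. Numbers:
`4p ∑_{m<i} (p-m) C(2p,m)² = i² C(2p,i)²` (induction, `i² + 4p(p-i) = (2p-i)²`, `(2p-i) C(2p,i) = (i+1) C(2p,i+1)`).
By strong induction `|H_i| ≤ C(2p,i)` for `i ≤ p` (from `V ≥ 0`; `i = 0` trivial), and then the bound for `V`. -/
def VHB_stmt : Prop := ∀ (p N : ℕ) (w : Fin N → ℝ) (x : Fin N → ℂ) (H : ℕ → ℂ) (i : ℕ), 1 ≤ p → i ≤ p →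
  Atomic N w x → Rec (-(2 * p)) (mom w x) H →
  ‖H i‖ ≤ (2 * p).choose i ∧
  ∑ l, w l * ‖pol H i (x l) - ((p : ℂ) - i) / p * H i‖ ^ 2 ≤
    ((i : ℝ) / p) ^ 2 * (((2 * p).choose i : ℝ) ^ 2 - ‖H i‖ ^ 2)

/-- (short-medium) The case `p = 3`, `i = 2`. `H_1 = -6 μ_1`, `H_2 = 18 μ_1² - 3 μ_2`, `|μ_2 - μ_1²| ≤ 1 - |μ_1|² =: u`
(it is `|∑ w (x-μ_1)²| ≤ ∑ w |x-μ_1|²`), hence `‖H_2‖ ≥ 15 |μ_1|² - 3u = 15 - 18u`. By `EGM`, `QFM` the left side is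
`4 + (8/3)·36(1-u) - (4/9)‖H_2‖²`. The claim is `23.4375 - 96u ≤ (5/48) ‖H_2‖²`: if `u ≥ 5/6` clear; otherwise
`(5/48)(15-18u)² = 23.4375 - 56.25u + 33.75u²`. -/
def V3B_stmt : Prop := ∀ (N : ℕ) (w : Fin N → ℝ) (x : Fin N → ℂ) (H : ℕ → ℂ),
  Atomic N w x → Rec (-6) (mom w x) H →
  ∑ l, w l * ‖pol H 2 (x l) - 1 / 3 * H 2‖ ^ 2 ≤ 49 / 144 * (225 - ‖H 2‖ ^ 2)

/-! ## Block 4: the urn (multi-indices) -/

/-- (medium) First moments. `∑_a wt(a) mon(a) z^{|a|} = ∏_l A_l`, `A_l = ∑_a cc(s_l,a) x_l^a z^a` (power series,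
`PowerSeries.coeff_prod`), and `a cc(s,a) = s ∑_{m=1}^{a} cc(s,a-m)`, so `z A_l' = s_l (∑_{m≥1} x_l^m z^m) A_l`; the
left side is the coefficient of `z^k` in `(z A_l') ∏_{l' ≠ l} A_{l'}`. -/
def PAA_stmt : Prop := ∀ (N : ℕ) (s : Fin N → ℝ) (x : Fin N → ℂ) (l : Fin N) (k : ℕ),
  ∑ a ∈ ix N k, (wt s a : ℂ) * (a l : ℂ) * mon x a =
    s l * ∑ m ∈ range k, x l ^ (k - m) * ∑ a ∈ ix N m, (wt s a : ℂ) * mon x a

/-- (short) From `PAA`: `G_k = ∑_{|a|=k} wt(a) mon(a)` satisfies the recursion (`∑_l a_l = k`), uniqueness by strong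
induction. -/
def PBB_stmt : Prop := ∀ (N : ℕ) (s : Fin N → ℝ) (x : Fin N → ℂ) (S : ℂ) (μ G : ℕ → ℂ),
  (∀ m, S * μ m = ∑ l, (s l : ℂ) * x l ^ m) → Rec S μ G →
  ∀ k, G k = ∑ a ∈ ix N k, (wt s a : ℂ) * mon x a

/-- (short) `∑_{|a|=k} wt(a) = cc(∑ s_l, k)` (for instance `PBB` with `x = 1`, `μ = 1`, or the power series
`(1-z)^{-s}`; both sides satisfy `k c_k = S ∑_{m<k} c_m`). -/
def PCC_stmt : Prop := ∀ (N : ℕ) (s : Fin N → ℝ) (k : ℕ), ∑ a ∈ ix N k, wt s a = cc (∑ l, s l) k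

/-- (medium) Second moments. With `x = 1` and `D = z d/dz`: `D A_l = s_l (z/(1-z)) A_l`,
`D² A_l = (s_l z/(1-z)² + s_l² z²/(1-z)²) A_l`, so `∑_a wt(a) a_l a_m` is the coefficient of `z^k` in
`(s_l s_m z²/(1-z)² + [l=m] s_l z/(1-z)²) ∏ A`; summing with `η_l conj η_m` the first part vanishes, and the
coefficient of `z^k` in `z (1-z)^{-2} ∏ A = z (1-z)^{-S-2}` is `cc(S+2, k-1)`. Same argument for the first moment.
(Any other proof is welcome, e.g. induction on `N`.) -/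
def PDD_stmt : Prop := ∀ (N : ℕ) (s : Fin N → ℝ) (η : Fin N → ℂ) (k : ℕ), 1 ≤ k → ∑ l, (s l : ℂ) * η l = 0 →
  ∑ a ∈ ix N k, (wt s a : ℂ) * ∑ l, η l * (a l : ℂ) = 0 ∧
  ∑ a ∈ ix N k, wt s a * ‖∑ l, η l * (a l : ℂ)‖ ^ 2 = cc (∑ l, s l + 2) (k - 1) * ∑ l, s l * ‖η l‖ ^ 2

/-- (medium) Variance of `g`. From `EGM`, `PAA`, `PBB`, `PCC`, `PDD` with `s_l = 2p w_l` (`∑ s_l = 2p`). Let
`E = ((p+k)/p) G_k` (the mean of `g = pol G k`, `EGM`), `η_l = conj (g(x_l) - E)`, `∑ s_l η_l = 0`,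
`ψ(a) = ∑ η_l a_l`, `V = ∑ w_l ‖g(x_l) - E‖²`, `c = cc(2p,k)`. `PAA`, `PBB`: `∑_a wt a_l mon = s_l (g(x_l) - G_k)/2`,
so `∑_a wt mon ψ = p ∑ w_l η_l (g(x_l) - G_k) = p V`; since `∑ wt ψ = 0` also `∑_a wt (mon - G_k/c) ψ = p V`.
Cauchy-Schwarz: `p² V² ≤ (∑ wt |mon - G_k/c|²)(∑ wt |ψ|²)`; `|mon| = 1`, so the first factor is `c - |G_k|²/c`
(`PBB`, `PCC`), the second is `cc(2p+2,k-1) 2p V` (`PDD`) with
`cc(2p+2,k-1) = cc(2p,k) k (2p+k)/(2p (2p+1))`. `‖G_k‖ ≤ c`: triangle inequality. (`k = 0`: both sides `0`.) -/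
def VGB_stmt : Prop := ∀ (p N : ℕ) (w : Fin N → ℝ) (x : Fin N → ℂ) (G : ℕ → ℂ) (k : ℕ), 1 ≤ p → 1 ≤ k →
  Atomic N w x → Rec (2 * p) (mom w x) G →
  ‖G k‖ ≤ cc (2 * p) k ∧
  ∑ l, w l * ‖pol G k (x l) - ((p : ℂ) + k) / p * G k‖ ^ 2 ≤
    (k : ℝ) * (2 * p + k) / (p ^ 2 * (2 * p + 1)) * (cc (2 * p) k ^ 2 - ‖G k‖ ^ 2)

/-! ## Block 5: the bounds -/

/-- (medium) Covariance formulas, from `EGM`, `IDA`, `IDB` with `s = 2p`, `μ = mom w x` (`μ_0 = 1`). Let `E` denote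
`∑ w_l`, `g = pol G k`, `h = pol H i`; `E g = ((p+k)/p) G_k`, `E h = ((p-i)/p) H_i`,
`E[g h] = G_k H_i + 2 H_i ∑_{m<k} μ_{k-m} G_m + 2 G_k ∑_{l<i} μ_{i-l} H_l + 4 ∑∑ μ_{(k-m)+(i-l)} G_m H_l
 = G_k H_i (1 + (k-i)/p) + 4 ∑∑ ...`, and `∑∑` is given by `IDA`; for `conj h` use `|x| = 1` and `IDB`. The first
sum below is `E[g h] - E g E h`. (Both identities were checked by hand: with `n = p+k`, `j = p-i`,
`2p E[gh] = 4(k+i) ∑_{t≤i} G_{k+t} H_{i-t} + (2p - 2i - 2k) G_k H_i`,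
`2p E[g conj h] = 4(2p+k-i) ∑_{1≤t≤min} G_{k-t} conj H_{i-t} + (2p + 2k - 2i) G_k conj H_i`.) -/
def COV_stmt : Prop := ∀ (p k i N : ℕ) (w : Fin N → ℝ) (x : Fin N → ℂ) (G H : ℕ → ℂ), 1 ≤ p → 1 ≤ k → i < p →
  Atomic N w x → Rec (2 * p) (mom w x) G → Rec (-(2 * p)) (mom w x) H →
  2 * (k + i) * al p k i G H =
    p * ∑ l, (w l : ℂ) * ((pol G k (x l) - ((p : ℂ) + k) / p * G k) * (pol H i (x l) - ((p : ℂ) - i) / p * H i)) +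
      (k : ℂ) * (2 * p + k) * (p - i) / ((p + k) * p) * (G k * H i) ∧
  2 * (2 * p + k - i) * be p k i G H =
    p * ∑ l, (w l : ℂ) * ((pol G k (x l) - ((p : ℂ) + k) / p * G k) *
        (starRingEnd ℂ) (pol H i (x l) - ((p : ℂ) - i) / p * H i)) +
      (k : ℂ) * (2 * p + k) * (p - i) / ((p + k) * p) * (G k * (starRingEnd ℂ) (H i))

/-- (short-medium) Cauchy-Schwarz and Aczel: `‖p ∑ w u v‖ ≤ p √(∑ w‖u‖²) √(∑ w‖v‖²)
≤ κ √((c²-|A|²)(C²-|B|²)) ≤ κ (c C - |A||B|)`. -/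
def ACZ_stmt : Prop := ∀ (N : ℕ) (w : Fin N → ℝ) (u v : Fin N → ℂ) (A B : ℂ) (p κ c C K L : ℝ),
  (∀ l, 0 ≤ w l) → 0 ≤ p → 0 ≤ κ → 0 ≤ K → 0 ≤ L → ‖A‖ ≤ c → ‖B‖ ≤ C →
  ∑ l, w l * ‖u l‖ ^ 2 ≤ K * (c ^ 2 - ‖A‖ ^ 2) → ∑ l, w l * ‖v l‖ ^ 2 ≤ L * (C ^ 2 - ‖B‖ ^ 2) →
  p ^ 2 * (K * L) ≤ κ ^ 2 →
  ‖(p : ℂ) * ∑ l, (w l : ℂ) * (u l * v l) + (κ : ℂ) * (A * B)‖ ≤ κ * (c * C)

/-- (short) Numbers. `cc(2p,k) = (2p+k-1)!/(k! (2p-1)!)`, `C(2p,i) = (2p)!/(i! (2p-i)!)`, `n = p+k`, `j = p-i`. -/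
def NUM_stmt : Prop := ∀ (p k i : ℕ), 1 ≤ p → 1 ≤ k → i < p →
  (k : ℝ) * (2 * p + k) * (p - i) / ((p + k) * p) * (cc (2 * p) k * (2 * p).choose i) / (2 * (k + i)) =
    (2 * p + k - i) / (2 * (p + k)) * AA p (p + k) (p - i) ∧
  (k : ℝ) * (2 * p + k) * (p - i) / ((p + k) * p) * (cc (2 * p) k * (2 * p).choose i) / (2 * (2 * p + k - i)) =
    ((k : ℝ) + i) / (2 * (p + k)) * AA p (p + k) (p - i)

/-- (medium) The bounds for finite measures. From `VHB`, `V3B`, `VGB`, `COV`, `ACZ`, `NUM`. Let `n = p+k`, `j = p-i`,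
`κ = k (2p+k) j/(n p)`, `K = k(2p+k)/(p²(2p+1))` (`VGB`), and `L = j²(2p+1) k(2p+k)/(p² n²)`; `p² K L = κ²`. The
variance of `h` is at most `L (C(2p,i)² - |H_i|²)`: by `VHB` if `i² n² ≤ j² (2p+1) k(2p+k)` (then `i²/p² ≤ L`); if
`p = 3` then `i = 0, 1` satisfy this (`(3+k)² ≤ 28 k(6+k)`) and for `i = 2` use `V3B` and
`49/144 ≤ 7 k(6+k)/(9 (3+k)²)` (equality at `k = 1`; `k(6+k)/(3+k)² = 1 - 9/(3+k)²`). `ACZ` (for the second bound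
with `conj`), `COV`, `NUM`. -/
def KEY_stmt : Prop := ∀ (p k i N : ℕ) (w : Fin N → ℝ) (x : Fin N → ℂ) (G H : ℕ → ℂ), 1 ≤ p → 1 ≤ k → i < p →
  Cnd p k i → Atomic N w x → Rec (2 * p) (mom w x) G → Rec (-(2 * p)) (mom w x) H →
  ‖al p k i G H‖ ≤ (2 * p + k - i) / (2 * (p + k)) * AA p (p + k) (p - i) ∧
  ‖be p k i G H‖ ≤ ((k : ℝ) + i) / (2 * (p + k)) * AA p (p + k) (p - i)

/-- (short-medium) The bound for limits. From `KEY`, `EXR`, `CTN`: choose for `t` a measure with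
`M = t`, `ε = 1/(t+1)`; `al`, `be` are continuous functions of finitely many `G_m`, `H_m`. Add the two bounds:
`(2p+k-i) + (k+i) = 2(p+k)`. -/
def LIM_stmt : Prop := ∀ (p k i : ℕ) (μ G H : ℕ → ℂ), 1 ≤ p → 1 ≤ k → i < p → Cnd p k i → Approx μ →
  Rec (2 * p) μ G → Rec (-(2 * p)) μ H → ‖al p k i G H‖ + ‖be p k i G H‖ ≤ AA p (p + k) (p - i)

/-- (short-medium) The theorem. From `STR`, `APX`, `EXR`, `GHI`, `INT`, `LIM`; `AA` is the coefficient in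
`N2b689f5b.goodmanBound`. For `1 ≤ j ≤ p` put `i = p - j`: either `Cnd p k i` (in particular `i = 0`) and `LIM`
applies, or the coefficient of `f` with index `j` is `0` by hypothesis. -/
def FIN_stmt : Prop := ∀ (f : ℂ → ℂ) (p n : ℕ), Starlike f p → p < n →
  (∀ k ∈ Ico 1 p, (k : ℝ) ^ 2 * (2 * p + 1) * ((n : ℝ) ^ 2 - (p : ℝ) ^ 2) < ((p : ℝ) - k) ^ 2 * (n : ℝ) ^ 2 → p ≠ 3 →
    N2b689f5b.coeff f k = 0) →
  ‖N2b689f5b.coeff f n‖ ≤ N2b689f5b.goodmanBound f p n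

end Pool.Agent.GD
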