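import Pool.Agent.helper65.GD.Spec

/-!
# Goodman's inequality, second block: starlike functions are `p`-valent (MP_ea335c_an)

Conventions as in `Spec`. `N2b689f5b.IsPValent f p`, `N2b689f5b.IsNormalized f` are the definitions of the problem.
-/

set_option autoImplicit false

namespace Pool.Agent.GD

open Finset Metric Filter Topology

/-- `h = (∏ (z - a_l)) U` on the disc of radius `R > r`, zeros `a_l` inside the disc of radius `r`, `U` zero-free. -/
def Fac (h : ℂ → ℂ) (r R : ℝ) (M : ℕ) (a : Fin M → ℂ) (U : ℂ → ℂ) : Prop :=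
  0 < r ∧ r < R ∧ (∀ l, ‖a l‖ < r) ∧ DifferentiableOn ℂ U (ball 0 R) ∧ (∀ z ∈ ball (0 : ℂ) R, U z ≠ 0) ∧
    ∀ z ∈ ball (0 : ℂ) R, h z = (∏ l, (z - a l)) * U z

/-- (medium) Factorization. `h` is analytic in the unit disc and has no zeros on `|z| = r`, so it is not identically
zero and has finitely many zeros in `|z| ≤ r`, all with `|z| < r`; by compactness there is `R ∈ (r,1)` such that
there are no zeros with `r ≤ |z| < R` (otherwise zeros accumulate at a point of `|z| = r`). Divide by the zeros with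
their multiplicities: induction on the sum of the orders, or a Mathlib result on extracting zeros
(`MeromorphicOn.extract_zeros_poles`), or `dslope` repeatedly. -/
def PFA_stmt : Prop := ∀ (h : ℂ → ℂ) (r : ℝ), 0 < r → r < 1 → DifferentiableOn ℂ h (ball 0 1) →
  (∀ z : ℂ, ‖z‖ = r → h z ≠ 0) → ∃ (R : ℝ) (M : ℕ) (a : Fin M → ℂ) (U : ℂ → ℂ), R ≤ 1 ∧ Fac h r R M a U

/-- (medium) The continuous argument on the circle `|z| = r`, `z(θ) = circleMap 0 r θ = r e^{iθ}`. Put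
`L(θ) = ∫_0^θ i z h'(z)/h(z)` and `Θ(θ) = arg h(r) + Im L(θ)`. The derivative of `h(z(θ)) exp(-L(θ))` is zero, so
`h(z(θ)) = h(r) exp(L(θ))`, which gives the second claim, and `Θ' = Im (i z h'/h) = Re (z h'/h)`. The integrand
is `2π`-periodic and `L(2π) = ∮ h'/h dz = ∑_l ∮ dz/(z - a_l) + ∮ U'/U dz = 2πi M`. (On the ball of radius `R`:
`h'/h = ∑ 1/(z - a_l) + U'/U` where `h ≠ 0`.) -/
def ARG_stmt : Prop := ∀ (h : ℂ → ℂ) (r R : ℝ) (M : ℕ) (a : Fin M → ℂ) (U : ℂ → ℂ), Fac h r R M a U →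
  ∃ Θ : ℝ → ℝ,
    (∀ θ : ℝ, HasDerivAt Θ (circleMap 0 r θ * deriv h (circleMap 0 r θ) / h (circleMap 0 r θ)).re θ) ∧
    (∀ θ : ℝ, h (circleMap 0 r θ) = ‖h (circleMap 0 r θ)‖ * Complex.exp (Complex.I * Θ θ)) ∧
    Θ (2 * Real.pi) = Θ 0 + 2 * Real.pi * M

/-- (short) Counting from below: there are `2M` integers `m` with `φ + π m ∈ [Θ 0, Θ 0 + 2πM)`; intermediate value
theorem for each (`θ < 2π` since `Θ (2π) = Θ 0 + 2πM` is not attained value; distinct `m` give distinct `θ`). -/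
def CNT_stmt : Prop := ∀ (Θ : ℝ → ℝ) (φ : ℝ) (M : ℕ), Continuous Θ → Θ (2 * Real.pi) = Θ 0 + 2 * Real.pi * M →
  ∃ s : Finset ℝ, 2 * M ≤ s.card ∧ ∀ θ ∈ s, 0 ≤ θ ∧ θ < 2 * Real.pi ∧ Real.sin (Θ θ - φ) = 0

/-- (short) Counting from above: `Θ` is injective on `[0, 2π)` with values in `[Θ 0, Θ 0 + 2πp)`, and
`Θ θ - φ = π m`; there are at most `2p` such integers `m`. -/
def CNU_stmt : Prop := ∀ (Θ : ℝ → ℝ) (φ : ℝ) (p : ℕ) (s : Finset ℝ), StrictMono Θ →
  Θ (2 * Real.pi) = Θ 0 + 2 * Real.pi * p →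
  (∀ θ ∈ s, 0 ≤ θ ∧ θ < 2 * Real.pi ∧ Real.sin (Θ θ - φ) = 0) → s.card ≤ 2 * p

/-- (short-medium) Good radii. Given finitely many points of the disc, `ρ < 1` and `w`, for a starlike `f` there is
`r < 1` larger than `ρ` and all the moduli, with `f ≠ w` and `f ≠ 0` on `|z| = r`, and `Fac f r 1 p a g`. (`f` is not
constant, so `{f = w}` is countable - or finite in compact subsets - and so is the set of moduli of its points.) -/
def RAD_stmt : Prop := ∀ (f : ℂ → ℂ) (p : ℕ) (w : ℂ) (t : Finset ℂ), Starlike f p → (∀ z ∈ t, ‖z‖ < 1) →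
  ∃ (r : ℝ) (a : Fin p → ℂ) (g : ℂ → ℂ), r < 1 ∧ Fac f r 1 p a g ∧ (∀ z ∈ t, ‖z‖ < r) ∧
    (∀ z : ℂ, ‖z‖ = r → f z ≠ w) ∧ ∀ z : ℂ, ‖z‖ = r → 0 < (z * deriv f z / f z).re

/-- (medium) Every value is taken at most `p` times. From `RAD`, `PFA`, `ARG`, `CNT`, `CNU`. Otherwise there is a finite
set `t` of `p + 1` solutions of `f z = w`. Take `r` from `RAD`, and `h = f - w` with `PFA`: `M` zeros `b_l` in
`|z| < r`; every `z ∈ t` is one of the `b_l` (`h z = 0`, `U z ≠ 0`), so `M ≥ p + 1`. With the arguments `Θ_f` (strictly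
increasing, `RAD`) and `Θ_h` from `ARG`, and `φ = arg w`: `Im (e^{-iφ} h) = Im (e^{-iφ} f)` on the circle as
`e^{-iφ} w` is real, so `sin (Θ_h - φ) = 0` iff `sin (Θ_f - φ) = 0`; `2M ≤ card ≤ 2p` by `CNT` for `Θ_h` and `CNU` for
`Θ_f`, a contradiction. -/
def ATM_stmt : Prop := ∀ (f : ℂ → ℂ) (p : ℕ), Starlike f p → ∀ w : ℂ, {z ∈ ball (0 : ℂ) 1 | f z = w}.encard ≤ p

/-- (medium) Some value is taken exactly `p` times. From `RAD`, `PFA`, `ARG`, `ATM`. Take `r` from `RAD`. `f` is not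
constant, so `f'` has finitely many zeros in `|z| ≤ r`; choose `w ≠ 0` with `|w| < min_{|z|=r} |f|` and `w ≠ f(c)` for
all these zeros `c`. Let `h = f - w`, `M` its number of zeros (`PFA`). On the circle `Re (h/f) = 1 - Re (w/f) > 0`,
so `cos (Θ_h - Θ_f) > 0` everywhere, the continuous function `Θ_h - Θ_f` stays in one interval
`(2πm - π/2, 2πm + π/2)`, and its increment `2π(M - p)` over `[0, 2π]` is `0`: `M = p`. The zeros `b_l` of `h` are distinct,
since `h' = f' ≠ 0` at them. So `w` has at least `p` preimages, exactly `p` by `ATM`. -/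
def EXA_stmt : Prop := ∀ (f : ℂ → ℂ) (p : ℕ), Starlike f p → ∃ w : ℂ, {z ∈ ball (0 : ℂ) 1 | f z = w}.encard = p

/-- (short) From `ATM`, `EXA`. -/
def PVS_stmt : Prop := ∀ (f : ℂ → ℂ) (p : ℕ), Starlike f p → N2b689f5b.IsPValent f p

/-- (short-medium) From `PFA`. A normalised analytic function with `Re (z f'/f) > 0` for `ρ < |z| < 1` has no zeros
there (division by zero is `0` in Lean, so the real part would be `0`). Take `r` with `max ρ 0 < r < 1` and `PFA`
for `f`: `f = ∏ (z - a_l) U` on `|z| < R`. Let `g = U` on `|z| < R` and `g = f/∏ (z - a_l)` elsewhere; `g` is analytic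
and zero-free in the disc, and `f = ∏ (z - a_l) g` there. The number `M` of factors is at least `1` because
`f 0 = 0`. -/
def STZ_stmt : Prop := ∀ f : ℂ → ℂ, DifferentiableOn ℂ f (ball 0 1) → f 0 = 0 →
  (∃ ρ : ℝ, ρ < 1 ∧ ∀ z : ℂ, ρ < ‖z‖ → ‖z‖ < 1 → 0 < (z * deriv f z / f z).re) → ∃ q : ℕ, Starlike f q

/-- (short) From `STZ`, `PVS`: `Starlike f q` for some `q`, hence `IsPValent f q`, and `p = q` (some value is taken
exactly `p` times, each at most `q` times, and conversely). -/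
def STP_stmt : Prop := ∀ (f : ℂ → ℂ) (p : ℕ), N2b689f5b.IsPValent f p → N2b689f5b.IsNormalized f →
  (∃ ρ : ℝ, ρ < 1 ∧ ∀ z : ℂ, ρ < ‖z‖ → ‖z‖ < 1 → 0 < (z * deriv f z / f z).re) → Starlike f p

end Pool.Agent.GD
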