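import Pool.Agent.helper65.GD.SpecB

/-!
# Goodman's inequality for ALL multivalent starlike functions (MP_ea335c_an), third block

A second interpolation formula, for `n b_n`, uses that `T(z) = z^{-p} N(z) ≥ 0` on the circle. It gives Goodman's
inequality for all `p` and all `n > p`, without any condition on the coefficients. Conventions: `n = p + k`,
`i = p - j`, `t(y) = y^p N(conj y) = T(conj y)` for `|y| = 1`.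
-/

set_option autoImplicit false

namespace Pool.Agent.GD

open Finset Metric Filter Topology

/-- The coefficients `D_q = q b_q + 2p ∑_{r<q} μ_{q-r} b_r` of `z N' + 2p (∑ μ_m z^m) N`. -/
noncomputable def DD (p : ℕ) (μ b : ℕ → ℂ) (q : ℕ) : ℂ := q * b q + 2 * p * ∑ r ∈ range q, μ (q - r) * b r

/-- `y^p ∑_q b_q conj(y)^q`. -/
noncomputable def tt (p : ℕ) (b : ℕ → ℂ) (y : ℂ) : ℂ := y ^ p * ∑ q ∈ range (2 * p), b q * (starRingEnd ℂ) y ^ q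

/-- `t(y)` is real and nonnegative on the circle. -/
def Pos (p : ℕ) (b : ℕ → ℂ) : Prop := ∀ y : ℂ, ‖y‖ = 1 → ∃ t : ℝ, 0 ≤ t ∧ tt p b y = t

/-- `ω = (E - (p/n) G_k)/2`. -/
noncomputable def om (p k : ℕ) (G : ℕ → ℂ) (E : ℂ) : ℂ := (E - (p : ℂ) / (p + k) * G k) / 2

/-- (short-medium) Reflection formula, `0 ≤ m`. With `b_{2p-r} = conj b_r`: `conj D_{p-m} = (p-m) b_{p+m} +
2p ∑_{r > p+m} conj(μ_{r-p-m}) b_r`; add `D_{p+m} = (p+m) b_{p+m} + 2p ∑_{r<p+m} μ_{p+m-r} b_r`: the sum is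
`2p ∑_r b_r ∑_l w_l x_l^{p+m-r}` (negative exponents are powers of `conj x_l = x_l⁻¹`; `∑ w = 1`). For `m > p` only the
second formula is used (`b_r = 0` for `r ≥ 2p`). -/
def REF_stmt : Prop := ∀ (p N : ℕ) (w : Fin N → ℝ) (x : Fin N → ℂ) (b : ℕ → ℂ) (m : ℕ), 1 ≤ p →
  Atomic N w x → CSym p b →
  DD p (mom w x) b (p + m) + (if m ≤ p then (starRingEnd ℂ) (DD p (mom w x) b (p - m)) else 0) =
    2 * p * ∑ l, (w l : ℂ) * tt p b (x l) * x l ^ m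

/-- (short) `n f_n = ∑_m (m b_m) G_{n-m} + ∑_m b_m (n-m) G_{n-m}`, insert the recursion of `G` in the second sum and
collect: `n f_n = ∑_q D_q G_{n-q}`. Multiply by `H` (`G H = 1`) to get `D_q = ∑_{j≤q} H_{q-j} j f_j`. -/
def NBN_stmt : Prop := ∀ (p : ℕ) (μ b f G H : ℕ → ℂ), Rec (2 * p) μ G →
  (∀ n, ∑ m ∈ range (n + 1), G m * H (n - m) = if n = 0 then 1 else 0) →
  (∀ n, f n = ∑ m ∈ range (n + 1), b m * G (n - m)) →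
  (∀ n : ℕ, (n : ℂ) * f n = ∑ q ∈ range (n + 1), DD p μ b q * G (n - q)) ∧
  ∀ q : ℕ, DD p μ b q = ∑ j ∈ range (q + 1), H (q - j) * ((j : ℂ) * f j)

/-- (medium) Star formula. From `REF`, `NBN`, `GHI` (for `G H = 1`). Let `D = DD p μ b`, `t_l = t(x_l) ≥ 0` (`Pos`),
`g = pol G k`, `n = p + k`. By `NBN` `n f_n = ∑_{1≤m<p} D_{p-m} G_{k+m} + D_p G_k + ∑_{m=1}^{k} D_{p+m} G_{k-m}` and by
`REF` `D_{p+m} = -conj D_{p-m} + 2p ∑_l w_l t_l x_l^m` (first term only for `m ≤ p`; `D_0 = 0`), and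
`2 ∑_{m=1}^{k} x_l^m G_{k-m} = g(x_l) - G_k`. So
`n f_n = ∑_{1≤m<p} D_{p-m} G_{k+m} - ∑_{1≤m<p,m≤k} conj(D_{p-m}) G_{k-m} + D_p G_k + p ∑_l w_l t_l (g(x_l) - G_k)`.
`REF` with `m = 0`: `p ∑ w_l t_l = Re D_p`. Let `v_l = w_l t_l/∑ w t` if `∑ w t ≠ 0` and `v = w` otherwise (then all
`w_l t_l = 0` and `Re D_p = 0`), `E = ∑ v_l g(x_l)`: the last term is `Re (D_p) (E - G_k)`. Insert
`D_{p-m} = ∑_{j≤p-m} H_{p-m-j} j f_j`: with `i = p - j` the coefficient of `j f_j` is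
`∑_{m=1}^{i} G_{k+m} H_{i-m} + H_i G_k + H_i (E - G_k)/2 = al p k i G H + om * H_i` (since `1 - k/(2n) - 1/2 = p/(2n)`),
that of `j conj f_j` is `-∑_{m=1}^{min(i,k)} G_{k-m} conj H_{i-m} + conj H_i (E - G_k)/2 = -(be p k i G H - om * conj H_i)`. -/
def STA_stmt : Prop := ∀ (p k N : ℕ) (w : Fin N → ℝ) (x : Fin N → ℂ) (b f G H : ℕ → ℂ), 1 ≤ p → 1 ≤ k →
  Atomic N w x → CSym p b → Pos p b → Rec (2 * p) (mom w x) G → Rec (-(2 * p)) (mom w x) H →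
  (∀ n, f n = ∑ m ∈ range (n + 1), b m * G (n - m)) →
  ∃ v : Fin N → ℝ, (∀ l, 0 ≤ v l) ∧ ∑ l, v l = 1 ∧
    ((p : ℂ) + k) * f (p + k) = ∑ j ∈ Icc 1 p, (j : ℂ) *
      ((al p k (p - j) G H + om p k G (∑ l, (v l : ℂ) * pol G k (x l)) * H (p - j)) * f j -
        (be p k (p - j) G H - om p k G (∑ l, (v l : ℂ) * pol G k (x l)) * (starRingEnd ℂ) (H (p - j))) *
          (starRingEnd ℂ) (f j))

/-- (short-medium) `E = G_k + 2 ∑_{m<k} λ_{k-m} G_m` with `λ_m = ∑ v_l x_l^m`, `|λ_m| ≤ 1`; `‖G_m‖ ≤ c_m := cc (2p) m`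
(induction from the recursion, `|μ_m| ≤ 1`, `m c_m = 2p ∑_{l<m} c_l`), so `2 ∑_{m<k} ‖G_m‖ ≤ (k/p) c_k`. The
coefficient of `G_k` in the first expression is `(k+i) - p + (p+k)(p-i)/p = k(2p-i)/p ≥ 0`, in the second
`(2p+k-i) - p - (p+k)(p-i)/p = k i/p ≥ 0`. -/
def OMG_stmt : Prop := ∀ (p k i N : ℕ) (v : Fin N → ℝ) (x : Fin N → ℂ) (μ G : ℕ → ℂ), 1 ≤ p → 1 ≤ k → i ≤ p →
  Atomic N v x → (∀ m, ‖μ m‖ ≤ 1) → Rec (2 * p) μ G →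
  ‖((k : ℂ) + i) * ∑ l, (v l : ℂ) * pol G k (x l) - (p - (p + k) * (p - i) / p) * G k‖ ≤
    (k : ℝ) * (2 * p - i) / p * ‖G k‖ + (k + i) * k / p * cc (2 * p) k ∧
  ‖(2 * (p : ℂ) + k - i) * ∑ l, (v l : ℂ) * pol G k (x l) - (p + (p + k) * (p - i) / p) * G k‖ ≤
    (k : ℝ) * i / p * ‖G k‖ + (2 * p + k - i) * k / p * cc (2 * p) k

/-- (medium) Scalar inequality. Let `X = k(2p+k)`, `Y = k(2p-i)` resp. `Y = k i`, `a = A/c`, `b = B/C` in `[0,1]` (if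
`c = 0` or `C = 0` trivial), `Q = i² X/(2p+1)`. After multiplication by `p/(cC)` the claim follows from
`√Q √(1-a²) √(1-b²) ≤ X(1-b) + Y b (1-a)` (as `p² S R/(cC) ≤ √Q √(1-a²)√(1-b²)`). `i = 0`: left side `0`. `i ≥ 1`:
`Q (X+Y) ≤ X² Y`, i.e. `i² (X+Y) ≤ (2p+1) X Y`: in the first case `4p+k-i ≤ 2(2p+k)` and `2i² ≤ (2p+1)(2p-i)`, in the
second `2p+k+i ≤ 2(2p+k)` and `2i ≤ 2p+1`. Case 1, `b (2XY - Q) ≥ Q`: then `Q(1+b) ≤ 2XYb`, and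
`Q(1-a²)(1-b²) ≤ 2Q(1-a)(1-b)(1+b) ≤ 4XYb(1-a)(1-b) ≤ (X(1-b) + Yb(1-a))²`. Case 2, `b (2XY - Q) < Q`: `Q < XY`, so
`b < Q/(2XY-Q) ≤ (X²-Q)/(X²+Q)`, so `Q(1+b) ≤ X²(1-b)` and `Q(1-a²)(1-b²) ≤ Q(1+b)(1-b) ≤ X²(1-b)²`. -/
def SCA_stmt : Prop := ∀ (p k i : ℕ) (A B c C S R : ℝ), 1 ≤ p → 1 ≤ k → i < p → 0 ≤ A → A ≤ c → 0 ≤ B → B ≤ C →
  0 ≤ S → 0 ≤ R →
  S ^ 2 ≤ (k : ℝ) * (2 * p + k) / (p ^ 2 * (2 * p + 1)) * (c ^ 2 - A ^ 2) →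
  R ^ 2 ≤ ((i : ℝ) / p) ^ 2 * (C ^ 2 - B ^ 2) →
  B * ((k : ℝ) * (2 * p - i) / p * A + (k + i) * k / p * c) + p * (S * R) ≤ (k : ℝ) * (2 * p + k) / p * (c * C) ∧
  B * ((k : ℝ) * i / p * A + (2 * p + k - i) * k / p * c) + p * (S * R) ≤ (k : ℝ) * (2 * p + k) / p * (c * C)

/-- (medium) The bounds. From `COV`, `VGB`, `VHB`, `OMG`, `SCA`. With `E = ∑ v_l pol G k (x_l)`, `n = p+k`, `j = p-i`, `COV`
gives `2(k+i)(al + om H_i) = p Cov + ((k+i) E - (p - nj/p) G_k) H_i` (as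
`k(2p+k)j/(np) - (k+i)p/n = nj/p - p`) and
`2(2p+k-i)(be - om conj H_i) = p Cov' - ((2p+k-i) E - (p + nj/p) G_k) conj H_i` (as
`k(2p+k)j/(np) + (2p+k-i)p/n = nj/p + p`), where `Cov`, `Cov'` are the sums in `COV`, of modulus at most `S R` by
Cauchy-Schwarz, `S² = ∑ w‖g-Eg‖²`, `R² = ∑ w‖h-Eh‖²`. Then `OMG` (`‖mom w x m‖ ≤ 1`) and `SCA` with `A = ‖G_k‖`,
`B = ‖H_i‖`, `c = cc (2p) k`, `C = C(2p,i)`. -/
def KEZ_stmt : Prop := ∀ (p k i N : ℕ) (w v : Fin N → ℝ) (x : Fin N → ℂ) (G H : ℕ → ℂ), 1 ≤ p → 1 ≤ k → i < p →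
  Atomic N w x → Atomic N v x → Rec (2 * p) (mom w x) G → Rec (-(2 * p)) (mom w x) H →
  ‖2 * ((k : ℂ) + i) * (al p k i G H + om p k G (∑ l, (v l : ℂ) * pol G k (x l)) * H i)‖ ≤
    (k : ℝ) * (2 * p + k) / p * (cc (2 * p) k * (2 * p).choose i) ∧
  ‖2 * (2 * (p : ℂ) + k - i) *
      (be p k i G H - om p k G (∑ l, (v l : ℂ) * pol G k (x l)) * (starRingEnd ℂ) (H i))‖ ≤
    (k : ℝ) * (2 * p + k) / p * (cc (2 * p) k * (2 * p).choose i)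

/-- (short-medium) Goodman's inequality for finite measures. From `STA`, `KEZ`, `NUM`: the triangle inequality in `STA`,
and by `KEZ` and `NUM` `(j/n)‖al + om H_i‖ ≤ ((2p+k-i)/(2n)) AA`, `(j/n)‖be - om conj H_i‖ ≤ ((k+i)/(2n)) AA`,
`i = p - j`, `(2p+k-i) + (k+i) = 2n`. -/
def GAT_stmt : Prop := ∀ (p k N : ℕ) (w : Fin N → ℝ) (x : Fin N → ℂ) (b f G H : ℕ → ℂ), 1 ≤ p → 1 ≤ k →
  Atomic N w x → CSym p b → Pos p b → Rec (2 * p) (mom w x) G → Rec (-(2 * p)) (mom w x) H →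
  (∀ n, f n = ∑ m ∈ range (n + 1), b m * G (n - m)) →
  ‖f (p + k)‖ ≤ ∑ j ∈ Icc 1 p, AA p (p + k) j * ‖f j‖

/-- (short-medium) Limit. From `GAT`, `EXR`, `CTN`: approximate `μ` by moments (`M = t`, `ε = 1/(t+1)`), keep `b`; all
`f_n` converge. -/
def GLI_stmt : Prop := ∀ (p k : ℕ) (μ b f G : ℕ → ℂ), 1 ≤ p → 1 ≤ k → Approx μ → CSym p b → Pos p b →
  Rec (2 * p) μ G → (∀ n, f n = ∑ m ∈ range (n + 1), b m * G (n - m)) →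
  ‖f (p + k)‖ ≤ ∑ j ∈ Icc 1 p, AA p (p + k) j * ‖f j‖

/-- (short-medium) As `STR`, with `Pos p b`: the proof of `STR` (Pool/Agent/helper54/GD/STR.lean) with `b` from `NPO`, and
for `|y| = 1`, `z = conj y`: `y^p z ∏_{l ≠ l₀} (z - a_l)(1 - conj(a_l) z) = ∏_{l ≠ l₀} y (z - a_l)(1 - conj(a_l) z)
= ∏ |1 - conj(a_l) z|²` (`y (z - a_l) = 1 - a_l y = conj (1 - conj(a_l) z)`). -/
def STS_stmt : Prop := ∀ (f : ℂ → ℂ) (p : ℕ), Starlike f p → ∃ (c : ℂ) (b μ G : ℕ → ℂ) (P : ℂ → ℂ),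
  CSym p b ∧ Pos p b ∧ Rec (2 * p) μ G ∧ μ 0 = 1 ∧ Ser (dbl μ) P ∧ (∀ z ∈ ball (0 : ℂ) 1, 0 ≤ (P z).re) ∧
  ∀ n, N2b689f5b.coeff f n = c * ∑ m ∈ range (n + 1), b m * G (n - m)

/-- (short) The theorem. From `STS`, `APX`, `GLI`. -/
def FIZ_stmt : Prop := ∀ (f : ℂ → ℂ) (p n : ℕ), Starlike f p → p < n →
  ‖N2b689f5b.coeff f n‖ ≤ N2b689f5b.goodmanBound f p n

end Pool.Agent.GD
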