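import Pool.Agent.helper65.GD.SpecC

/-!
# Goodman's inequality for multivalent CLOSE-TO-CONVEX functions (MP_ea335c_an), fourth block

`F` is `p`-valently starlike, `Re (z f'/F) > 0` near the circle. Then `z f' = c N G Q` with `N`, `G` as before
(`G` from `F`, `N` from the zeros of `z f'`) and `Re Q > 0`. The same algebra (`SpecC`) applies to the coefficients
`B_n = n a_n` of `N G Q`, because `Re (z^{-p} N Q) = z^{-p} N Re Q ≥ 0` on the circle.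
-/

set_option autoImplicit false

namespace Pool.Agent.GD

open Finset Metric Filter Topology

/-- The coefficients of `N Q`, `Q = 1 + iτ + 2 ∑_{m≥1} κ_m z^m`. -/
noncomputable def EE (τ : ℝ) (κ b : ℕ → ℂ) (q : ℕ) : ℂ :=
  (1 + τ * Complex.I) * b q + 2 * ∑ r ∈ range q, κ (q - r) * b r

/-- (short) Reflection formula, from `REF` for `v`, `y`: `p E_q = DD p (mom v y) b q - (q - p) b_q + iτ p b_q`, and
`b_{p-m} = conj b_{p+m}` (`b_{p+m} = 0` for `m ≥ p`), so the two additional terms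
`-m b_{p+m} + conj (m b_{p-m})` and `iτ p b_{p+m} + conj (iτ p b_{p-m})` vanish. -/
def REK_stmt : Prop := ∀ (p N : ℕ) (v : Fin N → ℝ) (y : Fin N → ℂ) (τ : ℝ) (b : ℕ → ℂ) (m : ℕ), 1 ≤ p →
  Atomic N v y → CSym p b →
  EE τ (mom v y) b (p + m) + (if m ≤ p then (starRingEnd ℂ) (EE τ (mom v y) b (p - m)) else 0) =
    2 * ∑ l, (v l : ℂ) * tt p b (y l) * y l ^ m

/-- (medium, helper65) Star formula, the proof of `STA` (Pool/Agent/helper65/GD/STA.lean) for general `D`, `B`. -/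
def STK_stmt : Prop := ∀ (p k N : ℕ) (v t : Fin N → ℝ) (y : Fin N → ℂ) (D B G H : ℕ → ℂ), 1 ≤ p → 1 ≤ k →
  Atomic N v y → (∀ l, 0 ≤ t l) → B 0 = 0 →
  (∀ n, ∑ m ∈ range (n + 1), G m * H (n - m) = if n = 0 then 1 else 0) →
  (∀ n, B n = ∑ q ∈ range (n + 1), D q * G (n - q)) →
  (∀ m, D (p + m) + (if m ≤ p then (starRingEnd ℂ) (D (p - m)) else 0) = 2 * ∑ l, (v l : ℂ) * t l * y l ^ m) →
  ∃ u : Fin N → ℝ, Atomic N u y ∧
    B (p + k) = ∑ j ∈ Icc 1 p,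
      ((al p k (p - j) G H + om p k G (∑ l, (u l : ℂ) * pol G k (y l)) * H (p - j)) * B j -
        (be p k (p - j) G H - om p k G (∑ l, (u l : ℂ) * pol G k (y l)) * (starRingEnd ℂ) (H (p - j))) *
          (starRingEnd ℂ) (B j))

/-- (short-medium) The inequality for finite measures. From `EXR` (for `H`, `s = -2p`), `GHI`, `REK`, `STK`, `KEZ`,
`NUM`. `t l` from `Pos` (`tt p b (y l) = t l`), `D = EE τ (mom v y) b`, `B 0 = 0` as `b 0 = 0`. In `KEZ` both measures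
have the same points: use `Fin.append x y`, the weights `Fin.append w 0` and `Fin.append 0 u` (`mom` and
`∑ u pol` do not change; `Fin.sum_univ_add`, `Fin.append_left`, `Fin.append_right`). Triangle inequality in `STK`; by
`KEZ` and `NUM` (as in `GAT`, Pool/Agent/helper23/GD/GAT.lean)
`‖al + om H_i‖ + ‖be - om conj H_i‖ ≤ ((p+k)/j) AA p (p+k) j`, `i = p - j`. -/
def GAK_stmt : Prop := ∀ (p k N N' : ℕ) (w : Fin N → ℝ) (x : Fin N → ℂ) (v : Fin N' → ℝ) (y : Fin N' → ℂ) (τ : ℝ)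
  (b B G : ℕ → ℂ), 1 ≤ p → 1 ≤ k → Atomic N w x → Atomic N' v y → CSym p b → Pos p b →
  Rec (2 * p) (mom w x) G → (∀ n, B n = ∑ q ∈ range (n + 1), EE τ (mom v y) b q * G (n - q)) →
  ‖B (p + k)‖ ≤ ∑ j ∈ Icc 1 p, ((p : ℝ) + k) / j * (AA p (p + k) j * ‖B j‖)

/-- (short-medium) Limit. From `GAK`, `EXR`, `CTN`: approximate `μ` and `κ` by moments (`M = t`, `ε = 1/(t+1)`), keep
`b`, `τ`; all `B_n` converge (as `GLI`, Pool/Agent/helper23/GD/GLI.lean). -/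
def GLK_stmt : Prop := ∀ (p k : ℕ) (μ κ : ℕ → ℂ) (τ : ℝ) (b B G : ℕ → ℂ), 1 ≤ p → 1 ≤ k → Approx μ → Approx κ →
  CSym p b → Pos p b → Rec (2 * p) μ G → (∀ n, B n = ∑ q ∈ range (n + 1), EE τ κ b q * G (n - q)) →
  ‖B (p + k)‖ ≤ ∑ j ∈ Icc 1 p, ((p : ℝ) + k) / j * (AA p (p + k) j * ‖B j‖)

/-- `f` is close to convex with respect to `F`. -/
structure CTC (f F : ℂ → ℂ) (p : ℕ) : Prop where
  analytic : DifferentiableOn ℂ f (ball 0 1)
  star : Starlike F p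
  pos : ∃ ρ : ℝ, ρ < 1 ∧ ∀ z : ℂ, ρ < ‖z‖ → ‖z‖ < 1 → 0 < (z * deriv f z / F z).re

/-- The same across the circle (all functions analytic in a disc of radius `R > 1`). -/
structure CTR (f F : ℂ → ℂ) (p : ℕ) (R : ℝ) (a b : Fin p → ℂ) (g U : ℂ → ℂ) : Prop where
  one_lt : 1 < R
  star : Starlike F p
  analytic : DifferentiableOn ℂ f (ball 0 R)
  pos : ∀ z : ℂ, ‖z‖ = 1 → 0 < (z * deriv f z / F z).re
  ha : ∀ l, ‖a l‖ < 1
  hb : ∀ l, ‖b l‖ < 1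
  g_diff : DifferentiableOn ℂ g (ball 0 R)
  g_ne : ∀ z ∈ ball (0 : ℂ) R, g z ≠ 0
  U_diff : DifferentiableOn ℂ U (ball 0 R)
  U_ne : ∀ z ∈ ball (0 : ℂ) R, U z ≠ 0
  F_eq : ∀ z ∈ ball (0 : ℂ) R, F z = (∏ l, (z - a l)) * g z
  f_eq : ∀ z ∈ ball (0 : ℂ) R, z * deriv f z = (∏ l, (z - b l)) * U z

/-- (short-medium) Number of zeros. From `ARG` for `h` and `F`: `Re (h/F) > 0` on the circle gives
`cos (Θ_h - Θ_F) > 0` everywhere, so the continuous function `Θ_h - Θ_F` stays in one interval of length `π`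
(intermediate value theorem: `cos` has a zero between two values at distance `≥ 2π`), and its increment
`2π (M - p)` is `0`. (See also the proof of `EXA`, Pool/Agent/helper44/GD/EXA.lean.) -/
def ZCN_stmt : Prop := ∀ (h F : ℂ → ℂ) (r R S : ℝ) (M p : ℕ) (b : Fin M → ℂ) (a : Fin p → ℂ) (U g : ℂ → ℂ),
  Fac h r R M b U → Fac F r S p a g → (∀ z : ℂ, ‖z‖ = r → 0 < (h z / F z).re) → M = p

/-- (medium) Dilation. From `PFA`, `ZCN`. Let `F = ∏ (z - a_l) g` from `Starlike F p` and take `r` with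
`max(ρ, |a_l|, ρ_F, 0) < r < 1`. `h(z) = z f'(z)` has no zeros on `|z| = r`; `PFA`: `h = ∏_{l<M} (z - b_l) U` on `|z| < R`;
`M = p` by `ZCN` (`Fac F r 1 p a g`). For `f_r(z) = f(rz)`: `z f_r'(z) = h(rz) = ∏ (z - b_l/r) r^p U(rz)`, similarly
`F_r = ∏ (z - a_l/r) r^p g(rz)` on `|z| < R/r`. `F_r` is starlike: `z F_r'/F_r (z) = (ζF'/F)(ζ)`, `ζ = rz`. -/
def DIL_stmt : Prop := ∀ (f F : ℂ → ℂ) (p : ℕ), CTC f F p → ∃ ρ : ℝ, ρ < 1 ∧ ∀ r : ℝ, ρ < r → r < 1 →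
  ∃ (R : ℝ) (a b : Fin p → ℂ) (g U : ℂ → ℂ), CTR (fun z => f (r * z)) (fun z => F (r * z)) p R a b g U

/-- (helper65) The representation of starlike functions with given zeros. From `BDY`, `MIN`: the proof of `REP`. -/
def REQ_stmt : Prop := ∀ (F : ℂ → ℂ) (p : ℕ) (a : Fin p → ℂ) (g : ℂ → ℂ) (l₀ : Fin p), Starlike F p →
  (∀ l, a l ∈ ball (0 : ℂ) 1) → DifferentiableOn ℂ g (ball 0 1) → (∀ z ∈ ball (0 : ℂ) 1, g z ≠ 0) →
  (∀ z ∈ ball (0 : ℂ) 1, F z = (∏ l, (z - a l)) * g z) → a l₀ = 0 →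
  ∀ G : ℂ → ℂ, G = (fun z => g z / (g 0 * ∏ l ∈ univ.erase l₀, (1 - (starRingEnd ℂ) (a l) * z))) →
  ∀ z ∈ ball (0 : ℂ) 1, 0 ≤ (1 + z * deriv G z / (p * G z)).re

/-- (medium) Analytic representation. From `REQ`. `F 0 = 0` and `g 0 ≠ 0` give `l₁` with `a l₁ = 0`; `z f'(z) = 0` at `0`
gives `l₀` with `b l₀ = 0`. Let `V(z) = ∏_{l ≠ l₁} (1 - conj(a_l) z)`, `W(z) = ∏_{l ≠ l₀} (1 - conj(b_l) z)` (no zeros in a
disc of radius `> 1`), `G = g/(g(0) V)` (`REQ`), `Q₀ = U V/(W g)`, so `z f' = g(0) (z ∏_{l≠l₀} (z - b_l)) W G Q₀` in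
the unit disc, and `Q₀` is continuous on the closed unit disc. On `|z| = 1`:
`Q₀ = (z f'/F) (∏ (z - a_l) V)/(∏ (z - b_l) W)`, and `∏_l (z - a_l) V = z^p ∏_{l ≠ l₁} |1 - conj(a_l) z|²` (as
`z - a = z conj(1 - conj(a) z)`), similarly for `b`; so `Q₀` is `z f'/F` times a positive number and `Re Q₀ > 0`
there, `≥ δ > 0` by compactness, and `Re Q₀ ≥ δ` in the disc by the maximum principle for `exp(-Q₀)`
(`Complex.norm_le_of_forall_mem_frontier_norm_le`, `DiffContOnCl`). Let `s = Re Q₀(0) > 0`, `Q = Q₀/s`, `c = g(0) s`. -/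
def RPA_stmt : Prop := ∀ (f F : ℂ → ℂ) (p : ℕ) (R : ℝ) (a b : Fin p → ℂ) (g U : ℂ → ℂ), CTR f F p R a b g U →
  ∃ (l₀ : Fin p) (c : ℂ) (G Q : ℂ → ℂ),
  DifferentiableOn ℂ G (ball 0 1) ∧ G 0 = 1 ∧ (∀ z ∈ ball (0 : ℂ) 1, G z ≠ 0) ∧
  (∀ z ∈ ball (0 : ℂ) 1, 0 ≤ (1 + z * deriv G z / (p * G z)).re) ∧
  DifferentiableOn ℂ Q (ball 0 1) ∧ (Q 0).re = 1 ∧ (∀ z ∈ ball (0 : ℂ) 1, 0 ≤ (Q z).re) ∧
  ∀ z ∈ ball (0 : ℂ) 1,
    z * deriv f z = c * ((z * ∏ l ∈ univ.erase l₀, ((z - b l) * (1 - (starRingEnd ℂ) (b l) * z))) * (G z * Q z))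

/-- (medium) Coefficients of the representation. From `CO1`-`CO4`, `NPO`, `APX`, `RPA`. As `STS`
(Pool/Agent/helper65/GD/STS.lean, with the lemma `STS_pos` for `Pos`; import it): `b` from `NPO`, `G_n = coeff G`,
`μ` with `dbl μ = coeff (1 + z G'/(p G))` (`Rec (2p) μ G`), `Approx μ` by `APX`; `Q = 1 + iτ + 2 ∑ κ_m z^m`, `τ = Im Q(0)`,
`κ 0 = 1`, `Approx κ` by `APX` for `P = Q - iτ`. The coefficients of `N · Q` are `EE τ κ b` (`CO3`), those of `z f'` are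
`n a_n` (`CO4`). -/
def RPK_stmt : Prop := ∀ (f F : ℂ → ℂ) (p : ℕ) (R : ℝ) (a b : Fin p → ℂ) (g U : ℂ → ℂ), CTR f F p R a b g U →
  ∃ (c : ℂ) (b μ κ G : ℕ → ℂ) (τ : ℝ), CSym p b ∧ Pos p b ∧ Rec (2 * p) μ G ∧ Approx μ ∧ Approx κ ∧
    ∀ n : ℕ, (n : ℂ) * N2b689f5b.coeff f n = c * ∑ q ∈ range (n + 1), EE τ κ b q * G (n - q)

/-- (short) The theorem. From `DIL`, `RPK`, `GLK`. For `r` near `1` and `f_r(z) = f(rz)`: `coeff f_r n = r^n coeff f n`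
(`iteratedDeriv_comp_const_mul` or `CO1`, `CO2`), `GLK` with `B_n` (multiplied by `‖c‖`) gives
`n ‖coeff f_r n‖ ≤ ∑ (n/j) AA j ‖coeff f_r j‖`; let `r → 1`. (`goodmanBound` is `∑_{j ∈ Icc 1 p} AA p n j ‖coeff f j‖`.) -/
def FNK_stmt : Prop := ∀ (f F : ℂ → ℂ) (p n : ℕ), CTC f F p → p < n →
  ‖N2b689f5b.coeff f n‖ ≤ N2b689f5b.goodmanBound f p n

end Pool.Agent.GD
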