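import Pool.Agent.helper65.GD.SpecC

/-!
# Goodman's inequality for polynomials of spirallike functions (MP_ea335c_an), fifth block

`V` = the combinations `∑_{m=1}^p c_m φ^m` of a spirallike function `φ`. With `q = z φ'/φ`: `z f' = q F` with
`F = φ df/dφ ∈ V`, and Rogosinski's inequality for `q` (`RGS`) gives the bounds by induction. Then the same for `z f' = Q F`,
`F ∈ V`, `Re Q > 0`. Independent of the blocks A-D except for `CO1`-`CO4`, `APX`.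
-/

set_option autoImplicit false

namespace Pool.Agent.GD

open Finset Metric Filter Topology

/-- Cauchy product. -/
noncomputable def cv (Q F : ℕ → ℂ) (n : ℕ) : ℂ := ∑ r ∈ range (n + 1), Q (n - r) * F r

/-- Coefficients of a function of positive real part up to a complex factor: `Q = 1 + 2κ ∑ μ_m z^m`. -/
def Cara (Q : ℕ → ℂ) : Prop :=
  Q 0 = 1 ∧ ∃ (κ : ℂ) (μ : ℕ → ℂ), Approx μ ∧ ‖κ‖ ^ 2 ≤ κ.re ∧ ∀ m, 1 ≤ m → Q m = 2 * κ * μ m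

/-- Rogosinski's inequality. -/
def Rgs (Q : ℕ → ℂ) : Prop := ∀ (F : ℕ → ℂ) (n : ℕ),
  ‖cv Q F n - F n‖ ^ 2 ≤ 4 * ∑ m ∈ range n, ‖cv Q F m‖ * ‖F m‖

/-- `B(n,j) = A(n,j) + 2 ∑_{j<q≤p} A(n,q)`. -/
noncomputable def BB (p n j : ℕ) : ℝ := AA p n j + 2 * ∑ q ∈ Ioc j p, AA p n q

/-- The conditions on the coefficients `Φ m n` of `φ^m` (`φ'(0) = 1`). -/
structure Pws (Q : ℕ → ℂ) (Φ : ℕ → ℕ → ℂ) : Prop where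
  low : ∀ m n : ℕ, n < m → Φ m n = 0
  diag : ∀ m : ℕ, Φ m m = 1
  eqn : ∀ m n : ℕ, (n : ℂ) * Φ m n = m * cv Q (Φ m) n

/-- `∑_{m=1}^p c_m Φ_m`. -/
noncomputable def cmb (p : ℕ) (Φ : ℕ → ℕ → ℂ) (c : ℕ → ℂ) (n : ℕ) : ℂ := ∑ m ∈ Icc 1 p, c m * Φ m n

/-- (medium) Numbers. Downward induction on `j`. `j = p`: `(n+1-p) A(n+1,p) = (n+p) A(n,p)`. Step `j+1 → j` (divide by
`j` resp. `j+1` and subtract; `B(n,j) - B(n,j+1) = A(n,j) + A(n,j+1)`): with `e = 1/((p-j)! (p+j)!)`,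
`e' = e (p-j)/(p+j+1)` (the value for `j+1`), `c = 2(n+p)!/(n-p-1)!`, `c' = c (n+p+1)/(n-p)` (the value for `n+1`) one has
`A(n,j) = j c e/(n²-j²)` etc., and the claim is `(c' e + c e')/(n+j+1) = (c' e' + c e)/(n-j)`, which follows from
`(n+p+1)(p+j+1) + (p-j)(n-p) = (2p+1)(n+j+1)` and `(n+p+1)(p-j) + (n-p)(p+j+1) = (2p+1)(n-j)`. -/
def NUB_stmt : Prop := ∀ p n j : ℕ, 1 ≤ j → j ≤ p → p < n →
  ((n : ℝ) + 1) * AA p (n + 1) j - n * AA p n j = j * (BB p (n + 1) j + BB p n j)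

/-- (short-medium) Numbers. Downward induction on `j`. `j = p`: `A(p+1,p) = 2p`. Step: the difference of the equations
(divided by `j`, `j+1`) is `(n-j) A(n,j)/j = (n+j+1) A(n,j+1)/(j+1)`, `n = p+1`, i.e. `c e/(n+j) = c e'/(n-j-1)`. -/
def NUC_stmt : Prop := ∀ p j : ℕ, 1 ≤ j → j ≤ p →
  ((p : ℝ) + 1) * AA p (p + 1) j - j * BB p (p + 1) j = 2 * j

/-- (short) From `NUB`, `NUC`: induction on `n` (`n = p + 1` and `n → n + 1`). Let `D(n) = n A(n,j) - j B(n,j)`: `D(p+1) = 2j`,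
`D(n+1) = D(n) + 2j B(n,j)`, `D(n+1)² - D(n)² = 4j B(n,j)(D(n) + j B(n,j)) = 4 (n A(n,j)) (j B(n,j))`. `A(n,j) ≥ 0` is clear. -/
def NUE_stmt : Prop := ∀ p n j : ℕ, 1 ≤ j → j ≤ p → p < n →
  0 ≤ n * AA p n j - j * BB p n j ∧ 0 ≤ AA p n j ∧ 0 ≤ BB p n j ∧
  (n * AA p n j - j * BB p n j) ^ 2 = 4 * (j : ℝ) ^ 2 + 4 * ∑ m ∈ Ioo p n, (m * AA p m j) * (j * BB p m j)

/-- (short-medium) Rogosinski's inequality for finite measures. Let `s_m = ∑_{r<m} μ_{m-r} F_r`, `c_m = cv Q F m = F_m + 2κ s_m`,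
`g(x) = ∑_{m<n} x^{n-m} F_m`: `∑ w g(x_l) = s_n` and `∑ w |g|² = ∑_{m<n} (|F_m|² + 2 Re (s_m conj F_m))` (`|x| = 1`). So
`|c_n - F_n|² = 4|κ|² |s_n|² ≤ 4|κ|² ∑_{m<n} (|F_m|² + 2 Re (s_m conj F_m))`, and
`∑_{m<n} Re (conj κ c_m conj F_m) = ∑_{m<n} (Re κ |F_m|² + 2|κ|² Re (s_m conj F_m))`, `|κ|² ≤ Re κ`. -/
def RGA_stmt : Prop := ∀ (N : ℕ) (w : Fin N → ℝ) (x : Fin N → ℂ) (κ : ℂ) (Q F : ℕ → ℂ) (n : ℕ), Atomic N w x →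
  ‖κ‖ ^ 2 ≤ κ.re → Q 0 = 1 → (∀ m, 1 ≤ m → Q m = 2 * κ * mom w x m) →
  ‖cv Q F n - F n‖ ^ 2 ≤ 4 * ∑ m ∈ range n, ((starRingEnd ℂ) κ * (cv Q F m * (starRingEnd ℂ) (F m))).re

/-- (short) From `RGA`: approximate `μ` by moments (`M = t`, `ε = 1/(t+1)`), keep `κ`, `F`, `n`; then
`Re (conj κ c conj F) ≤ |κ| |c| |F| ≤ |c| |F|` (`|κ|² ≤ Re κ ≤ |κ|` gives `|κ| ≤ 1`). -/
def RGB_stmt : Prop := ∀ Q : ℕ → ℂ, Cara Q → Rgs Q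

/-- (short) Triangular systems: `c_j = t_j - ∑_{m<j} c_m Φ_m(j)` recursively; the second part by strong induction on `m`. -/
def LIN_stmt : Prop := ∀ (p : ℕ) (Φ : ℕ → ℕ → ℂ), (∀ m n, n < m → Φ m n = 0) → (∀ m, Φ m m = 1) →
  (∀ t : ℕ → ℂ, ∃ c : ℕ → ℂ, ∀ j ∈ Icc 1 p, cmb p Φ c j = t j) ∧
  ∀ c : ℕ → ℂ, (∀ j ∈ Icc 1 p, cmb p Φ c j = 0) → ∀ m ∈ Icc 1 p, c m = 0

/-- (short) `F_0 = cv Q F 0 = 0`; for `r < j`: `F_r = r b_r - ∑_{m<r} Q_{r-m} F_m = 0` by induction; `F_j = j`; for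
`j < r ≤ p`: `b_r = 0`, so `‖F_r‖² = ‖cv Q F r - F_r‖² ≤ 4 ∑_{m<r} ‖m b_m‖ ‖F_m‖ = 4j²`. -/
def FJB_stmt : Prop := ∀ (p j : ℕ) (Q b F : ℕ → ℂ), 1 ≤ j → j ≤ p → Q 0 = 1 → Rgs Q →
  (∀ m : ℕ, (m : ℂ) * b m = cv Q F m) → (∀ r, 1 ≤ r → r ≤ p → b r = if r = j then 1 else 0) →
  (∀ r, r < j → F r = 0) ∧ F j = j ∧ ∀ r, j < r → r ≤ p → ‖F r‖ ≤ 2 * j

/-- (short-medium) The step. From `FJB`, `NUE`: in Rogosinski's inequality for `n` the terms `m ≤ p` give `‖j‖ ‖F_j‖ = j²`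
(`b_m = 0` for the other `1 ≤ m ≤ p`, the term `m = 0` is `0`), the terms `p < m < n` are `≤ (m A(m,j)) (j B(m,j))`. -/
def STE_stmt : Prop := ∀ (p n j : ℕ) (Q b F : ℕ → ℂ), 1 ≤ j → j ≤ p → p < n → Q 0 = 1 → Rgs Q →
  (∀ m : ℕ, (m : ℂ) * b m = cv Q F m) → (∀ r, 1 ≤ r → r ≤ p → b r = if r = j then 1 else 0) →
  (∀ m, p < m → m < n → ‖b m‖ ≤ AA p m j) → (∀ m, p < m → m < n → ‖F m‖ ≤ j * BB p m j) →
  ‖(n : ℂ) * b n - F n‖ ≤ n * AA p n j - j * BB p n j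

/-- (medium) Goodman's inequality in `V`. From `LIN`, `FJB`, `STE`, `NUE`. Let `c^j` have `cmb p Φ c^j r = δ_{rj}` (`1 ≤ r ≤ p`),
`b^j = cmb p Φ c^j`, `F^j = cmb p Φ (fun m => m c^j_m)`; `m b^j_m = cv Q F^j m` by `Pws.eqn` (also for `m = 0`). Every
`b = cmb p Φ c` is `∑_{j=1}^p b_j b^j` (uniqueness in `LIN`), in particular `F^j_n = ∑_{q=1}^p F^j_q b^q_n`. Claim
`‖b^j_n‖ ≤ A(n,j)` for `n > p`: strong induction on `n`, for fixed `n` downward induction on `j` (or strong induction on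
`p - j`). For `p < m < n`: `‖F^j_m‖ ≤ j A(m,j) + ∑_{j<q≤p} 2j A(m,q) = j B(m,j)` (`FJB`). `STE`: `‖n b^j_n - F^j_n‖ ≤ D`,
`D = n A(n,j) - j B(n,j)`, and `(n-j) b^j_n = n b^j_n - F^j_n + ∑_{j<q≤p} F^j_q b^q_n`, so
`(n-j) ‖b^j_n‖ ≤ D + 2j ∑_{j<q≤p} A(n,q) = (n-j) A(n,j)`. -/
def STB_stmt : Prop := ∀ (p : ℕ) (Q : ℕ → ℂ) (Φ : ℕ → ℕ → ℂ), Q 0 = 1 → Rgs Q → Pws Q Φ →
  ∀ (c : ℕ → ℂ) (n : ℕ), p < n → ‖cmb p Φ c n‖ ≤ ∑ j ∈ Icc 1 p, AA p n j * ‖cmb p Φ c j‖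

/-- (medium) The relative version. From `LIN`, `FJB`, `STE`, `NUE` and the conclusion of `STB` as hypothesis. For `1 ≤ j ≤ p` let
`t` be defined by `t_r = r δ_{rj} - ∑_{m<r} Q_{r-m} t_m` (`t_0 = 0`), `F^j = cmb p Φ c^j` with `F^j_r = t_r` for `1 ≤ r ≤ p` (`LIN`),
`b^j_n = cv Q F^j n / n`. Then `n b^j_n = cv Q F^j n` (for `n = 0`: `F^j_0 = 0`), `b^j_r = δ_{rj}` for `1 ≤ r ≤ p`. As in `STB`
`‖F^j_m‖ ≤ j B(m,j)` for all `m > p` (hypothesis and `FJB`), and by strong induction on `n` with `STE`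
`n ‖b^j_n‖ ≤ D + j B(n,j) = n A(n,j)`. General `b`: `F - ∑_j b_j F^j` is a combination of the `Φ_m` with vanishing
coefficients `1..p` (induction on `r`: `F_r = r b_r - ∑_{m<r} Q_{r-m} F_m`), so it is `0` (`LIN`), and `b_n = ∑_j b_j b^j_n`. -/
def CCV_stmt : Prop := ∀ (p : ℕ) (Q : ℕ → ℂ) (Φ : ℕ → ℕ → ℂ), Q 0 = 1 → Rgs Q →
  (∀ m n, n < m → Φ m n = 0) → (∀ m, Φ m m = 1) →
  (∀ (c : ℕ → ℂ) (n : ℕ), p < n → ‖cmb p Φ c n‖ ≤ ∑ j ∈ Icc 1 p, AA p n j * ‖cmb p Φ c j‖) →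
  ∀ (c b : ℕ → ℂ), (∀ n : ℕ, (n : ℂ) * b n = cv Q (cmb p Φ c) n) →
  ∀ n : ℕ, p < n → ‖b n‖ ≤ ∑ j ∈ Icc 1 p, AA p n j * ‖b j‖

/-- `φ` is spirallike (of type `γ`; starlike for `γ = 0`). -/
structure Spiral (φ : ℂ → ℂ) (γ : ℝ) : Prop where
  analytic : DifferentiableOn ℂ φ (ball 0 1)
  map_zero : φ 0 = 0
  deriv_ne : deriv φ 0 ≠ 0
  angle : |γ| < Real.pi / 2
  spiral : ∀ z ∈ ball (0 : ℂ) 1, z ≠ 0 → 0 < (Complex.exp (γ * Complex.I) * (z * deriv φ z / φ z)).re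

/-- (short-medium) Functions of positive real part. From `CO1`, `APX`. `Q(0) = s + it`, `s > 0`, `P = (Q - it)/s`, `P(0) = 1`, let
`dbl μ = coeff P`, `μ 0 = 1` (`μ m = coeff P m/2` for `m ≥ 1`); `Approx μ` by `APX`. `κ = s/Q(0)`: `coeff Q m = s 2 μ_m = Q(0) 2 κ μ_m` for
`m ≥ 1`, and `Re κ = s²/|Q(0)|² = |κ|²`. -/
def CAR_stmt : Prop := ∀ Q : ℂ → ℂ, DifferentiableOn ℂ Q (ball 0 1) → (∀ z ∈ ball (0 : ℂ) 1, 0 < (Q z).re) →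
  ∃ q : ℕ → ℂ, Cara q ∧ Q 0 ≠ 0 ∧ ∀ n, N2b689f5b.coeff Q n = Q 0 * q n

/-- (short-medium) `φ z ≠ 0` for `0 < |z| < 1` (otherwise the quotient is `0` in Lean). `h = dslope φ 0` is analytic,
`φ z = z h z`, `h 0 = φ'(0)`, zero-free in the disc; `q = φ'/h`; `q z = z φ'/φ` for `z ≠ 0`, `q 0 = 1`, and
`Re (e^{iγ}) = cos γ > 0`. -/
def SPQ_stmt : Prop := ∀ (φ : ℂ → ℂ) (γ : ℝ), Spiral φ γ → ∃ q : ℂ → ℂ, DifferentiableOn ℂ q (ball 0 1) ∧ q 0 = 1 ∧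
  (∀ z ∈ ball (0 : ℂ) 1, 0 < (Complex.exp (γ * Complex.I) * q z).re) ∧
  ∀ z ∈ ball (0 : ℂ) 1, z * deriv φ z = q z * φ z

/-- (short-medium) The powers. From `CO1`-`CO4`. `z (φ^m)' = m q φ^m` gives the equation; the low coefficients vanish by the
equation and induction (`(n - m) Φ_n = m ∑_{r<n} q_{n-r} Φ_r`, `Φ_0 = 0` for `m ≥ 1`), and `coeff (φ^{m+1}) (m+1) = coeff (φ^m) m · coeff φ 1`
by `CO3`; `coeff φ 1 = deriv φ 0`. -/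
def PWC_stmt : Prop := ∀ φ q : ℂ → ℂ, DifferentiableOn ℂ φ (ball 0 1) → φ 0 = 0 → deriv φ 0 ≠ 0 →
  DifferentiableOn ℂ q (ball 0 1) → q 0 = 1 → (∀ z ∈ ball (0 : ℂ) 1, z * deriv φ z = q z * φ z) →
  Pws (N2b689f5b.coeff q) (fun m n => N2b689f5b.coeff (fun z => φ z ^ m) n / deriv φ 0 ^ m)

/-- (medium) The theorem. From `CO1`-`CO4`, `RGB`, `STB`, `CCV`, `CAR`, `SPQ`, `PWC`. `q` from `SPQ`; `coeff q` is `Cara` by `CAR` for `e^{iγ} q`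
(value `e^{iγ}` at `0`), so `Rgs (coeff q)`; `Φ` from `PWC`, `STB`. The coefficients of `R(φ(z)) = ∑_{m=1}^p R_m φ^m` are `cmb p Φ c'`,
`c'_m = R_m φ'(0)^m` (`R_0 = 0`); those of `Q` are `Q(0) q'`, `Cara q'` (`CAR`); so `n coeff f n = cv q' (cmb p Φ (Q(0) c')) n` (`CO2`-`CO4`).
`CCV` for `q'`. -/
def FNG_stmt : Prop := ∀ (φ f Q : ℂ → ℂ) (γ : ℝ) (R : Polynomial ℂ) (p : ℕ), Spiral φ γ →
  DifferentiableOn ℂ f (ball 0 1) → DifferentiableOn ℂ Q (ball 0 1) → (∀ z ∈ ball (0 : ℂ) 1, 0 < (Q z).re) →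
  R.natDegree ≤ p → R.eval 0 = 0 → (∀ z ∈ ball (0 : ℂ) 1, z * deriv f z = Q z * R.eval (φ z)) →
  ∀ n : ℕ, p < n → ‖N2b689f5b.coeff f n‖ ≤ N2b689f5b.goodmanBound f p n

/-- (short) The case `f = P ∘ φ`. From `FNG`, `SPQ`: `Q = e^{iγ} q`, `R = e^{-iγ} X P'`. -/
def FNP_stmt : Prop := ∀ (φ : ℂ → ℂ) (γ : ℝ) (P : Polynomial ℂ) (p : ℕ), Spiral φ γ → P.natDegree ≤ p →
  ∀ n : ℕ, p < n → ‖N2b689f5b.coeff (fun z => P.eval (φ z)) n‖ ≤ N2b689f5b.goodmanBound (fun z => P.eval (φ z)) p n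

end Pool.Agent.GD
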