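import Pool.Agent.helper65.GD.MUF

/-!
# Goodman's inequality for polynomials of close-to-convex functions (MP_ea335c_an)

Row `XX`: `theorem XX (h1 : YY_stmt) ... : XX_stmt` in namespace `Pool.Agent.GD`, file `Pool/Agent/<seat>/GF/XX.lean`,
importing this file. A complete proof of every row is in its docstring. All inequalities were checked numerically.

Setting: `g = z ĝ(z)` starlike, `z g'/g = 1 + 2 ∑ β_m z^m`, so `ĝ = exp (2 ∑ β_m z^m/m)`, `ω = 1/ĝ`, `u = √ω`;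
`β_m = ∑_l w_l x_l^m` (a limit of such). `κ` = coefficients of `1/Q`, `e = ω κ`, `D = 1 - |β_1|²`.
-/

set_option autoImplicit false

namespace Pool.Agent.GD

open Finset Metric Filter Topology

/-- The coefficients of `exp (s ∑ β_m z^m / m)`: `a_0 = 1`, `n a_n = s ∑_{q<n} β_{n-q} a_q`. -/
noncomputable def ex (s : ℂ) (β : ℕ → ℂ) : ℕ → ℂ
  | 0 => 1
  | n + 1 => s / ((n : ℂ) + 1) * ∑ q : Fin (n + 1), β (n + 1 - q) * ex s β q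

/-- `ex` satisfies the recursion. -/
theorem ex_rec (s : ℂ) (β : ℕ → ℂ) : Rec s β (ex s β) := by
  refine ⟨by rw [ex], ?_⟩
  intro k
  cases k with
  | zero => simp
  | succ n =>
    rw [ex, Finset.sum_range (fun m => β (n + 1 - m) * ex s β m)]
    have hn : ((n : ℂ) + 1) ≠ 0 := by exact_mod_cast Nat.succ_ne_zero n
    push_cast
    field_simp

/-- Uniqueness. -/
theorem ex_uni (s : ℂ) (β a : ℕ → ℂ) (h : Rec s β a) : a = ex s β := by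
  have h2 := ex_rec s β
  funext n
  induction n using Nat.strong_induction_on with
  | _ n ih =>
    rcases Nat.eq_zero_or_pos n with h0 | h0
    · subst h0
      rw [h.1, h2.1]
    · have e1 := h.2 n
      have e2 := h2.2 n
      rw [Finset.sum_congr rfl (fun m hm => by rw [ih m (mem_range.1 hm)]), ← e2] at e1
      have hn : (n : ℂ) ≠ 0 := by exact_mod_cast (by omega : n ≠ 0)
      exact mul_left_cancel₀ hn e1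

theorem ex_zero (s : ℂ) (β : ℕ → ℂ) : ex s β 0 = 1 := (ex_rec s β).1

/-- `∑_{q≤n} y^{n-q} a_q`: the coefficients of `a(z)/(1-yz)`. -/
noncomputable def gy (a : ℕ → ℂ) (y : ℂ) (n : ℕ) : ℂ := ∑ q ∈ range (n + 1), y ^ (n - q) * a q

theorem gy_zero (a : ℕ → ℂ) (y : ℂ) : gy a y 0 = a 0 := by simp [gy]

theorem gy_succ (a : ℕ → ℂ) (y : ℂ) (n : ℕ) : gy a y (n + 1) = a (n + 1) + y * gy a y n := by
  unfold gy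
  rw [Finset.sum_range_succ, Nat.sub_self, pow_zero, one_mul, Finset.mul_sum, add_comm]
  congr 1
  refine Finset.sum_congr rfl fun q hq => ?_
  have := mem_range.1 hq
  rw [show n + 1 - q = (n - q) + 1 by omega, pow_succ]
  ring

/-- `cv` as a product of power series. -/
theorem cv_eq (a b : ℕ → ℂ) (n : ℕ) : cv a b n = PowerSeries.coeff n (PowerSeries.mk a * PowerSeries.mk b) := by
  rw [mul_comm, PowerSeries.coeff_mul, Finset.Nat.sum_antidiagonal_eq_sum_range_succ_mk]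
  unfold cv
  refine Finset.sum_congr rfl fun r _ => ?_
  rw [PowerSeries.coeff_mk, PowerSeries.coeff_mk]
  ring

theorem cv_mk (a b : ℕ → ℂ) : PowerSeries.mk (cv a b) = PowerSeries.mk a * PowerSeries.mk b := by
  ext n
  rw [PowerSeries.coeff_mk, cv_eq]

theorem cv_comm (a b : ℕ → ℂ) (n : ℕ) : cv a b n = cv b a n := by
  rw [cv_eq, cv_eq, mul_comm]

theorem cv_assoc (a b c : ℕ → ℂ) (n : ℕ) : cv (cv a b) c n = cv a (cv b c) n := by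
  rw [cv_eq, cv_eq, cv_mk, cv_mk, mul_assoc]

/-- `gy a y = cv a (y^·)`. -/
theorem gy_eq (a : ℕ → ℂ) (y : ℂ) (n : ℕ) : gy a y n = cv (fun m => y ^ m) a n := rfl

/-- `1, 0, 0, ...`. -/
def dl (n : ℕ) : ℂ := if n = 0 then 1 else 0

/-- `∑_{k<n} g_{n-1-k} h_k`: the coefficients of `z g(z) h(z)`. -/
noncomputable def gs (g h : ℕ → ℂ) (n : ℕ) : ℂ := ∑ k ∈ range n, g (n - 1 - k) * h k

/-- The basis of the space of the `z g(z) h(z)`. -/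
noncomputable def psg (g : ℕ → ℂ) (Φ : ℕ → ℕ → ℂ) (m n : ℕ) : ℂ :=
  if m = 0 then (if n = 0 then 1 else 0) else gs g (one0 Φ (m - 1)) n

/-- `Z_{A,r} = ∑_{i≤r} g_{A+r-i} (gy ω y)_i`. -/
noncomputable def ZZ (g ω : ℕ → ℂ) (y : ℂ) (A r : ℕ) : ℂ := ∑ i ∈ range (r + 1), g (A + r - i) * gy ω y i

/-- `C_{A,m} = ∑_{i≤m} g_{A+m-i} ω_i`. -/
noncomputable def CC (g ω : ℕ → ℂ) (A m : ℕ) : ℂ := ∑ i ∈ range (m + 1), g (A + m - i) * ω i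

/-- What is used about `g = ĝ` and `e = ω κ`. -/
structure Dat (g e : ℕ → ℂ) (D : ℝ) : Prop where
  D0 : 0 ≤ D
  g0 : g 0 = 1
  e0 : e 0 = 1
  e1 : ‖e 1‖ ≤ 4 - D
  e2 : ‖e 2‖ ≤ 7
  e3 : ∀ i, ‖e i‖ ≤ 8
  gb : ∀ n : ℕ, ‖g n‖ ≤ n + 1
  p1 : ∀ A : ℕ, 1 ≤ A → ‖∑ i ∈ range 2, g (A + 1 - i) * e i‖ ≤ 3 * A + 2
  p2 : ∀ A r : ℕ, 1 ≤ A → 2 ≤ r → ‖∑ i ∈ range (r + 1), g (A + r - i) * e i‖ ≤
    4 * A + 2 + (A : ℝ) * (A + 1) / 2 * D * (((r : ℝ) ^ 2 + 4 * r - 8) / 3)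

/-- `1, 4, 7, 8, 8, ...`. -/
def EE (i : ℕ) : ℝ := if i = 0 then 1 else if i = 1 then 4 else if i = 2 then 7 else 8

/-- The boundary terms. -/
def TT (r A : ℕ) : ℝ := if r = 0 then A + 1 else if r = 1 then 3 * A + 2 else 4 * A + 2

/-! ## Block A: sequences -/

/-- (short) `ex_uni`: the sequence `cv (ex s β) (ex t β)` satisfies `Rec (s + t) β`:
`n ∑_{r≤n} a_{n-r} b_r = ∑ (n-r) a_{n-r} b_r + ∑ a_{n-r} r b_r`, insert the two recursions `ex_rec` (it may be convenient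
to write `Rec s β a` as `n a_n = s (cv β' a)_n`, `β'_m = β_m` for `m ≥ 1`, `β'_0 = 0`, and to use `cv_eq`, `cv_comm`,
`cv_assoc`; or `PowerSeries.derivativeFun`). The second part: `Rec 0 β dl` and `ex_uni`. -/
def XEM_stmt : Prop := (∀ (s t : ℂ) (β : ℕ → ℂ) (n : ℕ), cv (ex s β) (ex t β) n = ex (s + t) β n) ∧
  ∀ (β : ℕ → ℂ) (n : ℕ), ex 0 β n = dl n

/-- (short) `‖mom w x m‖ ≤ 1` for atomic measures, limit; `Cara Q`: `‖Q m‖ = 2 ‖κ‖ ‖μ m‖` and `‖κ‖ ≤ 1` from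
`‖κ‖² ≤ Re κ ≤ ‖κ‖`. -/
def XCB_stmt : Prop := (∀ (β : ℕ → ℂ) (m : ℕ), Approx β → ‖β m‖ ≤ 1) ∧
  ∀ (Q : ℕ → ℂ) (m : ℕ), Cara Q → 1 ≤ m → ‖Q m‖ ≤ 2

/-- (medium) Let `Q_m = 2 κ μ_m` (`m ≥ 1`), `Approx μ`. For atomic moments `μ' = mom w x` in place of `μ` and `Q'`:
`(cv a Q')_i = ∑_l w_l (gy a x_l i + (2κ-1) x_l gy a x_l (i-1))` for `i ≥ 1` and `= a_0 = ∑ w_l gy a x_l 0` for `i = 0`
(because `x gy a x (i-1) = ∑_{m=1}^{i} x^m a_{i-m}` and `gy a x i = a_i + x gy a x (i-1)`, `gy_succ`), and `|2κ-1| ≤ 1`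
(`|2κ-1|² = 4|κ|² - 4 Re κ + 1`). So `‖∑_i b_i (cv a Q')_i‖ ≤ ∑_l w_l M = M`. The left side is continuous in
`μ'_1, ..., μ'_r`: limit. -/
def XAV_stmt : Prop := ∀ (a b Q : ℕ → ℂ) (r : ℕ) (M : ℝ), Cara Q →
  (∀ y : ℂ, ‖y‖ = 1 →
    ‖∑ i ∈ range (r + 1), b i * gy a y i‖ + ‖∑ i ∈ Icc 1 r, b i * gy a y (i - 1)‖ ≤ M) →
  ‖∑ i ∈ range (r + 1), b i * cv a Q i‖ ≤ M

/-- (medium) Let `c = x / y` (`|c| = 1`), `u = y z`, `q = 1/(1-u)` (`Re q > 1/2`), `W = (1-xz)/(1-yz) = (1-c) q + c = exp A`,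
`A = log(1-xz) - log(1-yz)`. If `c = 1` (`x = y`): `A = 0`, `θ = 0`. Otherwise `θ = arg (1-c)`:
`Re (conj(1-c) W) = |1-c|² (Re q - 1/2) > 0` (`c conj(1-c) = c - 1`, `Re (1-c) = |1-c|²/2`), i.e. `cos (Im A - θ) > 0`; and
`|Im A| < π` (both logarithms have imaginary part in `(-π/2, π/2)` as `Re (1-xz) > 0`), `|θ| ≤ π/2`, so
`|Im A - θ| < 3π/2`, hence `< π/2`. -/
def XT1_stmt : Prop := ∀ x y : ℂ, ‖x‖ = 1 → ‖y‖ = 1 → ∃ θ : ℝ, ∀ z ∈ ball (0 : ℂ) 1,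
  |(Complex.log (1 - x * z) - Complex.log (1 - y * z)).im - θ| < Real.pi / 2

/-- `T(z) = ∏ ((1 - x_l z)/(1 - y z))^{w_l}`. -/
noncomputable def TF {N : ℕ} (w : Fin N → ℝ) (x : Fin N → ℂ) (y z : ℂ) : ℂ :=
  Complex.exp (∑ l, (w l : ℂ) * (Complex.log (1 - x l * z) - Complex.log (1 - y * z)))

/-- (short-medium) From `XT1`: `θ_l` for `x_l`, `Θ = ∑ w_l θ_l`; the argument of `exp(-iΘ) T(z)` is
`∑ w_l (Im A_l - θ_l)`, of modulus `< π/2` (weights `≥ 0` of sum `1`, some weight is positive), so the real part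
`exp(..) cos(..)` is positive. -/
def XT2_stmt : Prop := ∀ (N : ℕ) (w : Fin N → ℝ) (x : Fin N → ℂ) (y : ℂ), Atomic N w x → ‖y‖ = 1 →
  ∃ Θ : ℝ, ∀ z ∈ ball (0 : ℂ) 1, 0 < (Complex.exp (-(Θ * Complex.I)) * TF w x y z).re

/-- (short) `CO1`, `CO3`, `CO4`, `CO2` (theorems of this namespace, imported): with `a = coeff E` (`N2b689f5b.coeff`, `a_0 = E 0`),
`n a_n = s ∑_{q<n} β_{n-q} a_q`, so `Rec s β a`, and `ex_uni`. -/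
def XOD_stmt : Prop := ∀ (s : ℂ) (β : ℕ → ℂ) (E B : ℂ → ℂ), DifferentiableOn ℂ E (ball 0 1) → E 0 = 1 →
  Ser (fun n => if n = 0 then 0 else β n) B → (∀ z ∈ ball (0 : ℂ) 1, z * deriv E z = s * (B z * E z)) →
  Ser (ex s β) E

/-- (medium) From `XOD`. `E(z) = exp (∑ w_l log(1 - x_l z))` (differentiable: `Re (1 - x_l z) > 0`), `E 0 = 1`,
`z E' = -B E` with `B(z) = ∑_l w_l x_l z/(1 - x_l z) = ∑_{m≥1} (mom w x m) z^m`; so `Ser (ex (-1) (mom w x)) E` by `XOD`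
(`s = -1`). `TF w x y z = E(z)/(1-yz)` on the disc (`∑ w_l = 1`, `exp (-log(1-yz)) = 1/(1-yz)`); the Cauchy product (`CO3`)
with the geometric series is `gy`. -/
def XT3_stmt : Prop := ∀ (N : ℕ) (w : Fin N → ℝ) (x : Fin N → ℂ) (y : ℂ), Atomic N w x → ‖y‖ = 1 →
  Ser (gy (ex (-1) (mom w x)) y) (TF w x y)

/-- (short) From `XT2`, `XT3`: `car_holds` (`CAR_stmt` of `SpecE`, imported) for `Q(z) = exp(-iΘ) T(z)` (`Q 0 = exp(-iΘ)` as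
`T 0 = 1`); differentiable by `CO4`; the coefficients are `exp(-iΘ) gy ..` by `CO1`, `CO2`, `ITE_ser_mul`. -/
def XTB_stmt : Prop := ∀ (N : ℕ) (w : Fin N → ℝ) (x : Fin N → ℂ) (y : ℂ), Atomic N w x → ‖y‖ = 1 →
  Cara (gy (ex (-1) (mom w x)) y)

/-- (short-medium) From `XEM`, `XCB`, `XAV`, `XTB`. `a = ex (-1) (mom w x)`; `T^y = gy a y` is `Cara`, so `‖gy a y n‖ ≤ 2` for `n ≥ 1`
and `= 1` for `n = 0`. `gy (ex (-2) ..) y = cv a (gy a y)` (`XEM`, `gy_eq`, `cv_assoc`, `cv_comm`). `XAV` with `Q = gy a y`, `r = n`,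
`b i = 1` for `i = n` and `0` otherwise: `≤ ‖gy a y' n‖ + ‖gy a y' (n-1)‖ ≤ 2 + 2`, for `n = 1`: `2 + 1`. -/
def XGB_stmt : Prop := ∀ (N : ℕ) (w : Fin N → ℝ) (x : Fin N → ℂ) (y : ℂ), Atomic N w x → ‖y‖ = 1 →
  (∀ n, ‖gy (ex (-2) (mom w x)) y n‖ ≤ 4) ∧ ‖gy (ex (-2) (mom w x)) y 1‖ ≤ 3

/-- (short-medium) `mom (m+1) - 2 mom 1 mom m = ∑ w_l (x_l - 2 mom 1) x_l^m`; Cauchy-Schwarz and
`∑ w_l |x_l - 2 mom 1|² = 1 - 4 |mom 1|² + 4 |mom 1|² = 1`. -/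
def XLB_stmt : Prop := ∀ (N : ℕ) (w : Fin N → ℝ) (x : Fin N → ℂ) (m : ℕ), Atomic N w x →
  ‖mom w x (m + 1) - 2 * mom w x 1 * mom w x m‖ ≤ 1

/-- (short) Strong induction: `n ‖a_n‖ ≤ 2 ∑_{q<n} (q+1) = n (n+1)`. -/
def XGR_stmt : Prop := ∀ β : ℕ → ℂ, (∀ m, ‖β m‖ ≤ 1) → ∀ n : ℕ, ‖ex 2 β n‖ ≤ n + 1

/-- (short-medium) From `XLB`, `XGR` (`‖mom w x m‖ ≤ 1`). `a = ex 2 β`, `β = mom w x`, `n = A + 1`:
`n (a_n - 2β_1 a_{n-1}) = 2 ∑_{m=1}^{n-1} (β_{m+1} - 2 β_1 β_m) a_{n-1-m}` (the recursion for `n` and for `n - 1`), of modulus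
`≤ 2 ∑_{m=1}^{n-1} (n-m) = n (n-1)`. -/
def XZ1_stmt : Prop := ∀ (N : ℕ) (w : Fin N → ℝ) (x : Fin N → ℂ) (A : ℕ), Atomic N w x →
  ‖ex 2 (mom w x) (A + 1) - 2 * mom w x 1 * ex 2 (mom w x) A‖ ≤ A

/-- (medium) `ω = ex (-2) β`, `β = mom w x`, `q_m = ∑ w_l ‖gy ω x_l m‖`. `m = 2`: `ω_1 = -2β_1`, `ω_2 = 2β_1² - β_2`,
`gy ω x 2 = (x - β_1)² + (β_1² - β_2)`, `∑ w |x-β_1|² = 1 - |β_1|² = D`, `|β_2 - β_1²| = |∑ w (x-β_1)²| ≤ D`, so `q_2 ≤ 2D`.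
`m ≥ 3`: `m ω_m = -2 ∑_l w_l x_l gy ω x_l (m-1)`, so `|ω_m| ≤ (2/m) q_{m-1}`, and `gy_succ` gives
`q_m ≤ q_{m-1} + |ω_m| ≤ (1 + 2/m) q_{m-1}`; induction. -/
def XQM_stmt : Prop := ∀ (N : ℕ) (w : Fin N → ℝ) (x : Fin N → ℂ) (m : ℕ), Atomic N w x → 2 ≤ m →
  ∑ l, w l * ‖gy (ex (-2) (mom w x)) (x l) m‖ ≤ (1 - ‖mom w x 1‖ ^ 2) * ((m : ℝ) + 1) * (m + 2) / 6

/-- (medium) From `IDA_stmt` (of `Spec`, already proved, a hypothesis here), `XGR`, `XQM`. `a = ex 2 β`, `ω = ex (-2) β`.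
`IDA` (`s = 2`, `k = A`, `i = m`) and `A a_A = 2 ∑_{k<A} β_{A-k} a_k` give
`(A+m) C_{A,m} = 2 ∑_{k<A} a_k ∑_{l≤m} β_{(A-k)+(m-l)} ω_l`, and `∑_{l≤m} β_{B+m-l} ω_l = ∑_j w_j x_j^B gy ω x_j m`, of modulus
`≤ q_m ≤ D (m+1)(m+2)/6`; `2 ∑_{k<A} (k+1) = A(A+1)`; `A + m ≥ m + 1`. -/
def XHK_stmt : Prop := ∀ (N : ℕ) (w : Fin N → ℝ) (x : Fin N → ℂ) (A m : ℕ), Atomic N w x → 1 ≤ A → 2 ≤ m →
  ‖CC (ex 2 (mom w x)) (ex (-2) (mom w x)) A m‖ ≤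
    (A : ℝ) * (A + 1) / 2 * (1 - ‖mom w x 1‖ ^ 2) * (((m : ℝ) + 2) / 3)

/-- (medium) From `XGR`, `XZ1`, `XHK`. `Z_{A,r} = y Z_{A,r-1} + C_{A,r}` (`r ≥ 1`, `gy_succ`), `Z_{A,0} = a_A`,
`C_{A,1} = a_{A+1} - 2β_1 a_A` (`‖ ‖ ≤ A`), `∑_{m=2}^{r} (m+2)/3 = (r-1)(r+6)/6`; induction on `r`. -/
def XZB_stmt : Prop := ∀ (N : ℕ) (w : Fin N → ℝ) (x : Fin N → ℂ) (y : ℂ) (A : ℕ), Atomic N w x → ‖y‖ = 1 → 1 ≤ A →
  ‖ZZ (ex 2 (mom w x)) (ex (-2) (mom w x)) y A 0‖ ≤ A + 1 ∧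
  ∀ r : ℕ, 1 ≤ r → ‖ZZ (ex 2 (mom w x)) (ex (-2) (mom w x)) y A r‖ ≤
    2 * A + 1 + (A : ℝ) * (A + 1) / 2 * (1 - ‖mom w x 1‖ ^ 2) * (((r : ℝ) - 1) * (r + 6) / 6)

/-- (short-medium) From `XCB`, `XAV`, `XGB`. `ω = ex (-2) β`, `e = cv ω κ`, `e_0 = 1`, `e_1 = ω_1 + κ_1 = κ_1 - 2β_1` and
`2 + 2|β_1| ≤ 4 - D = 3 + |β_1|²`. `XAV` (`a = ω`, `Q = κ`, `b` as in `XGB`): `‖e_2‖ ≤ 4 + 3`, `‖e_n‖ ≤ 4 + 4`. -/
def XEB_stmt : Prop := ∀ (N : ℕ) (w : Fin N → ℝ) (x : Fin N → ℂ) (κ : ℕ → ℂ), Atomic N w x → Cara κ →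
  cv (ex (-2) (mom w x)) κ 0 = 1 ∧
  ‖cv (ex (-2) (mom w x)) κ 1‖ ≤ 4 - (1 - ‖mom w x 1‖ ^ 2) ∧
  ‖cv (ex (-2) (mom w x)) κ 2‖ ≤ 7 ∧ ∀ i, ‖cv (ex (-2) (mom w x)) κ i‖ ≤ 8

/-- (short-medium) From `XAV`, `XZB`: `b i = a (A + r - i)`, `a = ex 2 β`; then the two sums in `XAV` (with `ω` for `a`) are
`Z_{A,r}` and `Z_{A,r-1}` (reindex `i ↦ i - 1`). `r = 1`: `2A+1 + A+1`; `r ≥ 2`: `2(2A+1) + A(A+1)/2 D ((r-1)(r+6) + (r-2)(r+5))/6`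
and `(r-1)(r+6) + (r-2)(r+5) = 2 (r² + 4r - 8)`. -/
def XPB_stmt : Prop := ∀ (N : ℕ) (w : Fin N → ℝ) (x : Fin N → ℂ) (κ : ℕ → ℂ) (A : ℕ), Atomic N w x → Cara κ → 1 ≤ A →
  ‖∑ i ∈ range 2, ex 2 (mom w x) (A + 1 - i) * cv (ex (-2) (mom w x)) κ i‖ ≤ 3 * A + 2 ∧
  ∀ r : ℕ, 2 ≤ r → ‖∑ i ∈ range (r + 1), ex 2 (mom w x) (A + r - i) * cv (ex (-2) (mom w x)) κ i‖ ≤
    4 * A + 2 + (A : ℝ) * (A + 1) / 2 * (1 - ‖mom w x 1‖ ^ 2) * (((r : ℝ) ^ 2 + 4 * r - 8) / 3)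

/-- (medium) From `XGR`, `XEB`, `XPB` and `CTN_stmt` (of `Spec`, already proved: continuity of `Rec`). For atomic `β` everything is
there (`‖mom w x m‖ ≤ 1`). For `Approx β`: for every `t` take atomic moments `ν t` with `‖ν t m - β m‖ < 1/(t+1)` for `m ≤ t`,
so `ν t m → β m`; by `CTN` and `ex_rec` `ex s (ν t) k → ex s β k`; all the quantities in `Dat` are continuous functions (finite
sums of products, norms) of finitely many of these: `le_of_tendsto'`. -/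
def XDL_stmt : Prop := ∀ β κ : ℕ → ℂ, Approx β → Cara κ →
  Dat (ex 2 β) (cv (ex (-2) β) κ) (1 - ‖β 1‖ ^ 2)

/-! ## Block B: numbers -/

/-- (medium) From `NUM2` (`Pool.Agent.helper65.GD.NUM2`, imported; theorem about `ae`, `c3`, `eb`: for `1 ≤ q ≤ p + 1`
`AA (p+1) n q = eb p n q + ∑_{m ∈ Ioo p n} (n-m) c3 p m q`, `c3 p m q = A(p,m,q-1) + 2 A(p,m,q) + A(p,m,q+1)` with
`A(p,m,k) = 0` unless `1 ≤ k ≤ p`, `eb = n - p` for `q = p + 1`, `n - p - 1` for `q = p`, otherwise `0`).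
`BB (p+1) n j = ∑_{q=j}^{p+1} t_{q-j} AA (p+1) n q`, `t = 1, 2, 2, ...`, and the coefficient of `A(p,m,k)` in
`∑_{q=j}^{p+1} t_{q-j} c3 p m q` is `t_{k+1-j} + 2 t_{k-j} + t_{k-1-j} = EE (k+1-j)` (`t = 0` for negative index). -/
def XNI_stmt : Prop := ∀ p n j : ℕ, 1 ≤ j → j ≤ p + 1 → p + 1 < n →
  TT (p + 1 - j) (n - p - 1) + ∑ m ∈ Ioo p n, ((n : ℝ) - m) *
      ∑ k ∈ Icc 1 p, AA p m k * (if k + 1 < j then 0 else EE (k + 1 - j)) = BB (p + 1) n j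

/-- (medium) `AA p (p+1) j = 2j (2p+1)!/((p+1-j)! (p+1+j)!) = j/(p+1) C(2p+2, p+1-j)`. With `r = p + 1 - j ≥ 2`:
`j/(j+r) ≥ 1/(1+r)` and `C(2j+2r, r) ≥ C(2r+2, r)`. `r = 2`: `C(6,2)/3 = 5 ≥ 4/3`. `r ≥ 3`: `C(2r+2, r) ≥ C(2r+2, 3)`
(`Nat.choose_le_choose..` / `Nat.choose` is increasing up to the middle, `3 ≤ r ≤ r+1`), and
`C(2r+2,3)/(r+1) = (2r+1)(2r)/3 ≥ (r²+4r-8)/3`. -/
def XN1_stmt : Prop := ∀ p j : ℕ, 1 ≤ j → j + 1 ≤ p →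
  (((p + 1 - j : ℕ) : ℝ) ^ 2 + 4 * ((p + 1 - j : ℕ) : ℝ) - 8) / 3 ≤ AA p (p + 1) j

/-- (short-medium) `AA p m j ≤ AA p (m+1) j` for `1 ≤ j ≤ p < m`: the quotient is `(m+p+1)(m²-j²)/((m-p)((m+1)²-j²))`, and
`m+p+1 ≥ m+1+j`, `m-j ≥ m-p`, `m+j ≥ m+1-j`; induction on `m`. -/
def XN2_stmt : Prop := ∀ p m j : ℕ, 1 ≤ j → j ≤ p → p < m → AA p (p + 1) j ≤ AA p m j

/-- (short) From `XN1`, `XN2`: `∑_{m ∈ Ioo p n} (n-m) = A(A+1)/2` with `A = n - p - 1`. -/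
def XN3_stmt : Prop := ∀ p n j : ℕ, 1 ≤ j → j + 1 ≤ p → p + 1 < n →
  ((n - p - 1 : ℕ) : ℝ) * ((n - p - 1 : ℕ) + 1) / 2 *
      ((((p + 1 - j : ℕ) : ℝ) ^ 2 + 4 * ((p + 1 - j : ℕ) : ℝ) - 8) / 3) ≤
    ∑ m ∈ Ioo p n, ((n : ℝ) - m) * AA p m j

/-- (medium) From `XNI`, `XN3` (`0 ≤ AA p m k` for `1 ≤ k ≤ p < m`: `nue_holds`, imported). Put `A = n - p - 1`, `r = p + 1 - j`. Split
the sum at `k ≤ p`: with `k = j - 1 + i` the first part is `j ∑_{i≤r} g_{A+r-i} e_i`, of modulus `≤ j P`, `P = A + 1` (`r = 0`),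
`3A + 2` (`r = 1`), `4A + 2 + A(A+1)/2 D (r²+4r-8)/3` (`r ≥ 2`). The second part is `∑_{p<m<n} g_{n-1-m} h_m`,
`‖g_{n-1-m}‖ ≤ n - m`, `‖h_m‖ ≤ j ∑_k A(p,m,k) ‖e_{k+1-j}‖` (terms with `k + 1 < j` vanish), `‖e_i‖ ≤ EE i` and, for `j ≤ p`, the
term `k = j` is `≤ A(p,m,j) (4 - D)`: this saves `D ∑_m (n-m) A(p,m,j)`, which for `r ≥ 2` is at least
`D A(A+1)/2 (r²+4r-8)/3` (`XN3`). Sum up with `XNI`. -/
def XFB_stmt : Prop := ∀ (p n j : ℕ) (g e h : ℕ → ℂ) (D : ℝ), Dat g e D → 1 ≤ j → j ≤ p + 1 → p + 1 < n →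
  (∀ k, k ≤ p → h k = if k + 1 < j then 0 else j * e (k + 1 - j)) →
  (∀ m, p < m → ‖h m‖ ≤ ∑ k ∈ Icc 1 p, AA p m k * ‖h k‖) →
  ‖gs g h n‖ ≤ j * BB (p + 1) n j

/-! ## Block C: the step -/

/-- (medium) A copy of `CCV` (`Pool.Agent.helper65.GD.CCV`) with a weaker hypothesis. -/
def XM1_stmt : Prop := ∀ (p : ℕ) (Q : ℕ → ℂ) (Φ : ℕ → ℕ → ℂ), Q 0 = 1 → Rgs Q →
  (∀ m n, n < m → Φ m n = 0) → (∀ m, Φ m m = 1) →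
  (∀ (j : ℕ) (c : ℕ → ℂ), 1 ≤ j → j ≤ p →
    (∀ r, 1 ≤ r → r ≤ p → cv Q (cmb p Φ c) r = if r = j then (j : ℂ) else 0) →
    ∀ n, p < n → ‖cmb p Φ c n‖ ≤ j * BB p n j) →
  ∀ (c b : ℕ → ℂ), (∀ n : ℕ, (n : ℂ) * b n = cv Q (cmb p Φ c) n) →
  ∀ n : ℕ, p < n → ‖b n‖ ≤ ∑ j ∈ Icc 1 p, AA p n j * ‖b j‖

/-- (medium) From `XM1`: a copy of `ITC` (`Pool.Agent.helper65.GD.ITE`). -/
def XM2_stmt : Prop := ∀ (p : ℕ) (Q : ℕ → ℂ) (Φ : ℕ → ℕ → ℂ), Q 0 = 1 → Rgs Q →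
  (∀ m n, n < m → Φ m n = 0) → (∀ m, Φ m m = 1) →
  (∀ (j : ℕ) (c : ℕ → ℂ), 1 ≤ j → j ≤ p →
    (∀ r, 1 ≤ r → r ≤ p → cv Q (cmb p Φ c) r = if r = j then (j : ℂ) else 0) →
    ∀ n, p < n → ‖cmb p Φ c n‖ ≤ j * BB p n j) →
  ∃ Ψ : ℕ → ℕ → ℂ, Goo p Ψ ∧ ∀ c b : ℕ → ℂ, (∀ n : ℕ, (n : ℂ) * b n = cv Q (cmb p Φ c) n) →
    ∃ c' : ℕ → ℂ, ∀ n, 1 ≤ n → b n = cmb p Ψ c' n

/-- (short) As `MUF_cmb` and `MUF_low`, `MUF_goo` in `Pool.Agent.helper65.GD.MUF` (with `geo x y` replaced by `g`). -/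
def XPS_stmt : Prop := ∀ (p : ℕ) (g : ℕ → ℂ) (Φ : ℕ → ℕ → ℂ), Goo p Φ → g 0 = 1 →
  (∀ m n, n < m → psg g Φ m n = 0) ∧ (∀ m, psg g Φ m m = 1) ∧
  (∀ (c : ℕ → ℂ) (n : ℕ),
    cmb (p + 1) (psg g Φ) c n = gs g (fun r => ∑ m ∈ range (p + 1), c (m + 1) * one0 Φ m r) n) ∧
  ∀ (c : ℕ → ℂ) (m : ℕ), p < m → ‖∑ i ∈ range (p + 1), c (i + 1) * one0 Φ i m‖ ≤
    ∑ k ∈ Icc 1 p, AA p m k * ‖∑ i ∈ range (p + 1), c (i + 1) * one0 Φ i k‖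

/-- (medium) From `XPS`, `XFB`. `F = cmb (p+1) (psg g Φ) c = gs g h`, `h r = ∑_{m ≤ p} c (m+1) one0 Φ m r`. `(cv Q F)_r = j δ_{rj}`
for `1 ≤ r ≤ p+1` and `F_0 = 0`, so `F_r = (cv κ (cv Q F))_r = j κ_{r-j}` (`0` for `r < j`) for `r ≤ p + 1`. `F_{k+1} = (cv g h)_k`, so
for `k ≤ p` `h_k = (cv ω F_{·+1})_k = j ∑_{q ≤ k, q+1 ≥ j} ω_{k-q} κ_{q+1-j} = j (cv ω κ)_{k+1-j}` (`0` for `k + 1 < j`). Then `XFB`,
with the last part of `XPS`. -/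
def XM3_stmt : Prop := ∀ (p : ℕ) (Q κ g ω : ℕ → ℂ) (D : ℝ) (Φ : ℕ → ℕ → ℂ), Goo p Φ →
  (∀ n, cv κ Q n = dl n) → (∀ n, cv ω g n = dl n) → Dat g (cv ω κ) D →
  ∀ (j : ℕ) (c : ℕ → ℂ), 1 ≤ j → j ≤ p + 1 →
    (∀ r, 1 ≤ r → r ≤ p + 1 → cv Q (cmb (p + 1) (psg g Φ) c) r = if r = j then (j : ℂ) else 0) →
    ∀ n, p + 1 < n → ‖cmb (p + 1) (psg g Φ) c n‖ ≤ j * BB (p + 1) n j

/-! ## Block D: functions -/

/-- `g` is starlike (not normalised). -/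
structure Starl (g : ℂ → ℂ) : Prop where
  analytic : DifferentiableOn ℂ g (ball 0 1)
  map_zero : g 0 = 0
  deriv_ne : deriv g 0 ≠ 0
  starlike : ∀ z ∈ ball (0 : ℂ) 1, z ≠ 0 → 0 < (z * deriv g z / g z).re

/-- (medium) `SPQ` (imported, `Spiral g 0`) gives `q` with `q 0 = 1`, `Re q > 0`, `z g' = q g`. Let `β 0 = 1`, `β m = coeff q m / 2`, so
`dbl β = coeff q`; `APX` (imported) gives `Approx β`. `G = coeff g`: `G_0 = 0`, `G_1 = g'(0)`, and `z g' = q g` gives (`CO1`-`CO4`)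
`(n-1) G_n = 2 ∑_{r<n} β_{n-r} G_r`, so `a_m = G_{m+1}/g'(0)` satisfies `Rec 2 β a`: `a = ex 2 β` (`ex_uni`). -/
def XG1_stmt : Prop := ∀ g : ℂ → ℂ, Starl g → ∃ β : ℕ → ℂ, Approx β ∧
  ∀ n, N2b689f5b.coeff g n = if n = 0 then 0 else deriv g 0 * ex 2 β (n - 1)

/-- (short-medium) `car_holds` (imported) for `Q` and for `1/Q` (`Re (1/Q) = Re Q/|Q|² > 0`): `coeff Q = Q(0) q`,
`coeff (1/Q) = κ/Q(0)`; `Q (1/Q) = 1` with `CO1`-`CO3`. `N2b689f5b.coeff Q 0 = Q 0`. -/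
def XG2_stmt : Prop := ∀ Q : ℂ → ℂ, DifferentiableOn ℂ Q (ball 0 1) → (∀ z ∈ ball (0 : ℂ) 1, 0 < (Q z).re) →
  ∃ q κ : ℕ → ℂ, Cara q ∧ Cara κ ∧ (∀ n, N2b689f5b.coeff Q n = Q 0 * q n) ∧ ∀ n, cv κ q n = dl n

/-- (short-medium) `g z ≠ 0` for `z ≠ 0` (otherwise the quotient is `0`), `G = dslope g 0` is analytic (`differentiableOn_dslope`) and
zero-free in the disc (`G 0 = g'(0)`), `Q z = c φ'(z)/G z`. For `z ≠ 0` `Q z = c z φ'(z)/g z`. `Re (Q 0) ≥ 0` by continuity; if it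
were `0`, `|exp (-Q)|` would have a maximum at `0`, so (`Complex.norm_eqOn_of_isPreconnected_of_isMaxOn`) `|exp (-Q)| = 1`
in the disc, contradiction to `Re Q > 0` at `z = 1/2`. -/
def XS0_stmt : Prop := ∀ (g φ : ℂ → ℂ) (c : ℂ), Starl g → DifferentiableOn ℂ φ (ball 0 1) →
  (∀ z ∈ ball (0 : ℂ) 1, z ≠ 0 → 0 < (c * (z * deriv φ z / g z)).re) →
  ∃ Q : ℂ → ℂ, DifferentiableOn ℂ Q (ball 0 1) ∧ (∀ z ∈ ball (0 : ℂ) 1, 0 < (Q z).re) ∧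
    ∀ z ∈ ball (0 : ℂ) 1, c * (z * deriv φ z) = Q z * g z

/-- (medium) From `XEM`, `XDL`, `XM2`, `XM3`, `XPS`, `XG1`, `XG2`. `Inv p h` gives `Φ`, `c₀` with `Goo p Φ`. `β` from `XG1`,
`q`, `κ` from `XG2`; `ĝ = ex 2 β`, `ω = ex (-2) β` (`cv ω ĝ = dl` by `XEM`), `Dat ĝ (cv ω κ) D` by `XDL`. `Rgs q` by
`rgb_holds` (imported), `q 0 = 1`. `XM2` with `p + 1`, `Q = q`, `Φ = psg ĝ Φ` (`XPS`, `XM3`) gives `Ψ`, `Goo (p+1) Ψ`. The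
coefficients of `h` are `∑_{m≤p} c (m+1) one0 Φ m r` with `c 1 = coeff h 0`, `c (m+1) = c₀ m` (as at the end of `MUF`), those of
`g h` are `g'(0) gs ĝ (coeff h) = cmb (p+1) (psg ĝ Φ) (g'(0) c)`, and `z f' = Q g h` gives `n coeff f n = cv q (cmb .. (Q(0) g'(0) c)) n`.
So `Inv (p+1) f` with `Ψ`. -/
def XST_stmt : Prop := ∀ (p : ℕ) (g h f Q : ℂ → ℂ), Starl g → Inv p h → DifferentiableOn ℂ f (ball 0 1) →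
  DifferentiableOn ℂ Q (ball 0 1) → (∀ z ∈ ball (0 : ℂ) 1, 0 < (Q z).re) →
  (∀ z ∈ ball (0 : ℂ) 1, z * deriv f z = Q z * (g z * h z)) → Inv (p + 1) f

end Pool.Agent.GD
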